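import Pool.Agent.Lib_helper40.SK.P.B0

namespace Pool.Agent.SK

noncomputable section

open scoped Classical

theorem ad1_image (Z : Type) [Fintype Z] (n : ℕ) :
    ((Finset.univ.image (fun z : Fin n → Z => typ z)).card : ℝ) ≤
      ((n : ℝ) + 1) ^ Fintype.card Z := by
  have h1 : (Finset.univ.image (fun z : Fin n → Z => typ z)) ⊆
      Fintype.piFinset (fun _ : Z => Finset.range (n + 1)) := by
    intro t ht
    rw [Finset.mem_image] at ht
    obtain ⟨z, -, rfl⟩ := ht
    rw [Fintype.mem_piFinset]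
    intro a
    rw [Finset.mem_range, typ]
    have := Finset.card_le_univ (Finset.univ.filter fun i => z i = a)
    rw [Fintype.card_fin] at this
    omega
  have h2 := Finset.card_le_card h1
  rw [Fintype.card_piFinset, Finset.prod_const, Finset.card_range, Finset.card_univ] at h2
  calc ((Finset.univ.image (fun z : Fin n → Z => typ z)).card : ℝ)
      ≤ (((n + 1) ^ Fintype.card Z : ℕ) : ℝ) := by exact_mod_cast h2
    _ = _ := by push_cast; ring

theorem same_type_sum {Z : Type} [Fintype Z] (s : Z → ℝ) (hs : ∀ z, 0 ≤ s z) (n : ℕ) :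
    (∑ z, s z) ^ (2 * n) / ((n : ℝ) + 1) ^ Fintype.card Z ≤
      ∑ z' : Fin n → Z, ∑ z'' : Fin n → Z,
        if typ z' = typ z'' then (∏ i, s (z' i)) * ∏ i, s (z'' i) else 0 := by
  set T := Finset.univ.image (fun z : Fin n → Z => typ z) with hT
  set S : (Z → ℕ) → ℝ := fun t => ∑ z ∈ Finset.univ.filter (fun z : Fin n → Z => typ z = t),
    ∏ i, s (z i) with hS
  have hmaps : ∀ z ∈ (Finset.univ : Finset (Fin n → Z)), typ z ∈ T := fun z _ =>
    Finset.mem_image_of_mem _ (Finset.mem_univ z)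
  have h1 : (∑ z, s z) ^ n = ∑ t ∈ T, S t := by
    have h2 := Finset.prod_univ_sum (fun _ : Fin n => (Finset.univ : Finset Z)) (fun _ z => s z)
    rw [Fintype.piFinset_univ, Finset.prod_const, Finset.card_univ, Fintype.card_fin] at h2
    rw [h2, hS]
    exact (Finset.sum_fiberwise_of_maps_to hmaps (fun z => ∏ i, s (z i))).symm
  have h3 : ∑ z' : Fin n → Z, ∑ z'' : Fin n → Z,
        (if typ z' = typ z'' then (∏ i, s (z' i)) * ∏ i, s (z'' i) else 0) =
      ∑ t ∈ T, S t ^ 2 := by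
    rw [← Finset.sum_fiberwise_of_maps_to hmaps (fun z' => ∑ z'' : Fin n → Z,
        (if typ z' = typ z'' then (∏ i, s (z' i)) * ∏ i, s (z'' i) else 0))]
    apply Finset.sum_congr rfl
    intro t _
    rw [sq, hS]
    simp only
    rw [Finset.sum_mul_sum]
    apply Finset.sum_congr rfl
    intro z' hz'
    rw [← Finset.sum_filter]
    apply Finset.sum_congr _ (fun _ _ => rfl)
    ext z''
    simp only [Finset.mem_filter, Finset.mem_univ, true_and] at hz' ⊢
    rw [hz']
    exact eq_comm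
  rw [h3, div_le_iff₀ (by positivity)]
  have h4 := sq_sum_le_card_mul_sum_sq (s := T) (f := S)
  have h5 : 0 ≤ ∑ t ∈ T, S t ^ 2 := Finset.sum_nonneg fun t _ => sq_nonneg _
  calc (∑ z, s z) ^ (2 * n) = (∑ t ∈ T, S t) ^ 2 := by rw [← h1]; ring
    _ ≤ (T.card : ℝ) * ∑ t ∈ T, S t ^ 2 := h4
    _ ≤ ((n : ℝ) + 1) ^ Fintype.card Z * ∑ t ∈ T, S t ^ 2 :=
        mul_le_mul_of_nonneg_right (ad1_image Z n) h5
    _ = _ := mul_comm _ _

end

end Pool.Agent.SK
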