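import Pool.Agent.Lib_helper40.SK.P.B0

namespace Pool.Agent.SK

noncomputable section

open scoped Classical

theorem amp_limit (R L ρ : ℝ) (hR : 0 ≤ R) (hRL : R < L) (hρ : 0 < ρ) (m : ℕ) :
    ∃ n : ℕ, 1 ≤ n ∧ 2 * R ^ (2 * n) ≤ ρ * (L ^ (2 * n) / ((n : ℝ) + 1) ^ m) := by
  have hL : 0 < L := lt_of_le_of_lt hR hRL
  rcases hR.eq_or_lt with h0 | h0
  · refine ⟨1, le_refl _, ?_⟩
    rw [← h0]
    have : 0 < ρ * (L ^ (2 * 1) / (((1 : ℕ) : ℝ) + 1) ^ m) := by positivity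
    simpa using this.le
  · set r : ℝ := (R / L) ^ 2 with hr
    have hr0 : 0 < r := by rw [hr]; positivity
    have hr1 : r < 1 := by
      rw [hr]
      have h1 : R / L < 1 := (div_lt_one hL).mpr hRL
      have h2 : 0 ≤ R / L := by positivity
      exact pow_lt_one₀ h2 h1 (by norm_num)
    have hlim := tendsto_pow_const_mul_const_pow_of_abs_lt_one m (r := r)
      (by rw [abs_of_pos hr0]; exact hr1)
    have hpos : 0 < ρ * r / 2 := by positivity
    have hev := hlim.eventually (gt_mem_nhds hpos)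
    rw [Filter.eventually_atTop] at hev
    obtain ⟨N, hN⟩ := hev
    refine ⟨N + 1, by omega, ?_⟩
    have h1 := hN (N + 1 + 1) (by omega)
    have h2 : ((N + 1 + 1 : ℕ) : ℝ) ^ m * r ^ (N + 1) < ρ / 2 := by
      have h3 : ((N + 1 + 1 : ℕ) : ℝ) ^ m * r ^ (N + 1 + 1) =
          (((N + 1 + 1 : ℕ) : ℝ) ^ m * r ^ (N + 1)) * r := by ring
      rw [h3] at h1
      have h4 : ρ * r / 2 = (ρ / 2) * r := by ring
      rw [h4] at h1
      exact lt_of_mul_lt_mul_right h1 hr0.le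
    have h5 : r ^ (N + 1) = R ^ (2 * (N + 1)) / L ^ (2 * (N + 1)) := by
      rw [hr, ← pow_mul, div_pow]
    rw [h5] at h2
    have hLp : 0 < L ^ (2 * (N + 1)) := by positivity
    have hn : (0 : ℝ) < (((N + 1 : ℕ) : ℝ) + 1) ^ m := by positivity
    have h6 : ((N + 1 + 1 : ℕ) : ℝ) = ((N + 1 : ℕ) : ℝ) + 1 := by push_cast; ring
    rw [h6, ← mul_div_assoc, div_lt_iff₀ hLp] at h2
    rw [← mul_div_assoc, le_div_iff₀ hn]
    linarith

end

end Pool.Agent.SK
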