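import Pool.Agent.Lib_helper40.SK.P.PROD1
import Pool.Agent.Lib_helper40.SK.P.AD1
import Pool.Agent.Lib_helper40.SK.P.AD3

namespace Pool.Agent.SK

noncomputable section

open scoped Classical

theorem AD2_typ_prod {Z : Type} [Fintype Z] {n : ℕ} (h : Z → ℝ) (z : Fin n → Z) :
    ∏ j, h (z j) = ∏ a, h a ^ typ z a := by
  rw [← Finset.prod_fiberwise (s := Finset.univ) (g := z)]
  refine Finset.prod_congr rfl fun a _ => ?_
  unfold typ
  rw [Finset.prod_congr rfl (g := fun _ => h a)]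
  · simp
  · intro x hx
    simp only [Finset.mem_filter, Finset.mem_univ, true_and] at hx
    rw [hx]

/-- pairs of words -/
def AD2_equiv (n : ℕ) (Z : Type) : (Fin n × Bool → Z) ≃ (Fin n → Z) × (Fin n → Z) where
  toFun z := (fun j => z (j, false), fun j => z (j, true))
  invFun p := fun i => if i.2 then p.2 i.1 else p.1 i.1
  left_inv z := by
    funext i
    rcases i with ⟨i, b⟩
    cases b <;> simp
  right_inv p := by
    ext j <;> simp

theorem AD2_prod_bool {n : ℕ} (h : Fin n × Bool → ℝ) :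
    ∏ i, h i = (∏ j, h (j, false)) * ∏ j, h (j, true) := by
  rw [Fintype.prod_prod_type]
  rw [← Finset.prod_mul_distrib]
  refine Finset.prod_congr rfl fun j _ => ?_
  rw [Fintype.prod_bool, mul_comm]

theorem AD2_prod_le {κ : Type} [Fintype κ] (a : κ → ℝ) (h0 : ∀ i, 0 ≤ a i) (h1 : ∀ i, a i ≤ 1)
    (i₀ : κ) : ∏ i, a i ≤ a i₀ := by
  rw [← Finset.mul_prod_erase Finset.univ a (Finset.mem_univ i₀)]
  calc a i₀ * ∏ x ∈ Finset.univ.erase i₀, a x ≤ a i₀ * 1 := by
        refine mul_le_mul_of_nonneg_left ?_ (h0 i₀)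
        exact Finset.prod_le_one (fun i _ => h0 i) (fun i _ => h1 i)
    _ = a i₀ := mul_one _

theorem AD2_Bt_nonneg {X Y : Type} [Fintype X] [Fintype Y] (P : X → Y → ℝ) (hP : IsP P)
    (f : X → ℝ) (g : Y → ℝ) (hf : ∀ x, 0 ≤ f x) (hg : ∀ y, 0 ≤ g y) : 0 ≤ Bt P f g := by
  unfold Bt
  refine Finset.sum_nonneg fun x _ => Finset.sum_nonneg fun y _ => ?_
  exact mul_nonneg (mul_nonneg (hP.1 x y) (hf x)) (hg y)

theorem AD2_Bz_nonneg {X Y Z : Type} [Fintype X] [Fintype Y] (P : X → Y → ℝ) (hP : IsP P)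
    (zf : X → Y → Z)
    (f : X → ℝ) (g : Y → ℝ) (hf : ∀ x, 0 ≤ f x) (hg : ∀ y, 0 ≤ g y) (z : Z) :
    0 ≤ Bz P zf f g z := by
  unfold Bz
  refine Finset.sum_nonneg fun x _ => Finset.sum_nonneg fun y _ => ?_
  split_ifs
  · exact mul_nonneg (mul_nonneg (hP.1 x y) (hf x)) (hg y)
  · exact le_rfl

theorem AD2_tern {X : Type} {n : ℕ} (hn : 1 ≤ n) (f0 f1 : X → ℝ) (hf : Tern f0 f1) :
    Tern (fun x : Fin n × Bool → X => ∏ i : Fin n × Bool, (if i.2 then f1 else f0) (x i))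
      (fun x : Fin n × Bool → X => ∏ i : Fin n × Bool, (if i.2 then f0 else f1) (x i)) := by
  intro x
  have a0 : ∀ (i : Fin n × Bool), 0 ≤ (if i.2 then f1 else f0) (x i) := by
    intro i
    split_ifs
    · exact (hf (x i)).2.1
    · exact (hf (x i)).1
  have a1 : ∀ (i : Fin n × Bool), (if i.2 then f1 else f0) (x i) ≤ 1 := by
    intro i
    have := hf (x i)
    split_ifs <;> linarith
  have b0 : ∀ (i : Fin n × Bool), 0 ≤ (if i.2 then f0 else f1) (x i) := by
    intro i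
    split_ifs
    · exact (hf (x i)).1
    · exact (hf (x i)).2.1
  have b1 : ∀ (i : Fin n × Bool), (if i.2 then f0 else f1) (x i) ≤ 1 := by
    intro i
    have := hf (x i)
    split_ifs <;> linarith
  refine ⟨Finset.prod_nonneg fun i _ => a0 i, Finset.prod_nonneg fun i _ => b0 i, ?_⟩
  have h1 := AD2_prod_le _ a0 a1 (⟨0, hn⟩, false)
  have h2 := AD2_prod_le _ b0 b1 (⟨0, hn⟩, false)
  have h3 := (hf (x (⟨0, hn⟩, false))).2.2
  simp only [Bool.false_eq_true, if_false] at h1 h2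
  linarith

theorem Hid_of_TV {X Y Z : Type} [Fintype X] [Fintype Y] [Fintype Z] (P : X → Y → ℝ)
    (hP : IsP P) (zf : X → Y → Z) (h : TV P zf) (ρ : ℝ) (hρ : 0 < ρ) :
    ∃ n : ℕ, Hid (pw (Fin n × Bool) P) (zw (Fin n × Bool) zf) ρ := by
  obtain ⟨f0, f1, g0, g1, hf, hg, hlt⟩ := h
  have hf0 : ∀ x, 0 ≤ f0 x := fun x => (hf x).1
  have hf1 : ∀ x, 0 ≤ f1 x := fun x => (hf x).2.1
  have hg0 : ∀ x, 0 ≤ g0 x := fun x => (hg x).1
  have hg1 : ∀ x, 0 ≤ g1 x := fun x => (hg x).2.1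
  obtain ⟨n, hn, hlim⟩ := amp_limit _ _ ρ (Real.sqrt_nonneg _) hlt hρ (Fintype.card Z)
  set R := Real.sqrt (Bt P f0 g1 * Bt P f1 g0) with hR
  set L := ∑ z, Real.sqrt (Bz P zf f0 g0 z * Bz P zf f1 g1 z) with hL
  have hR0 : 0 ≤ R := Real.sqrt_nonneg _
  have hR2 : R ^ 2 = Bt P f0 g1 * Bt P f1 g0 :=
    Real.sq_sqrt (mul_nonneg (AD2_Bt_nonneg P hP _ _ hf0 hg1) (AD2_Bt_nonneg P hP _ _ hf1 hg0))
  have hRn : R ^ (2 * n) = Bt P f0 g1 ^ n * Bt P f1 g0 ^ n := by
    rw [pow_mul, hR2, mul_pow]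
  -- error
  have e1 : Bt (pw (Fin n × Bool) P)
      (fun x : Fin n × Bool → X => ∏ i : Fin n × Bool, (if i.2 then f1 else f0) (x i))
      (fun y : Fin n × Bool → Y => ∏ i : Fin n × Bool, (if i.2 then g0 else g1) (y i)) = R ^ (2 * n) := by
    rw [Bt_pw P (fun i : Fin n × Bool => if i.2 then f1 else f0)
      (fun i : Fin n × Bool => if i.2 then g0 else g1), AD2_prod_bool, hRn]
    simp
  have e2 : Bt (pw (Fin n × Bool) P)
      (fun x : Fin n × Bool → X => ∏ i : Fin n × Bool, (if i.2 then f0 else f1) (x i))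
      (fun y : Fin n × Bool → Y => ∏ i : Fin n × Bool, (if i.2 then g1 else g0) (y i)) = R ^ (2 * n) := by
    rw [Bt_pw P (fun i : Fin n × Bool => if i.2 then f0 else f1)
      (fun i : Fin n × Bool => if i.2 then g1 else g0), AD2_prod_bool, hRn]
    simp [mul_comm]
  -- agreement
  have b00 : ∀ z, 0 ≤ Bz P zf f0 g0 z := AD2_Bz_nonneg P hP zf _ _ hf0 hg0
  have b11 : ∀ z, 0 ≤ Bz P zf f1 g1 z := AD2_Bz_nonneg P hP zf _ _ hf1 hg1
  have m1 : ∀ z : Fin n × Bool → Z, Bz (pw (Fin n × Bool) P) (zw (Fin n × Bool) zf)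
      (fun x : Fin n × Bool → X => ∏ i : Fin n × Bool, (if i.2 then f1 else f0) (x i))
      (fun y : Fin n × Bool → Y => ∏ i : Fin n × Bool, (if i.2 then g1 else g0) (y i)) z =
      (∏ j, Bz P zf f0 g0 (z (j, false))) * ∏ j, Bz P zf f1 g1 (z (j, true)) := by
    intro z
    rw [Bz_pw P zf (fun i : Fin n × Bool => if i.2 then f1 else f0)
      (fun i : Fin n × Bool => if i.2 then g1 else g0), AD2_prod_bool]
    simp
  have m2 : ∀ z : Fin n × Bool → Z, Bz (pw (Fin n × Bool) P) (zw (Fin n × Bool) zf)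
      (fun x : Fin n × Bool → X => ∏ i : Fin n × Bool, (if i.2 then f0 else f1) (x i))
      (fun y : Fin n × Bool → Y => ∏ i : Fin n × Bool, (if i.2 then g0 else g1) (y i)) z =
      (∏ j, Bz P zf f1 g1 (z (j, false))) * ∏ j, Bz P zf f0 g0 (z (j, true)) := by
    intro z
    rw [Bz_pw P zf (fun i : Fin n × Bool => if i.2 then f0 else f1)
      (fun i : Fin n × Bool => if i.2 then g0 else g1), AD2_prod_bool]
    simp
  have key : L ^ (2 * n) / ((n : ℝ) + 1) ^ Fintype.card Z ≤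
      ∑ z : Fin n × Bool → Z, min
        (Bz (pw (Fin n × Bool) P) (zw (Fin n × Bool) zf)
          (fun x : Fin n × Bool → X => ∏ i : Fin n × Bool, (if i.2 then f1 else f0) (x i))
          (fun y : Fin n × Bool → Y => ∏ i : Fin n × Bool, (if i.2 then g1 else g0) (y i)) z)
        (Bz (pw (Fin n × Bool) P) (zw (Fin n × Bool) zf)
          (fun x : Fin n × Bool → X => ∏ i : Fin n × Bool, (if i.2 then f0 else f1) (x i))
          (fun y : Fin n × Bool → Y => ∏ i : Fin n × Bool, (if i.2 then g0 else g1) (y i)) z) := by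
    refine (same_type_sum (fun z => Real.sqrt (Bz P zf f0 g0 z * Bz P zf f1 g1 z))
      (fun z => Real.sqrt_nonneg _) n).trans ?_
    rw [← Fintype.sum_prod_type', ← (AD2_equiv n Z).sum_comp]
    refine Finset.sum_le_sum fun z _ => ?_
    rw [m1 z, m2 z]
    change (if typ (fun j => z (j, false)) = typ (fun j => z (j, true)) then _ else _) ≤ _
    split_ifs with ht
    · have q0 : (∏ j, Bz P zf f0 g0 (z (j, true))) = ∏ j, Bz P zf f0 g0 (z (j, false)) := by
        rw [AD2_typ_prod (Bz P zf f0 g0) (fun j => z (j, true)), ← ht,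
          ← AD2_typ_prod (Bz P zf f0 g0) (fun j => z (j, false))]
      have q1 : (∏ j, Bz P zf f1 g1 (z (j, true))) = ∏ j, Bz P zf f1 g1 (z (j, false)) := by
        rw [AD2_typ_prod (Bz P zf f1 g1) (fun j => z (j, true)), ← ht,
          ← AD2_typ_prod (Bz P zf f1 g1) (fun j => z (j, false))]
      have qs : (∏ j, Real.sqrt (Bz P zf f0 g0 (z (j, true)) * Bz P zf f1 g1 (z (j, true)))) =
          ∏ j, Real.sqrt (Bz P zf f0 g0 (z (j, false)) * Bz P zf f1 g1 (z (j, false))) := by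
        rw [AD2_typ_prod (fun a => Real.sqrt (Bz P zf f0 g0 a * Bz P zf f1 g1 a))
            (fun j => z (j, true)), ← ht,
          ← AD2_typ_prod (fun a => Real.sqrt (Bz P zf f0 g0 a * Bz P zf f1 g1 a))
            (fun j => z (j, false))]
      have qq : (∏ j, Real.sqrt (Bz P zf f0 g0 (z (j, false)) * Bz P zf f1 g1 (z (j, false)))) *
          (∏ j, Real.sqrt (Bz P zf f0 g0 (z (j, true)) * Bz P zf f1 g1 (z (j, true)))) =
          (∏ j, Bz P zf f0 g0 (z (j, false))) * ∏ j, Bz P zf f1 g1 (z (j, false)) := by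
        rw [qs, ← Finset.prod_mul_distrib, ← Finset.prod_mul_distrib]
        refine Finset.prod_congr rfl fun j _ => ?_
        exact Real.mul_self_sqrt (mul_nonneg (b00 _) (b11 _))
      have r1 : min ((∏ j, Bz P zf f0 g0 (z (j, false))) * ∏ j, Bz P zf f1 g1 (z (j, true)))
          ((∏ j, Bz P zf f1 g1 (z (j, false))) * ∏ j, Bz P zf f0 g0 (z (j, true))) =
          (∏ j, Bz P zf f0 g0 (z (j, false))) * ∏ j, Bz P zf f1 g1 (z (j, false)) := by
        rw [q0, q1, mul_comm (∏ j, Bz P zf f1 g1 (z (j, false)))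
          (∏ j, Bz P zf f0 g0 (z (j, false))), min_self]
      rw [r1]
      exact qq.le
    · refine le_min ?_ ?_
      · exact mul_nonneg (Finset.prod_nonneg fun j _ => b00 _) (Finset.prod_nonneg fun j _ => b11 _)
      · exact mul_nonneg (Finset.prod_nonneg fun j _ => b11 _) (Finset.prod_nonneg fun j _ => b00 _)
  have hLpos : 0 < L := lt_of_le_of_lt hR0 hlt
  have hpos : 0 < L ^ (2 * n) / ((n : ℝ) + 1) ^ Fintype.card Z := by positivity
  refine ⟨n, _, _, _, _, AD2_tern hn f0 f1 hf, AD2_tern hn g0 g1 hg, lt_of_lt_of_le hpos key, ?_⟩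
  rw [e1, e2]
  calc R ^ (2 * n) + R ^ (2 * n) = 2 * R ^ (2 * n) := by ring
    _ ≤ ρ * (L ^ (2 * n) / ((n : ℝ) + 1) ^ Fintype.card Z) := hlim
    _ ≤ _ := mul_le_mul_of_nonneg_left key hρ.le

end

end Pool.Agent.SK
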