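import Pool.Agent.Lib_helper40.SK.P.B0

namespace Pool.Agent.SK

theorem ball1_cases : ∀ c : ZMod 2, c = 0 ∨ c = 1 := by decide

theorem ball1_univ : (Finset.univ : Finset (ZMod 2)) = {0, 1} := by decide

noncomputable section

open scoped Classical

theorem ball1_two (c : ZMod 2) (x : ℝ) : ∑ a : ZMod 2, (if a ≠ c then x else 1) = 1 + x := by
  rw [ball1_univ, Finset.sum_pair zero_ne_one]
  rcases ball1_cases c with rfl | rfl
  · rw [if_neg (fun h => h rfl), if_pos one_ne_zero]
  · rw [if_pos zero_ne_one, if_neg (fun h => h rfl)]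
    ring

theorem ball_le {k : ℕ} (b : Fin k → ZMod 2) (d : ℕ) (x : ℝ) (hx : 0 < x) (hx1 : x ≤ 1) :
    ((Finset.univ.filter fun a : Fin k → ZMod 2 => dH a b ≤ d).card : ℝ) ≤
      (1 + x) ^ k / x ^ d := by
  rw [le_div_iff₀ (by positivity)]
  have h1 : ∀ a : Fin k → ZMod 2, x ^ dH a b = ∏ j, (if a j ≠ b j then x else 1) := by
    intro a
    rw [dH, Finset.prod_ite, Finset.prod_const, Finset.prod_const_one, mul_one]
  have h2 : ∑ a : Fin k → ZMod 2, x ^ dH a b = (1 + x) ^ k := by
    rw [Finset.sum_congr rfl (fun a _ => h1 a)]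
    have h3 := Finset.prod_univ_sum (fun _ : Fin k => (Finset.univ : Finset (ZMod 2)))
      (fun j a => if a ≠ b j then x else 1)
    rw [Fintype.piFinset_univ] at h3
    rw [← h3, Finset.prod_congr rfl (fun j _ => ball1_two (b j) x), Finset.prod_const,
      Finset.card_univ, Fintype.card_fin]
  calc ((Finset.univ.filter fun a : Fin k → ZMod 2 => dH a b ≤ d).card : ℝ) * x ^ d
      = ∑ a ∈ Finset.univ.filter (fun a : Fin k → ZMod 2 => dH a b ≤ d), x ^ d := by
        rw [Finset.sum_const, nsmul_eq_mul]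
    _ ≤ ∑ a ∈ Finset.univ.filter (fun a : Fin k → ZMod 2 => dH a b ≤ d), x ^ dH a b := by
        apply Finset.sum_le_sum
        intro a ha
        exact pow_le_pow_of_le_one hx.le hx1 (Finset.mem_filter.mp ha).2
    _ ≤ ∑ a : Fin k → ZMod 2, x ^ dH a b :=
        Finset.sum_le_sum_of_subset_of_nonneg (Finset.filter_subset _ _)
          (fun a _ _ => by positivity)
    _ = _ := h2

end

end Pool.Agent.SK
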