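import Pool.Agent.Lib_helper40.SK.P.B0

namespace Pool.Agent.SK

noncomputable section

open scoped Classical

theorem tail_le {Ω : Type} [Fintype Ω] (μ : Ω → ℝ) (h0 : ∀ ω, 0 ≤ μ ω) (h1 : ∑ ω, μ ω = 1)
    (A B : Ω → ZMod 2) (ε : ℝ) (hε : (∑ ω, if A ω ≠ B ω then μ ω else 0) ≤ ε) (k d : ℕ)
    (t : ℝ) (ht : 1 ≤ t) :
    (∑ ω : Fin k → Ω, if d < dH (fun i => A (ω i)) (fun i => B (ω i)) then ∏ i, μ (ω i)
      else 0) ≤ (1 + (t - 1) * ε) ^ k / t ^ (d + 1) := by
  have ht0 : 0 < t := by linarith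
  rw [le_div_iff₀ (by positivity)]
  have h2 : ∀ ω : Fin k → Ω, t ^ dH (fun i => A (ω i)) (fun i => B (ω i)) =
      ∏ i, (if A (ω i) ≠ B (ω i) then t else 1) := by
    intro ω
    rw [dH, Finset.prod_ite, Finset.prod_const, Finset.prod_const_one, mul_one]
  have h3 : ∑ ω : Fin k → Ω, (∏ i, μ (ω i)) *
      t ^ dH (fun i => A (ω i)) (fun i => B (ω i)) =
      (∑ ω, μ ω * (if A ω ≠ B ω then t else 1)) ^ k := by
    have h4 := Finset.prod_univ_sum (fun _ : Fin k => (Finset.univ : Finset Ω))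
      (fun _ ω => μ ω * (if A ω ≠ B ω then t else 1))
    rw [Fintype.piFinset_univ, Finset.prod_const, Finset.card_univ, Fintype.card_fin] at h4
    rw [h4]
    apply Finset.sum_congr rfl
    intro ω _
    rw [h2 ω, Finset.prod_mul_distrib]
  have h5 : ∑ ω, μ ω * (if A ω ≠ B ω then t else 1) =
      1 + (t - 1) * ∑ ω, (if A ω ≠ B ω then μ ω else 0) := by
    rw [Finset.mul_sum]
    nth_rewrite 2 [← h1]
    rw [← Finset.sum_add_distrib]
    apply Finset.sum_congr rfl
    intro ω _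
    split_ifs <;> ring
  have hp0 : 0 ≤ ∑ ω, (if A ω ≠ B ω then μ ω else 0) :=
    Finset.sum_nonneg fun ω _ => by split_ifs <;> [exact h0 ω; exact le_refl _]
  rw [Finset.sum_mul]
  calc ∑ ω : Fin k → Ω, (if d < dH (fun i => A (ω i)) (fun i => B (ω i)) then ∏ i, μ (ω i)
        else 0) * t ^ (d + 1)
      ≤ ∑ ω : Fin k → Ω, (∏ i, μ (ω i)) *
          t ^ dH (fun i => A (ω i)) (fun i => B (ω i)) := by
        apply Finset.sum_le_sum
        intro ω _
        have hpos : 0 ≤ ∏ i, μ (ω i) := Finset.prod_nonneg fun i _ => h0 _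
        split_ifs with h
        · exact mul_le_mul_of_nonneg_left (pow_le_pow_right₀ ht h) hpos
        · rw [zero_mul]
          positivity
    _ = (1 + (t - 1) * ∑ ω, (if A ω ≠ B ω then μ ω else 0)) ^ k := by rw [h3, h5]
    _ ≤ (1 + (t - 1) * ε) ^ k := by
        apply pow_le_pow_left₀
        · have : 0 ≤ (t - 1) * ∑ ω, (if A ω ≠ B ω then μ ω else 0) :=
            mul_nonneg (by linarith) hp0
          linarith
        · have := mul_le_mul_of_nonneg_left hε (by linarith : 0 ≤ t - 1)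
          linarith

end

end Pool.Agent.SK
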