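import Pool.Agent.Lib_helper40.SK.P.B0
/-! SK block DEC1 -/

namespace Pool.Agent.SK

noncomputable section

open scoped Classical

theorem dec1_first (k : ℕ) :
    (1 + (64 - 1) * (1 / 1000) : ℝ) ^ k / 64 ^ (k / 50 + 1) ≤ (1 / 2) ^ (k / 50) := by
  set a : ℝ := 1 + (64 - 1) * (1 / 1000) with ha
  have ha1 : 1 ≤ a := by rw [ha]; norm_num
  have h50 : a ^ 50 ≤ 32 := by rw [ha]; norm_num
  set q := k / 50 with hq
  have hk : k ≤ 50 * q + 50 := by omega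
  have h1 : a ^ k ≤ a ^ (50 * q + 50) := pow_le_pow_right₀ ha1 hk
  have h2 : a ^ (50 * q + 50) = (a ^ 50) ^ (q + 1) := by
    rw [← pow_mul]; congr 1
  have h3 : (a ^ 50) ^ (q + 1) ≤ 32 ^ (q + 1) := pow_le_pow_left₀ (by positivity) h50 _
  rw [div_le_iff₀ (by positivity)]
  have h4 : (1 / 2 : ℝ) ^ q * 64 ^ (q + 1) = 2 * 32 ^ (q + 1) := by
    have : (64 : ℝ) ^ (q + 1) = 2 ^ (q + 1) * 32 ^ (q + 1) := by
      rw [← mul_pow]; norm_num
    rw [this, pow_succ (2 : ℝ) q]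
    have : (1 / 2 : ℝ) ^ q * 2 ^ q = 1 := by
      rw [← mul_pow]; norm_num
    linear_combination (2 * 32 ^ (q + 1)) * this
  rw [h4]
  have : (0 : ℝ) < 32 ^ (q + 1) := by positivity
  linarith

theorem dec1_second (k : ℕ) :
    ((1 + 1 / 64 : ℝ) ^ k / (1 / 64) ^ (k / 50)) / 2 ^ (k / 4) ≤ 320 * (1 / 2) ^ (k / 100) := by
  set p := k / 100 with hp
  have hk : k ≤ 100 * p + 100 := by omega
  have h50 : k / 50 ≤ 2 * p + 1 := by omega
  have h4 : 25 * p ≤ k / 4 := by omega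
  have e1 : (1 + 1 / 64 : ℝ) ^ k ≤ (1 + 1 / 64) ^ (100 * p + 100) :=
    pow_le_pow_right₀ (by norm_num) hk
  have e2 : (1 + 1 / 64 : ℝ) ^ (100 * p + 100) = ((1 + 1 / 64) ^ 100) ^ (p + 1) := by
    rw [← pow_mul]; congr 1
  have e3 : ((1 + 1 / 64 : ℝ) ^ 100) ^ (p + 1) ≤ 5 ^ (p + 1) :=
    pow_le_pow_left₀ (by positivity) (by norm_num) _
  have e4 : (64 : ℝ) ^ (k / 50) ≤ 64 ^ (2 * p + 1) := pow_le_pow_right₀ (by norm_num) h50
  have e5 : (2 : ℝ) ^ (25 * p) ≤ 2 ^ (k / 4) := pow_le_pow_right₀ (by norm_num) h4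
  have e6 : (1 + 1 / 64 : ℝ) ^ k / (1 / 64) ^ (k / 50) = (1 + 1 / 64) ^ k * 64 ^ (k / 50) := by
    rw [one_div_pow, div_div_eq_mul_div, div_one]
  rw [e6, div_le_iff₀ (by positivity)]
  calc (1 + 1 / 64 : ℝ) ^ k * 64 ^ (k / 50) ≤ 5 ^ (p + 1) * 64 ^ (2 * p + 1) := by
        refine mul_le_mul (by linarith) e4 (by positivity) (by positivity)
    _ = 320 * (5 * 64 ^ 2) ^ p := by
        rw [pow_succ, pow_succ, pow_mul, mul_pow]
        ring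
    _ ≤ 320 * ((1 / 2) * 2 ^ 25) ^ p := by
        refine mul_le_mul_of_nonneg_left (pow_le_pow_left₀ (by norm_num) (by norm_num) _)
          (by norm_num)
    _ = 320 * (1 / 2) ^ p * 2 ^ (25 * p) := by
        rw [mul_pow, ← pow_mul]; ring
    _ ≤ 320 * (1 / 2) ^ p * 2 ^ (k / 4) := mul_le_mul_of_nonneg_left e5 (by positivity)

theorem dec_exp (ε : ℝ) (hε : 0 < ε) : ∃ k₀ : ℕ, ∀ k : ℕ, k₀ ≤ k →
    (1 + (64 - 1) * (1 / 1000) : ℝ) ^ k / 64 ^ (k / 50 + 1) +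
      ((1 + 1 / 64) ^ k / (1 / 64) ^ (k / 50)) / 2 ^ (k / 4) ≤ ε := by
  obtain ⟨n, hn⟩ := exists_pow_lt_of_lt_one (show 0 < ε / 321 by positivity)
    (show (1 / 2 : ℝ) < 1 by norm_num)
  refine ⟨100 * n, fun k hk => ?_⟩
  have h1 := dec1_first k
  have h2 := dec1_second k
  have h3 : (1 / 2 : ℝ) ^ (k / 50) ≤ (1 / 2) ^ n :=
    pow_le_pow_of_le_one (by norm_num) (by norm_num) (by omega)
  have h4 : (1 / 2 : ℝ) ^ (k / 100) ≤ (1 / 2) ^ n :=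
    pow_le_pow_of_le_one (by norm_num) (by norm_num) (by omega)
  rw [lt_div_iff₀ (by norm_num)] at hn
  linarith

end

end Pool.Agent.SK
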