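import Pool.Agent.Lib_helper40.SK.P.HASH
import Pool.Agent.Lib_helper40.SK.P.BALL1
import Pool.Agent.Lib_helper40.SK.P.BALL2
import Pool.Agent.Lib_helper40.SK.P.DEC1

namespace Pool.Agent.SK

noncomputable section

open scoped Classical

theorem dec2_card (s k : ℕ) : (∑ _S : Fin s → Fin k → ZMod 2, (1 : ℝ)) = 2 ^ (s * k) := by
  rw [Finset.sum_const, Finset.card_univ, Fintype.card_fun, Fintype.card_fun, ZMod.card,
    Fintype.card_fin, Fintype.card_fin, nsmul_eq_mul, mul_one]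
  push_cast
  rw [← pow_mul, mul_comm]

/-- the decoder -/
def dec2_dec (k d s : ℕ) (b : Fin k → ZMod 2) (S : Fin s → Fin k → ZMod 2)
    (σ : Fin s → ZMod 2) : Fin k → ZMod 2 :=
  if h : ∃ a, dH a b ≤ d ∧ mv S a = σ then h.choose else 0

theorem dec2_pt {k d s : ℕ} (a b : Fin k → ZMod 2) (S : Fin s → Fin k → ZMod 2) :
    (if dec2_dec k d s b S (mv S a) ≠ a then (1 : ℝ) else 0) ≤
      (if d < dH a b then (1 : ℝ) else 0) +
        ∑ a' ∈ Finset.univ.filter (fun a' : Fin k → ZMod 2 => dH a' b ≤ d),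
          if a' ≠ a ∧ mv S a' = mv S a then (1 : ℝ) else 0 := by
  have hnn : ∀ a' : Fin k → ZMod 2,
      0 ≤ (if a' ≠ a ∧ mv S a' = mv S a then (1 : ℝ) else 0) := by
    intro a'
    split_ifs <;> norm_num
  have hsum : 0 ≤ ∑ a' ∈ Finset.univ.filter (fun a' : Fin k → ZMod 2 => dH a' b ≤ d),
      (if a' ≠ a ∧ mv S a' = mv S a then (1 : ℝ) else 0) :=
    Finset.sum_nonneg fun a' _ => hnn a'
  by_cases h1 : d < dH a b
  · rw [if_pos h1]
    have : (if dec2_dec k d s b S (mv S a) ≠ a then (1 : ℝ) else 0) ≤ 1 := by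
      split_ifs <;> norm_num
    linarith
  · rw [if_neg h1, zero_add]
    by_cases h2 : dec2_dec k d s b S (mv S a) ≠ a
    · rw [if_pos h2]
      have hex : ∃ a', dH a' b ≤ d ∧ mv S a' = mv S a := ⟨a, not_lt.1 h1, rfl⟩
      have hd : dec2_dec k d s b S (mv S a) = hex.choose := by
        unfold dec2_dec
        rw [dif_pos hex]
      have hs := hex.choose_spec
      rw [hd] at h2
      have h3 : (1 : ℝ) = (if hex.choose ≠ a ∧ mv S hex.choose = mv S a then (1 : ℝ) else 0) := by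
        rw [if_pos ⟨h2, hs.2⟩]
      refine (le_of_eq h3).trans ?_
      have hm : hex.choose ∈ Finset.univ.filter (fun a' : Fin k → ZMod 2 => dH a' b ≤ d) := by
        rw [Finset.mem_filter]
        exact ⟨Finset.mem_univ _, hs.1⟩
      exact Finset.single_le_sum (f := fun a' : Fin k → ZMod 2 =>
        if a' ≠ a ∧ mv S a' = mv S a then (1 : ℝ) else 0) (fun a' _ => hnn a') hm
    · rw [if_neg h2]
      exact hsum

theorem dec2_S {k d s : ℕ} (a b : Fin k → ZMod 2) (M : ℝ)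
    (hM : ((Finset.univ.filter fun a : Fin k → ZMod 2 => dH a b ≤ d).card : ℝ) ≤ M) :
    (∑ S : Fin s → Fin k → ZMod 2,
      if dec2_dec k d s b S (mv S a) ≠ a then (1 : ℝ) else 0) ≤
      2 ^ (s * k) * ((if d < dH a b then (1 : ℝ) else 0) + M / 2 ^ s) := by
  refine (Finset.sum_le_sum fun S _ => dec2_pt (d := d) a b S).trans ?_
  rw [Finset.sum_add_distrib, mul_add]
  refine add_le_add (le_of_eq ?_) ?_
  · rw [← dec2_card, Finset.sum_mul]
    simp
  · rw [Finset.sum_comm]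
    have h1 : ∀ a' : Fin k → ZMod 2, (∑ S : Fin s → Fin k → ZMod 2,
        if a' ≠ a ∧ mv S a' = mv S a then (1 : ℝ) else 0) ≤ 2 ^ (s * k) / 2 ^ s := by
      intro a'
      by_cases h : a' = a
      · have : ∀ S : Fin s → Fin k → ZMod 2,
            (if a' ≠ a ∧ mv S a' = mv S a then (1 : ℝ) else 0) = 0 := fun S =>
          if_neg fun h' => h'.1 h
        simp only [this, Finset.sum_const_zero]
        positivity
      · rw [← hash_count a' a h]
        refine le_of_eq (Finset.sum_congr rfl fun S _ => ?_)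
        refine if_congr ?_ rfl rfl
        exact ⟨fun h' => h'.2, fun h' => ⟨h, h'⟩⟩
    refine (Finset.sum_le_sum fun a' _ => h1 a').trans ?_
    rw [Finset.sum_const, nsmul_eq_mul]
    have h2 : (0 : ℝ) ≤ 2 ^ (s * k) / 2 ^ s := by positivity
    calc ((Finset.univ.filter fun a : Fin k → ZMod 2 => dH a b ≤ d).card : ℝ) *
          (2 ^ (s * k) / 2 ^ s) ≤ M * (2 ^ (s * k) / 2 ^ s) :=
          mul_le_mul_of_nonneg_right hM h2
      _ = _ := by ring

theorem code_dec {Ω : Type} [Fintype Ω] (μ : Ω → ℝ) (h0 : ∀ ω, 0 ≤ μ ω)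
    (h1 : ∑ ω, μ ω = 1) (A B : Ω → ZMod 2)
    (hAB : (∑ ω, if A ω ≠ B ω then μ ω else 0) ≤ 1 / 1000) (ε : ℝ) (hε : 0 < ε) :
    ∃ k₀ : ℕ, ∀ k : ℕ, k₀ ≤ k →
      ∃ dec : (Fin k → ZMod 2) → (Fin (k / 4) → Fin k → ZMod 2) → (Fin (k / 4) → ZMod 2) →
        (Fin k → ZMod 2),
      (∑ ω : Fin k → Ω, ∑ S : Fin (k / 4) → Fin k → ZMod 2,
        if dec (fun i => B (ω i)) S (mv S (fun i => A (ω i))) ≠ (fun i => A (ω i)) then
          (∏ i, μ (ω i)) / 2 ^ (k / 4 * k) else 0) ≤ ε := by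
  obtain ⟨k₀, hk₀⟩ := dec_exp ε hε
  refine ⟨k₀, fun k hk => ⟨dec2_dec k (k / 50) (k / 4), ?_⟩⟩
  have hprod : ∀ ω : Fin k → Ω, 0 ≤ ∏ i, μ (ω i) := fun ω =>
    Finset.prod_nonneg fun i _ => h0 _
  have hone : ∑ ω : Fin k → Ω, ∏ i, μ (ω i) = 1 := by
    rw [← Fintype.sum_pow, h1, one_pow]
  set M : ℝ := (1 + 1 / 64) ^ k / (1 / 64) ^ (k / 50) with hM
  have hball : ∀ b : Fin k → ZMod 2,
      ((Finset.univ.filter fun a : Fin k → ZMod 2 => dH a b ≤ k / 50).card : ℝ) ≤ M := fun b =>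
    ball_le b (k / 50) (1 / 64) (by norm_num) (by norm_num)
  have htail := tail_le μ h0 h1 A B (1 / 1000) hAB k (k / 50) 64 (by norm_num)
  have step : ∀ ω : Fin k → Ω, (∑ S : Fin (k / 4) → Fin k → ZMod 2,
      if dec2_dec k (k / 50) (k / 4) (fun i => B (ω i)) S (mv S (fun i => A (ω i))) ≠
        (fun i => A (ω i)) then (∏ i, μ (ω i)) / 2 ^ (k / 4 * k) else 0) ≤
      (if k / 50 < dH (fun i => A (ω i)) (fun i => B (ω i)) then ∏ i, μ (ω i) else 0) +
        (∏ i, μ (ω i)) * (M / 2 ^ (k / 4)) := by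
    intro ω
    have e1 : (∑ S : Fin (k / 4) → Fin k → ZMod 2,
        if dec2_dec k (k / 50) (k / 4) (fun i => B (ω i)) S (mv S (fun i => A (ω i))) ≠
          (fun i => A (ω i)) then (∏ i, μ (ω i)) / 2 ^ (k / 4 * k) else 0) =
        (∏ i, μ (ω i)) / 2 ^ (k / 4 * k) * ∑ S : Fin (k / 4) → Fin k → ZMod 2,
        if dec2_dec k (k / 50) (k / 4) (fun i => B (ω i)) S (mv S (fun i => A (ω i))) ≠
          (fun i => A (ω i)) then (1 : ℝ) else 0 := by
      rw [Finset.mul_sum]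
      refine Finset.sum_congr rfl fun S _ => ?_
      split_ifs <;> simp
    rw [e1]
    have h2 := dec2_S (s := k / 4) (fun i => A (ω i)) (fun i => B (ω i)) M
      (hball fun i => B (ω i))
    have h3 : 0 ≤ (∏ i, μ (ω i)) / 2 ^ (k / 4 * k) := div_nonneg (hprod ω) (by positivity)
    refine (mul_le_mul_of_nonneg_left h2 h3).trans (le_of_eq ?_)
    have h4 : (2 : ℝ) ^ (k / 4 * k) ≠ 0 := by positivity
    rw [← mul_assoc, div_mul_cancel₀ _ h4, mul_add]
    congr 1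
    split_ifs <;> simp
  refine (Finset.sum_le_sum fun ω _ => step ω).trans ?_
  rw [Finset.sum_add_distrib, ← Finset.sum_mul, hone, one_mul]
  exact (add_le_add htail le_rfl).trans (hk₀ k hk)

end

end Pool.Agent.SK
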