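import Pool.Agent.Lib_helper40.SK.P.B0

namespace Pool.Agent.SK

noncomputable section

open scoped Classical

theorem lhl2_word {Ω E : Type} [Fintype Ω] (μ : Ω → ℝ) (A : Ω → ZMod 2) (e : Ω → E)
    (k : ℕ) (o : Fin k → E) (a : Fin k → ZMod 2) :
    (∑ ω : Fin k → Ω, if (fun i => e (ω i)) = o ∧ (fun i => A (ω i)) = a then
        ∏ i, μ (ω i) else 0) =
      ∏ i, ∑ ω, (if e ω = o i ∧ A ω = a i then μ ω else 0) := by
  rw [Finset.prod_univ_sum, Fintype.piFinset_univ]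
  refine Finset.sum_congr rfl fun ω _ => ?_
  by_cases h : ∀ i, e (ω i) = o i ∧ A (ω i) = a i
  · rw [if_pos ⟨funext fun i => (h i).1, funext fun i => (h i).2⟩]
    exact Finset.prod_congr rfl fun i _ => by rw [if_pos (h i)]
  · rw [if_neg]
    · obtain ⟨i, hi⟩ := not_forall.1 h
      exact (Finset.prod_eq_zero (Finset.mem_univ i) (if_neg hi)).symm
    · rintro ⟨h1, h2⟩
      exact h fun i => ⟨congrFun h1 i, congrFun h2 i⟩

theorem lhl2_sqrt {ι : Type} (s : Finset ι) (x : ι → ℝ) (hx : ∀ i, 0 ≤ x i) :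
    Real.sqrt (∏ i ∈ s, x i) = ∏ i ∈ s, Real.sqrt (x i) := by
  induction s using Finset.induction_on with
  | empty => simp
  | insert i s hi ih =>
    rw [Finset.prod_insert hi, Finset.prod_insert hi, Real.sqrt_mul (hx i), ih]

theorem lhl2_two (p q : ℝ) (hp : 0 ≤ p) (hq : 0 ≤ q) :
    Real.sqrt (p ^ 2 + q ^ 2) ≤ ((p + q) + |p - q|) / Real.sqrt 2 := by
  rw [Real.sqrt_le_left (by positivity)]
  rw [div_pow, Real.sq_sqrt (by norm_num)]
  rcases abs_cases (p - q) with ⟨h, _⟩ | ⟨h, _⟩ <;> rw [h] <;> nlinarith [mul_nonneg hp hq]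

theorem coll_pw {Ω E : Type} [Fintype Ω] [Fintype E] (μ : Ω → ℝ) (h0 : ∀ ω, 0 ≤ μ ω)
    (h1 : ∑ ω, μ ω = 1) (A : Ω → ZMod 2) (e : Ω → E)
    (hE : (∑ o, |∑ ω, if e ω = o then (if A ω = 0 then (1 : ℝ) else -1) * μ ω else 0|)
      ≤ 1 / 1000) (k : ℕ) :
    (∑ o : Fin k → E, Real.sqrt (∑ a : Fin k → ZMod 2,
      (∑ ω : Fin k → Ω, if (fun i => e (ω i)) = o ∧ (fun i => A (ω i)) = a then
        ∏ i, μ (ω i) else 0) ^ 2)) ≤ ((1 + 1 / 1000) / Real.sqrt 2) ^ k := by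
  set w : E → ZMod 2 → ℝ := fun o a => ∑ ω, (if e ω = o ∧ A ω = a then μ ω else 0) with hw
  have hw0 : ∀ o a, 0 ≤ w o a := by
    intro o a
    refine Finset.sum_nonneg fun ω _ => ?_
    split_ifs
    · exact h0 ω
    · exact le_rfl
  have key : ∀ o : Fin k → E, Real.sqrt (∑ a : Fin k → ZMod 2,
      (∑ ω : Fin k → Ω, if (fun i => e (ω i)) = o ∧ (fun i => A (ω i)) = a then
        ∏ i, μ (ω i) else 0) ^ 2) = ∏ i, Real.sqrt (∑ a, w (o i) a ^ 2) := by
    intro o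
    rw [← lhl2_sqrt _ _ fun i => Finset.sum_nonneg fun a _ => sq_nonneg _]
    congr 1
    rw [Finset.prod_univ_sum, Fintype.piFinset_univ]
    refine Finset.sum_congr rfl fun a _ => ?_
    rw [lhl2_word, Finset.prod_pow]
  simp only [key]
  have e1 : ∑ o : Fin k → E, ∏ i, Real.sqrt (∑ a, w (o i) a ^ 2) =
      (∑ o, Real.sqrt (∑ a, w o a ^ 2)) ^ k := by
    rw [Fintype.sum_pow]
  rw [e1]
  refine pow_le_pow_left₀ (Finset.sum_nonneg fun o _ => Real.sqrt_nonneg _) ?_ k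
  have hz : ∀ f : ZMod 2 → ℝ, ∑ a, f a = f 0 + f 1 := fun f => Fin.sum_univ_two f
  have e2 : ∑ o, Real.sqrt (∑ a, w o a ^ 2) ≤
      ∑ o, ((w o 0 + w o 1) + |w o 0 - w o 1|) / Real.sqrt 2 := by
    refine Finset.sum_le_sum fun o _ => ?_
    rw [hz]
    exact lhl2_two _ _ (hw0 o 0) (hw0 o 1)
  refine e2.trans ?_
  rw [← Finset.sum_div]
  refine div_le_div_of_nonneg_right ?_ (Real.sqrt_nonneg _)
  rw [Finset.sum_add_distrib]
  have hcase : ∀ x : ZMod 2, x = 0 ∨ x = 1 := by decide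
  have e3 : ∑ o, (w o 0 + w o 1) = 1 := by
    have : ∀ o, w o 0 + w o 1 = ∑ ω, if e ω = o then μ ω else 0 := by
      intro o
      rw [hw]
      simp only
      rw [← Finset.sum_add_distrib]
      refine Finset.sum_congr rfl fun ω _ => ?_
      rcases hcase (A ω) with h | h <;> by_cases h' : e ω = o <;> simp [h, h']
    simp only [this]
    rw [Finset.sum_comm]
    simp [h1]
  have e4 : ∑ o, |w o 0 - w o 1| ≤ 1 / 1000 := by
    refine le_trans (le_of_eq ?_) hE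
    refine Finset.sum_congr rfl fun o _ => ?_
    congr 1
    rw [hw]
    simp only
    rw [← Finset.sum_sub_distrib]
    refine Finset.sum_congr rfl fun ω _ => ?_
    rcases hcase (A ω) with h | h <;> by_cases h' : e ω = o <;> simp [h, h']
  rw [e3]
  linarith

end

end Pool.Agent.SK
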