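import Pool.Agent.Lib_helper40.SK.P.LHL1
import Pool.Agent.Lib_helper40.SK.P.LHL2

namespace Pool.Agent.SK

noncomputable section

open scoped Classical

theorem LHL3_limit (ε : ℝ) (hε : 0 < ε) : ∃ k₀ : ℕ, ∀ k : ℕ, k₀ ≤ k →
    2 * Real.sqrt (2 ^ (k / 4 + k / 4)) * ((1 + 1 / 1000) / Real.sqrt 2) ^ k ≤ ε := by
  set θ : ℝ := Real.sqrt (Real.sqrt 2) with hθ
  have hs0 : 0 ≤ Real.sqrt 2 := Real.sqrt_nonneg _
  have h2 : θ ^ 2 = Real.sqrt 2 := Real.sq_sqrt hs0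
  have h4 : θ ^ 4 = 2 := by
    have : θ ^ 4 = (θ ^ 2) ^ 2 := by ring
    rw [this, h2, Real.sq_sqrt (by norm_num)]
  have hθ0 : 0 ≤ θ := Real.sqrt_nonneg _
  have hθ1 : 1 + 1 / 1000 < θ := by
    by_contra hlt
    rw [not_lt] at hlt
    have := pow_le_pow_left₀ hθ0 hlt 4
    rw [h4] at this
    norm_num at this
  have hθp : 0 < θ := by linarith
  have hq0 : 0 ≤ (1 + 1 / 1000) / θ := by positivity
  have hq1 : (1 + 1 / 1000) / θ < 1 := by rwa [div_lt_one hθp]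
  have hl := tendsto_pow_atTop_nhds_zero_of_lt_one hq0 hq1
  have hev : ∀ᶠ k : ℕ in Filter.atTop, ((1 + 1 / 1000) / θ) ^ k < ε / 2 :=
    hl.eventually (gt_mem_nhds (by linarith))
  obtain ⟨k₀, hk₀⟩ := Filter.eventually_atTop.1 hev
  refine ⟨k₀, fun k hk => ?_⟩
  have h5 : Real.sqrt (2 ^ (k / 4 + k / 4)) ≤ θ ^ k := by
    rw [Real.sqrt_le_left (by positivity)]
    calc (2 : ℝ) ^ (k / 4 + k / 4) = θ ^ (4 * (k / 4 + k / 4)) := by rw [pow_mul, h4]
      _ ≤ θ ^ (k * 2) := pow_le_pow_right₀ (by linarith) (by omega)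
      _ = (θ ^ k) ^ 2 := by rw [pow_mul]
  have h6 : θ ^ k * ((1 + 1 / 1000) / Real.sqrt 2) ^ k = ((1 + 1 / 1000) / θ) ^ k := by
    rw [← mul_pow, ← h2]
    congr 1
    field_simp
  have h7 : 0 ≤ ((1 + 1 / 1000) / Real.sqrt 2) ^ k := by positivity
  calc 2 * Real.sqrt (2 ^ (k / 4 + k / 4)) * ((1 + 1 / 1000) / Real.sqrt 2) ^ k
      ≤ 2 * θ ^ k * ((1 + 1 / 1000) / Real.sqrt 2) ^ k := by
        refine mul_le_mul_of_nonneg_right ?_ h7
        exact mul_le_mul_of_nonneg_left h5 (by norm_num)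
    _ = 2 * ((1 + 1 / 1000) / θ) ^ k := by rw [mul_assoc, h6]
    _ ≤ ε := by
        have := hk₀ k hk
        linarith

theorem code_lhl {Ω E : Type} [Fintype Ω] [Fintype E] (μ : Ω → ℝ) (h0 : ∀ ω, 0 ≤ μ ω)
    (h1 : ∑ ω, μ ω = 1) (A : Ω → ZMod 2) (e : Ω → E)
    (hE : (∑ o, |∑ ω, if e ω = o then (if A ω = 0 then (1 : ℝ) else -1) * μ ω else 0|)
      ≤ 1 / 1000) (ε : ℝ) (hε : 0 < ε) :
    ∃ k₀ : ℕ, ∀ k : ℕ, k₀ ≤ k →
      ∀ D : (Fin (k / 4) → ZMod 2) → (Fin (k / 4) → Fin k → ZMod 2) →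
        (Fin (k / 4) → Fin k → ZMod 2) → (Fin (k / 4) → ZMod 2) → (Fin k → E) → ℝ,
      (∀ u S T σ o, 0 ≤ D u S T σ o ∧ D u S T σ o ≤ 1) →
      |∑ ω : Fin k → Ω, ∑ S : Fin (k / 4) → Fin k → ZMod 2,
        ∑ T : Fin (k / 4) → Fin k → ZMod 2,
        (∏ i, μ (ω i)) / 2 ^ (k / 4 * k) / 2 ^ (k / 4 * k) *
          (D (mv T fun i => A (ω i)) S T (mv S fun i => A (ω i)) (fun i => e (ω i)) -
            (∑ u, D u S T (mv S fun i => A (ω i)) (fun i => e (ω i))) / 2 ^ (k / 4))| ≤ ε := by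
  obtain ⟨k₀, hk₀⟩ := LHL3_limit ε hε
  refine ⟨k₀, fun k hk D hD => ?_⟩
  -- the weight of a word `ω` in front of `W`
  set W : (Fin k → ZMod 2) → (Fin k → E) → ℝ := fun a o =>
    ∑ S : Fin (k / 4) → Fin k → ZMod 2, ∑ T : Fin (k / 4) → Fin k → ZMod 2,
      1 / 2 ^ (k / 4 * k) / 2 ^ (k / 4 * k) *
        (D (mv T a) S T (mv S a) o - (∑ u, D u S T (mv S a) o) / 2 ^ (k / 4)) with hW
  set p : (Fin k → E) → (Fin k → ZMod 2) → ℝ := fun o a =>
    ∑ ω : Fin k → Ω, if (fun i => e (ω i)) = o ∧ (fun i => A (ω i)) = a then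
        ∏ i, μ (ω i) else 0 with hp
  have e1 : (∑ ω : Fin k → Ω, ∑ S : Fin (k / 4) → Fin k → ZMod 2,
        ∑ T : Fin (k / 4) → Fin k → ZMod 2,
        (∏ i, μ (ω i)) / 2 ^ (k / 4 * k) / 2 ^ (k / 4 * k) *
          (D (mv T fun i => A (ω i)) S T (mv S fun i => A (ω i)) (fun i => e (ω i)) -
            (∑ u, D u S T (mv S fun i => A (ω i)) (fun i => e (ω i))) / 2 ^ (k / 4))) =
      ∑ ω : Fin k → Ω, (∏ i, μ (ω i)) * W (fun i => A (ω i)) (fun i => e (ω i)) := by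
    refine Finset.sum_congr rfl fun ω _ => ?_
    rw [hW]
    simp only [Finset.mul_sum]
    refine Finset.sum_congr rfl fun S _ => Finset.sum_congr rfl fun T _ => ?_
    ring
  have e2 : (∑ ω : Fin k → Ω, (∏ i, μ (ω i)) * W (fun i => A (ω i)) (fun i => e (ω i))) =
      ∑ o : Fin k → E, ∑ a : Fin k → ZMod 2, p o a * W a o := by
    have h3 : ∀ ω : Fin k → Ω, (∏ i, μ (ω i)) * W (fun i => A (ω i)) (fun i => e (ω i)) =
        ∑ o : Fin k → E, ∑ a : Fin k → ZMod 2,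
          (if (fun i => e (ω i)) = o ∧ (fun i => A (ω i)) = a then
            (∏ i, μ (ω i)) else 0) * W a o := by
      intro ω
      rw [Finset.sum_eq_single (fun i => e (ω i)), Finset.sum_eq_single (fun i => A (ω i))]
      · rw [if_pos ⟨rfl, rfl⟩]
      · intro a _ ha
        rw [if_neg (fun h => ha h.2.symm), zero_mul]
      · intro h
        exact absurd (Finset.mem_univ _) h
      · intro o _ ho
        refine Finset.sum_eq_zero fun a _ => ?_
        rw [if_neg (fun h => ho h.1.symm), zero_mul]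
      · intro h
        exact absurd (Finset.mem_univ _) h
    simp only [h3]
    rw [Finset.sum_comm]
    refine Finset.sum_congr rfl fun o _ => ?_
    rw [Finset.sum_comm]
    refine Finset.sum_congr rfl fun a _ => ?_
    rw [hp, Finset.sum_mul]
  have hp0 : ∀ o a, 0 ≤ p o a := by
    intro o a
    refine Finset.sum_nonneg fun ω _ => ?_
    split_ifs
    · exact Finset.prod_nonneg fun i _ => h0 _
    · exact le_refl _
  have e3 : ∀ o, |∑ a : Fin k → ZMod 2, p o a * W a o| ≤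
      2 * Real.sqrt (2 ^ (k / 4 + k / 4) * ∑ a, p o a ^ 2) := by
    intro o
    have h4 := lhl_one (p o) (hp0 o) (fun u S T σ => D u S T σ o) (fun u S T σ => hD u S T σ o)
    refine le_trans (le_of_eq ?_) h4
    congr 1
    refine Finset.sum_congr rfl fun a _ => ?_
    rw [hW]
    simp only [Finset.mul_sum]
    refine Finset.sum_congr rfl fun S _ => Finset.sum_congr rfl fun T _ => ?_
    ring
  have e4 : |∑ o : Fin k → E, ∑ a : Fin k → ZMod 2, p o a * W a o| ≤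
      2 * Real.sqrt (2 ^ (k / 4 + k / 4)) * ∑ o, Real.sqrt (∑ a, p o a ^ 2) := by
    refine (Finset.abs_sum_le_sum_abs _ _).trans ?_
    rw [Finset.mul_sum]
    refine Finset.sum_le_sum fun o _ => (e3 o).trans (le_of_eq ?_)
    rw [Real.sqrt_mul (by positivity), mul_assoc]
  rw [e1, e2]
  refine e4.trans ((mul_le_mul_of_nonneg_left ?_ (by positivity)).trans (hk₀ k hk))
  exact coll_pw μ h0 h1 A e hE k

end

end Pool.Agent.SK
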