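import Pool.Agent.Lib_helper40.SK.P.B0

namespace Pool.Agent.SK

noncomputable section

open scoped Classical

theorem prod1_fubini {X Y κ : Type} [Fintype X] [Fintype Y] [Fintype κ] [DecidableEq κ]
    (h : κ → X → Y → ℝ) :
    ∏ i, ∑ x, ∑ y, h i x y = ∑ x : κ → X, ∑ y : κ → Y, ∏ i, h i (x i) (y i) := by
  rw [Finset.prod_univ_sum, Fintype.piFinset_univ]
  apply Finset.sum_congr rfl
  intro x _
  rw [Finset.prod_univ_sum, Fintype.piFinset_univ]

theorem Bt_pw {X Y κ : Type} [Fintype X] [Fintype Y] [Fintype κ] [DecidableEq κ]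
    (P : X → Y → ℝ) (f : κ → X → ℝ) (g : κ → Y → ℝ) :
    Bt (pw κ P) (fun x => ∏ i, f i (x i)) (fun y => ∏ i, g i (y i)) =
      ∏ i, Bt P (f i) (g i) := by
  unfold Bt pw
  rw [prod1_fubini (fun i x y => P x y * f i x * g i y)]
  apply Finset.sum_congr rfl
  intro x _
  apply Finset.sum_congr rfl
  intro y _
  rw [Finset.prod_mul_distrib, Finset.prod_mul_distrib]

theorem Bz_pw {X Y Z κ : Type} [Fintype X] [Fintype Y] [Fintype κ] [DecidableEq κ]
    (P : X → Y → ℝ) (zf : X → Y → Z) (f : κ → X → ℝ) (g : κ → Y → ℝ) (z : κ → Z) :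
    Bz (pw κ P) (zw κ zf) (fun x => ∏ i, f i (x i)) (fun y => ∏ i, g i (y i)) z =
      ∏ i, Bz P zf (f i) (g i) (z i) := by
  unfold Bz pw zw
  rw [prod1_fubini (fun i x y => if zf x y = z i then P x y * f i x * g i y else 0)]
  apply Finset.sum_congr rfl
  intro x _
  apply Finset.sum_congr rfl
  intro y _
  by_cases h : (fun i => zf (x i) (y i)) = z
  · rw [if_pos h]
    have h' : ∀ i, zf (x i) (y i) = z i := fun i => congrFun h i
    rw [← Finset.prod_mul_distrib, ← Finset.prod_mul_distrib]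
    apply Finset.prod_congr rfl
    intro i _
    rw [if_pos (h' i)]
  · rw [if_neg h]
    have h' : ∃ i, zf (x i) (y i) ≠ z i := by
      by_contra hc
      push Not at hc
      exact h (funext hc)
    obtain ⟨i, hi⟩ := h'
    symm
    apply Finset.prod_eq_zero (Finset.mem_univ i)
    rw [if_neg hi]

theorem IsP_pw {X Y κ : Type} [Fintype X] [Fintype Y] [Fintype κ] [DecidableEq κ]
    (P : X → Y → ℝ) (hP : IsP P) : IsP (pw κ P) := by
  refine ⟨fun x y => Finset.prod_nonneg fun i _ => hP.1 _ _, ?_⟩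
  unfold pw
  rw [← prod1_fubini (fun _ x y => P x y)]
  exact Finset.prod_eq_one fun i _ => hP.2

theorem sum_Bz {X Y Z : Type} [Fintype X] [Fintype Y] [Fintype Z] (P : X → Y → ℝ)
    (zf : X → Y → Z) (f : X → ℝ) (g : Y → ℝ) : ∑ z, Bz P zf f g z = Bt P f g := by
  unfold Bz Bt
  rw [Finset.sum_comm]
  apply Finset.sum_congr rfl
  intro x _
  rw [Finset.sum_comm]
  apply Finset.sum_congr rfl
  intro y _
  rw [Finset.sum_ite_eq]
  simp

end

end Pool.Agent.SK
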