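import Pool.Agent.Lib_helper40.SK.P.B0

namespace Pool.Agent.SK

noncomputable section

open scoped Classical

/-- words of 4-tuples -/
def prod2_equiv (X Y U V κ : Type) :
    (κ → X × Y × U × V) ≃ (κ → X) × (κ → Y) × (κ → U) × (κ → V) where
  toFun ω := (fun i => (ω i).1, fun i => (ω i).2.1, fun i => (ω i).2.2.1, fun i => (ω i).2.2.2)
  invFun p := fun i => (p.1 i, p.2.1 i, p.2.2.1 i, p.2.2.2 i)
  left_inv _ := rfl
  right_inv _ := rfl

theorem sum_words {X Y U V κ : Type} [Fintype X] [Fintype Y] [Fintype U] [Fintype V]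
    [Fintype κ] [DecidableEq κ] (F : (κ → X × Y × U × V) → ℝ) :
    ∑ ω : κ → X × Y × U × V, F ω =
      ∑ x : κ → X, ∑ y : κ → Y, ∑ u : κ → U, ∑ v : κ → V,
        F (fun i => (x i, y i, u i, v i)) := by
  rw [← (prod2_equiv X Y U V κ).symm.sum_comp, Fintype.sum_prod_type]
  apply Finset.sum_congr rfl
  intro x _
  rw [Fintype.sum_prod_type]
  apply Finset.sum_congr rfl
  intro y _
  rw [Fintype.sum_prod_type]
  rfl

theorem sum_mu {X Y U V : Type} [Fintype X] [Fintype Y] [Fintype U] [Fintype V]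
    (P : X → Y → ℝ) (hP : IsP P) (κA : X → U → ℝ) (κB : Y → V → ℝ) (hA : Kern κA)
    (hB : Kern κB) :
    (∀ ω, 0 ≤ mu P κA κB ω) ∧ ∑ ω : X × Y × U × V, mu P κA κB ω = 1 := by
  refine ⟨fun ω => mul_nonneg (mul_nonneg (hP.1 _ _) (hA.1 _ _)) (hB.1 _ _), ?_⟩
  rw [Fintype.sum_prod_type, ← hP.2]
  apply Finset.sum_congr rfl
  intro x _
  rw [Fintype.sum_prod_type]
  apply Finset.sum_congr rfl
  intro y _
  rw [Fintype.sum_prod_type]
  unfold mu
  simp only
  have h1 : ∀ u, ∑ v, P x y * κA x u * κB y v = P x y * κA x u := by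
    intro u
    rw [← Finset.mul_sum, hB.2 y, mul_one]
  rw [Finset.sum_congr rfl (fun u _ => h1 u), ← Finset.mul_sum, hA.2 x, mul_one]

end

end Pool.Agent.SK
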