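import Pool.Agent.Lib_helper40.SK.P.B0

namespace Pool.Agent.SK

noncomputable section

open scoped Classical

theorem SCH_total {A U : Type} [Fintype A] [DecidableEq A] [Fintype U] (κ : A → U → ℝ)
    (h : ∀ a, ∑ u, κ a u = 1) : ∑ r : A → U, ∏ a, κ a (r a) = 1 := by
  have h1 := Finset.prod_univ_sum (fun _ : A => (Finset.univ : Finset U)) κ
  rw [Fintype.piFinset_univ] at h1
  rw [← h1]
  simp [h]

theorem SCH_marg {A U : Type} [Fintype A] [DecidableEq A] [Fintype U] (κ : A → U → ℝ)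
    (h : ∀ a, ∑ u, κ a u = 1) (a : A) (F : U → ℝ) :
    ∑ r : A → U, (∏ a', κ a' (r a')) * F (r a) = ∑ u, κ a u * F u := by
  have h1 := Finset.prod_univ_sum (fun _ : A => (Finset.univ : Finset U))
    (fun a' u => κ a' u * (if a' = a then F u else 1))
  rw [Fintype.piFinset_univ] at h1
  have h2 : ∀ r : A → U, ∏ a', κ a' (r a') * (if a' = a then F (r a') else 1) =
      (∏ a', κ a' (r a')) * F (r a) := by
    intro r
    rw [Finset.prod_mul_distrib]
    congr 1
    rw [Finset.prod_ite_eq' Finset.univ a (fun a' => F (r a'))]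
    simp
  rw [← Finset.sum_congr rfl (fun r _ => h2 r), ← h1]
  rw [Finset.prod_eq_single a]
  · simp
  · intro b _ hb
    simp [hb, h]
  · intro ha
    exact absurd (Finset.mem_univ a) ha

theorem SCH_sum {A B U V : Type} [Fintype A] [Fintype B] [DecidableEq A] [DecidableEq B]
    [Fintype U] [Fintype V]
    (κA : A → U → ℝ) (κB : B → V → ℝ)
    (hA : ∀ a, ∑ u, κA a u = 1) (hB : ∀ a, ∑ u, κB a u = 1) (G : A → U → B → V → ℝ) :
    ∑ x : A, ∑ r : A → U, ∑ y : B, ∑ s : B → V,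
      (∏ a, κA a (r a)) * (∏ b, κB b (s b)) * G x (r x) y (s y) =
    ∑ x : A, ∑ y : B, ∑ u, ∑ v, κA x u * κB y v * G x u y v := by
  refine Finset.sum_congr rfl fun x _ => ?_
  have h1 : ∀ r : A → U, (∑ y : B, ∑ s : B → V,
      (∏ a, κA a (r a)) * (∏ b, κB b (s b)) * G x (r x) y (s y)) =
      (∏ a, κA a (r a)) * (fun u => ∑ y : B, ∑ v, κB y v * G x u y v) (r x) := by
    intro r
    simp only
    rw [Finset.mul_sum]
    refine Finset.sum_congr rfl fun y _ => ?_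
    rw [← SCH_marg κB hB y (fun v => G x (r x) y v), Finset.mul_sum]
    refine Finset.sum_congr rfl fun s _ => ?_
    ring
  rw [Finset.sum_congr rfl fun r _ => h1 r]
  rw [SCH_marg κA hA x (fun u => ∑ y : B, ∑ v, κB y v * G x u y v)]
  rw [Finset.sum_comm]
  refine Finset.sum_congr rfl fun u _ => ?_
  rw [Finset.mul_sum]
  refine Finset.sum_congr rfl fun y _ => ?_
  rw [Finset.mul_sum]
  refine Finset.sum_congr rfl fun v _ => ?_
  ring

section
variable {X Y : Type} [Fintype X] [Fintype Y] {N : ℕ}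
  {U V M0 M1 M2 K : Type} [Fintype U] [Fintype V] [Fintype M0] [Fintype M1]
  [Fintype M2] [Fintype K] [Nonempty K]

def SCH_msgA (φ0 : U → M0) (φ2 : U → M1 → M2) (x : Fin N → X) (r : (Fin N → X) → U) :
    List (M0 ⊕ (M1 ⊕ M2)) → M0 ⊕ (M1 ⊕ M2)
  | [_, Sum.inr (Sum.inl m1)] => Sum.inr (Sum.inr (φ2 (r x) m1))
  | _ => Sum.inl (φ0 (r x))

def SCH_keyA (kA : U → M1 → K) (x : Fin N → X) (r : (Fin N → X) → U) :
    List (M0 ⊕ (M1 ⊕ M2)) → K
  | [_, Sum.inr (Sum.inl m1), _] => kA (r x) m1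
  | _ => Classical.arbitrary K

def SCH_keyB (kB : V → M0 → M2 → K) (y : Fin N → Y) (s : (Fin N → Y) → V) :
    List (M0 ⊕ (M1 ⊕ M2)) → K
  | [Sum.inl m0, _, Sum.inr (Sum.inr m2)] => kB (s y) m0 m2
  | _ => Classical.arbitrary K

/-- the protocol of a scheme -/
abbrev SCH_prot (κA : (Fin N → X) → U → ℝ) (κB : (Fin N → Y) → V → ℝ) (hA : Kern κA)
    (hB : Kern κB)
    (φ0 : U → M0) (φ1 : V → M1) (φ2 : U → M1 → M2) (kA : U → M1 → K) (kB : V → M0 → M2 → K) :
    Protocol X Y N K where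
  RA := (Fin N → X) → U
  RB := (Fin N → Y) → V
  M := M0 ⊕ (M1 ⊕ M2)
  μA r := ∏ x, κA x (r x)
  μB s := ∏ y, κB y (s y)
  μA_nonneg _ := Finset.prod_nonneg fun x _ => hA.1 x _
  μA_sum := SCH_total κA hA.2
  μB_nonneg _ := Finset.prod_nonneg fun x _ => hB.1 x _
  μB_sum := SCH_total κB hB.2
  rounds := 3
  msgA := SCH_msgA φ0 φ2
  msgB y s _ := Sum.inr (Sum.inl (φ1 (s y)))
  keyA := SCH_keyA kA
  keyB := SCH_keyB kB

end

theorem scheme_protocol {X Y Z : Type} [Fintype X] [Fintype Y] {N : ℕ}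
    (P : X → Y → ℝ) (zf : X → Y → Z) (ε : ℝ)
    {U V M0 M1 M2 K : Type} [Fintype U] [Fintype V] [Fintype M0] [Fintype M1]
    [Fintype M2] [Fintype K] [Nonempty K]
    (κA : (Fin N → X) → U → ℝ) (κB : (Fin N → Y) → V → ℝ) (hA : Kern κA) (hB : Kern κB)
    (φ0 : U → M0) (φ1 : V → M1) (φ2 : U → M1 → M2) (kA : U → M1 → K) (kB : V → M0 → M2 → K)
    (herr : (∑ x : Fin N → X, ∑ y : Fin N → Y, ∑ u, ∑ v,
      if kA u (φ1 v) ≠ kB v (φ0 u) (φ2 u (φ1 v)) then
        (∏ i, P (x i) (y i)) * κA x u * κB y v else 0) ≤ ε)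
    (hsec : ∀ D : K → M0 → M1 → M2 → (Fin N → Z) → ℝ,
      (∀ k m0 m1 m2 z, 0 ≤ D k m0 m1 m2 z ∧ D k m0 m1 m2 z ≤ 1) →
      |∑ x : Fin N → X, ∑ y : Fin N → Y, ∑ u, ∑ v, (∏ i, P (x i) (y i)) * κA x u * κB y v *
        (D (kA u (φ1 v)) (φ0 u) (φ1 v) (φ2 u (φ1 v)) (fun i => zf (x i) (y i)) -
          (∑ k, D k (φ0 u) (φ1 v) (φ2 u (φ1 v)) (fun i => zf (x i) (y i))) /
            Fintype.card K)| ≤ ε) :
    ∃ π : Protocol X Y N K, π.err P ≤ ε ∧ π.Secret P zf ε := by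
  have htr : ∀ (x : Fin N → X) (r : (Fin N → X) → U) (y : Fin N → Y) (s : (Fin N → Y) → V),
      (SCH_prot κA κB hA hB φ0 φ1 φ2 kA kB).transcript x r y s =
        [Sum.inl (φ0 (r x)), Sum.inr (Sum.inl (φ1 (s y))),
          Sum.inr (Sum.inr (φ2 (r x) (φ1 (s y))))] := by
    intro x r y s
    simp [Protocol.transcript, Protocol.tr, SCH_prot, SCH_msgA]
  have hkA : ∀ (x : Fin N → X) (r : (Fin N → X) → U) (y : Fin N → Y) (s : (Fin N → Y) → V),
      (SCH_prot κA κB hA hB φ0 φ1 φ2 kA kB).kA x r y s = kA (r x) (φ1 (s y)) := by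
    intro x r y s
    unfold Protocol.kA
    rw [htr]
    rfl
  have hkB : ∀ (x : Fin N → X) (r : (Fin N → X) → U) (y : Fin N → Y) (s : (Fin N → Y) → V),
      (SCH_prot κA κB hA hB φ0 φ1 φ2 kA kB).kB x r y s =
        kB (s y) (φ0 (r x)) (φ2 (r x) (φ1 (s y))) := by
    intro x r y s
    unfold Protocol.kB
    rw [htr]
    rfl
  refine ⟨SCH_prot κA κB hA hB φ0 φ1 φ2 kA kB, ?_, ?_⟩
  · refine le_trans (le_of_eq ?_) herr
    have h1 := SCH_sum κA κB hA.2 hB.2 (fun x u y v =>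
      if kA u (φ1 v) ≠ kB v (φ0 u) (φ2 u (φ1 v)) then (∏ i, P (x i) (y i)) else 0)
    refine Eq.trans ?_ (h1.trans ?_)
    · unfold Protocol.err
      refine Finset.sum_congr rfl fun x _ => ?_
      refine Finset.sum_congr rfl fun r _ => ?_
      refine Finset.sum_congr rfl fun y _ => ?_
      refine Finset.sum_congr rfl fun s _ => ?_
      rw [hkA, hkB]
      by_cases h : kA (r x) (φ1 (s y)) = kB (s y) (φ0 (r x)) (φ2 (r x) (φ1 (s y)))
      · rw [if_neg (not_not.mpr h), if_neg (not_not.mpr h), mul_zero]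
      · rw [if_pos h, if_pos h]
        change (∏ i, P (x i) (y i)) * (∏ a, κA a (r a)) * (∏ b, κB b (s b)) = _
        ring
    · refine Finset.sum_congr rfl fun x _ => ?_
      refine Finset.sum_congr rfl fun y _ => ?_
      refine Finset.sum_congr rfl fun u _ => ?_
      refine Finset.sum_congr rfl fun v _ => ?_
      by_cases h : kA u (φ1 v) = kB v (φ0 u) (φ2 u (φ1 v))
      · rw [if_neg (not_not.mpr h), if_neg (not_not.mpr h), mul_zero]
      · rw [if_pos h, if_pos h]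
        ring
  · intro D hD
    refine le_trans (le_of_eq ?_) (hsec (fun k m0 m1 m2 z =>
      D k [Sum.inl m0, Sum.inr (Sum.inl m1), Sum.inr (Sum.inr m2)] z)
      (fun k m0 m1 m2 z => hD k _ z))
    congr 1
    have h1 := SCH_sum κA κB hA.2 hB.2 (fun x u y v =>
      (∏ i, P (x i) (y i)) *
        (D (kA u (φ1 v)) [Sum.inl (φ0 u), Sum.inr (Sum.inl (φ1 v)),
            Sum.inr (Sum.inr (φ2 u (φ1 v)))] (fun i => zf (x i) (y i)) -
          (∑ k, D k [Sum.inl (φ0 u), Sum.inr (Sum.inl (φ1 v)),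
            Sum.inr (Sum.inr (φ2 u (φ1 v)))] (fun i => zf (x i) (y i))) /
            Fintype.card K))
    refine Eq.trans ?_ (h1.trans ?_)
    · refine Finset.sum_congr rfl fun x _ => ?_
      refine Finset.sum_congr rfl fun r _ => ?_
      refine Finset.sum_congr rfl fun y _ => ?_
      refine Finset.sum_congr rfl fun s _ => ?_
      rw [hkA, htr]
      change (∏ i, P (x i) (y i)) * (∏ a, κA a (r a)) * (∏ b, κB b (s b)) * _ = _
      simp only
      ring
    · refine Finset.sum_congr rfl fun x _ => ?_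
      refine Finset.sum_congr rfl fun y _ => ?_
      refine Finset.sum_congr rfl fun u _ => ?_
      refine Finset.sum_congr rfl fun v _ => ?_
      ring

end

end Pool.Agent.SK
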