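import Pool.Agent.Lib_helper40.SK.P.PROD1
import Pool.Agent.Lib_helper40.SK.P.PROD2

namespace Pool.Agent.SK

noncomputable section

open scoped Classical

theorem transfer {X Y U V S T : Type} [Fintype X] [Fintype Y] [Fintype U] [Fintype V]
    [Fintype S] [Fintype T] (P : X → Y → ℝ) {m k l N : ℕ}
    (eX : (Fin N → X) ≃ (Fin k → Fin m → X) × (Fin l → X))
    (eY : (Fin N → Y) ≃ (Fin k → Fin m → Y) × (Fin l → Y))
    (hP : ∀ x y, (∏ i, P (x i) (y i)) =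
      (∏ i, pw (Fin m) P ((eX x).1 i) ((eY y).1 i)) * pw (Fin l) P (eX x).2 (eY y).2)
    (κA : (Fin m → X) → U → ℝ) (κB : (Fin m → Y) → V → ℝ) (c : ℝ)
    (F : (Fin k → (Fin m → X) × (Fin m → Y) × U × V) → S → T → (Fin l → X) → (Fin l → Y) → ℝ) :
    (∑ x : Fin N → X, ∑ y : Fin N → Y, ∑ u : (Fin k → U) × S × T, ∑ v : Fin k → V,
      (∏ i, P (x i) (y i)) * ((∏ i, κA ((eX x).1 i) (u.1 i)) * c) *
        (∏ i, κB ((eY y).1 i) (v i)) *
        F (fun i => ((eX x).1 i, (eY y).1 i, u.1 i, v i)) u.2.1 u.2.2 (eX x).2 (eY y).2) =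
    ∑ xl : Fin l → X, ∑ yl : Fin l → Y, pw (Fin l) P xl yl *
      ∑ ω : Fin k → (Fin m → X) × (Fin m → Y) × U × V, ∑ S', ∑ T',
        (∏ i, mu (pw (Fin m) P) κA κB (ω i)) * c * F ω S' T' xl yl := by
  set h : (Fin k → Fin m → X) → (Fin l → X) → (Fin k → Fin m → Y) → (Fin l → Y) → (Fin k → U) →
      S → T → (Fin k → V) → ℝ := fun xk xl yk yl u S' T' v =>
        pw (Fin l) P xl yl * ((∏ i, mu (pw (Fin m) P) κA κB (xk i, yk i, u i, v i)) * c *
          F (fun i => (xk i, yk i, u i, v i)) S' T' xl yl) with hh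
  have h1 : (∑ x : Fin N → X, ∑ y : Fin N → Y, ∑ u : (Fin k → U) × S × T, ∑ v : Fin k → V,
      (∏ i, P (x i) (y i)) * ((∏ i, κA ((eX x).1 i) (u.1 i)) * c) *
        (∏ i, κB ((eY y).1 i) (v i)) *
        F (fun i => ((eX x).1 i, (eY y).1 i, u.1 i, v i)) u.2.1 u.2.2 (eX x).2 (eY y).2) =
      ∑ x : Fin N → X, ∑ y : Fin N → Y, ∑ u : (Fin k → U) × S × T, ∑ v : Fin k → V,
        h (eX x).1 (eX x).2 (eY y).1 (eY y).2 u.1 u.2.1 u.2.2 v := by
    refine Finset.sum_congr rfl fun x _ => Finset.sum_congr rfl fun y _ =>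
      Finset.sum_congr rfl fun u _ => Finset.sum_congr rfl fun v _ => ?_
    rw [hP, hh]
    simp only [mu]
    rw [Finset.prod_mul_distrib, Finset.prod_mul_distrib]
    ring
  have h2 : (∑ x : Fin N → X, ∑ y : Fin N → Y, ∑ u : (Fin k → U) × S × T, ∑ v : Fin k → V,
        h (eX x).1 (eX x).2 (eY y).1 (eY y).2 u.1 u.2.1 u.2.2 v) =
      ∑ p : (Fin k → Fin m → X) × (Fin l → X), ∑ q : (Fin k → Fin m → Y) × (Fin l → Y),
        ∑ u : (Fin k → U) × S × T, ∑ v : Fin k → V,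
        h p.1 p.2 q.1 q.2 u.1 u.2.1 u.2.2 v := by
    rw [← Equiv.sum_comp eX]
    refine Finset.sum_congr rfl fun x _ => ?_
    rw [← Equiv.sum_comp eY]
  have h3 : (∑ p : (Fin k → Fin m → X) × (Fin l → X), ∑ q : (Fin k → Fin m → Y) × (Fin l → Y),
        ∑ u : (Fin k → U) × S × T, ∑ v : Fin k → V,
        h p.1 p.2 q.1 q.2 u.1 u.2.1 u.2.2 v) =
      ∑ xl, ∑ yl, ∑ xk, ∑ yk, ∑ u, ∑ v, ∑ S', ∑ T', h xk xl yk yl u S' T' v := by
    simp only [Fintype.sum_prod_type]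
    rw [Finset.sum_comm]
    refine Finset.sum_congr rfl fun xl _ => ?_
    have : ∀ xk, (∑ yk, ∑ yl, ∑ u, ∑ S', ∑ T', ∑ v, h xk xl yk yl u S' T' v) =
        ∑ yl, ∑ yk, ∑ u, ∑ S', ∑ T', ∑ v, h xk xl yk yl u S' T' v := fun xk => Finset.sum_comm
    simp only [this]
    rw [Finset.sum_comm]
    refine Finset.sum_congr rfl fun yl _ => Finset.sum_congr rfl fun xk _ =>
      Finset.sum_congr rfl fun yk _ => Finset.sum_congr rfl fun u _ => ?_
    have h4 : ∀ S', (∑ T', ∑ v, h xk xl yk yl u S' T' v) = ∑ v, ∑ T', h xk xl yk yl u S' T' v :=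
      fun S' => Finset.sum_comm
    simp only [h4]
    exact Finset.sum_comm
  rw [h1, h2, h3]
  refine Finset.sum_congr rfl fun xl _ => Finset.sum_congr rfl fun yl _ => ?_
  rw [sum_words]
  simp only [Finset.mul_sum]
  rfl

end

end Pool.Agent.SK
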