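import Pool.Agent.Lib_helper40.SK.P.REG
import Pool.Agent.Lib_helper40.SK.P.PROD1
import Pool.Agent.Lib_helper40.SK.P.PROD2
import Pool.Agent.Lib_helper40.SK.P.TRA
import Pool.Agent.Lib_helper40.SK.P.SCH
import Pool.Agent.Lib_helper40.SK.P.DEC2
import Pool.Agent.Lib_helper40.SK.P.LHL3

namespace Pool.Agent.SK

noncomputable section

open scoped Classical

theorem ASM_total {A U : Type} [Fintype A] [DecidableEq A] [Fintype U] (κ : A → U → ℝ)
    (h : ∀ a, ∑ u, κ a u = 1) : ∑ r : A → U, ∏ a, κ a (r a) = 1 := by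
  have h1 := Finset.prod_univ_sum (fun _ : A => (Finset.univ : Finset U)) κ
  rw [Fintype.piFinset_univ] at h1
  rw [← h1]
  simp [h]

theorem ASM_card (s k : ℕ) : (Fintype.card (Fin s → Fin k → ZMod 2) : ℝ) = 2 ^ (s * k) := by
  rw [Fintype.card_fun, Fintype.card_fun, ZMod.card, Fintype.card_fin, Fintype.card_fin]
  push_cast
  rw [← pow_mul, mul_comm]

theorem ASM_card1 (s : ℕ) : (Fintype.card (Fin s → ZMod 2) : ℝ) = 2 ^ s := by
  rw [Fintype.card_fun, ZMod.card, Fintype.card_fin]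
  push_cast
  rfl

/-- Alice's kernel: independent copies, and two uniform matrices -/
theorem ASM_kernA {X' U : Type} [Fintype U] (κA : X' → U → ℝ) (hA : Kern κA)
    {A : Type} (k : ℕ) (e : A → Fin k → X') (s r : ℕ) :
    Kern (fun (x : A) (u : (Fin k → U) × (Fin s → Fin k → ZMod 2) × (Fin r → Fin k → ZMod 2)) =>
      (∏ i, κA (e x i) (u.1 i)) * (1 / 2 ^ (s * k) / 2 ^ (r * k))) := by
  refine ⟨fun x u => ?_, fun x => ?_⟩
  · refine mul_nonneg (Finset.prod_nonneg fun _ _ => hA.1 _ _) ?_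
    positivity
  · rw [Fintype.sum_prod_type]
    simp only [Finset.sum_const, Finset.card_univ, nsmul_eq_mul]
    rw [← Finset.mul_sum, ← Finset.sum_mul, ASM_total (fun i u => κA (e x i) u)
      (fun i => hA.2 _), Fintype.card_prod]
    push_cast
    rw [ASM_card, ASM_card]
    field_simp

theorem ASM_kernB {X' U : Type} [Fintype U] (κA : X' → U → ℝ) (hA : Kern κA)
    {A : Type} (k : ℕ) (e : A → Fin k → X') :
    Kern (fun (x : A) (u : Fin k → U) => ∏ i, κA (e x i) (u i)) :=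
  ⟨fun _ _ => Finset.prod_nonneg fun _ _ => hA.1 _ _,
    fun x => ASM_total (fun i u => κA (e x i) u) (fun _ => hA.2 _)⟩

/-- averages over the leftover symbols -/
theorem ASM_avg {A B : Type} [Fintype A] [Fintype B] (w : A → B → ℝ) (hw : IsP w)
    (I : A → B → ℝ) (ε : ℝ) (hI : ∀ a b, |I a b| ≤ ε) :
    |∑ a, ∑ b, w a b * I a b| ≤ ε := by
  calc |∑ a, ∑ b, w a b * I a b| ≤ ∑ a, |∑ b, w a b * I a b| := Finset.abs_sum_le_sum_abs _ _
    _ ≤ ∑ a, ∑ b, |w a b * I a b| :=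
        Finset.sum_le_sum fun a _ => Finset.abs_sum_le_sum_abs _ _
    _ ≤ ∑ a, ∑ b, w a b * ε := by
        refine Finset.sum_le_sum fun a _ => Finset.sum_le_sum fun b _ => ?_
        rw [abs_mul, abs_of_nonneg (hw.1 a b)]
        exact mul_le_mul_of_nonneg_left (hI a b) (hw.1 a b)
    _ = (∑ a, ∑ b, w a b) * ε := by
        rw [Finset.sum_mul]
        exact Finset.sum_congr rfl fun a _ => (Finset.sum_mul _ _ _).symm
    _ = ε := by rw [hw.2, one_mul]

theorem ASM_step {X Y Z : Type} [Fintype X] [Fintype Y] [Fintype Z]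
    (P : X → Y → ℝ) (hP : IsP P) (zf : X → Y → Z) (m : ℕ)
    {U V FA FB : Type} [Fintype U] [Fintype V] [Fintype FA] [Fintype FB]
    (κA : (Fin m → X) → U → ℝ) (κB : (Fin m → Y) → V → ℝ) (flA : U → FA) (flB : V → FB)
    (bA : U → FB → ZMod 2) (bB : V → FA → ZMod 2) (hA : Kern κA) (hB : Kern κB)
    (ε : ℝ) (k N : ℕ) (hkN : k * m ≤ N)
    (dec : (Fin k → ZMod 2) → (Fin (k / 4) → Fin k → ZMod 2) → (Fin (k / 4) → ZMod 2) →
        (Fin k → ZMod 2))
    (hdec : (∑ ω : Fin k → (Fin m → X) × (Fin m → Y) × U × V,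
      ∑ S : Fin (k / 4) → Fin k → ZMod 2,
        if dec (fun i => bB (ω i).2.2.2 (flA (ω i).2.2.1)) S
            (mv S (fun i => bA (ω i).2.2.1 (flB (ω i).2.2.2))) ≠
              (fun i => bA (ω i).2.2.1 (flB (ω i).2.2.2)) then
          (∏ i, mu (pw (Fin m) P) κA κB (ω i)) / 2 ^ (k / 4 * k) else 0) ≤ ε)
    (hlhl : ∀ D : (Fin (k / 4) → ZMod 2) → (Fin (k / 4) → Fin k → ZMod 2) →
        (Fin (k / 4) → Fin k → ZMod 2) → (Fin (k / 4) → ZMod 2) →
        (Fin k → (Fin m → Z) × FA × FB) → ℝ,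
      (∀ u S T σ o, 0 ≤ D u S T σ o ∧ D u S T σ o ≤ 1) →
      |∑ ω : Fin k → (Fin m → X) × (Fin m → Y) × U × V, ∑ S : Fin (k / 4) → Fin k → ZMod 2,
        ∑ T : Fin (k / 4) → Fin k → ZMod 2,
        (∏ i, mu (pw (Fin m) P) κA κB (ω i)) / 2 ^ (k / 4 * k) / 2 ^ (k / 4 * k) *
          (D (mv T fun i => bA (ω i).2.2.1 (flB (ω i).2.2.2)) S T
              (mv S fun i => bA (ω i).2.2.1 (flB (ω i).2.2.2))
              (fun i => (zw (Fin m) zf (ω i).1 (ω i).2.1, flA (ω i).2.2.1, flB (ω i).2.2.2)) -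
            (∑ u, D u S T (mv S fun i => bA (ω i).2.2.1 (flB (ω i).2.2.2))
              (fun i => (zw (Fin m) zf (ω i).1 (ω i).2.1, flA (ω i).2.2.1,
                flB (ω i).2.2.2))) / 2 ^ (k / 4))| ≤ ε) :
    ∃ (π : Protocol X Y N (Fin (k / 4) → ZMod 2)), π.err P ≤ ε ∧ π.Secret P zf ε := by
  obtain ⟨l, eX, eY, hPe, hZ⟩ := regroup P (m := m) (k := k) (N := N) hkN
  obtain ⟨eZ, heZ⟩ := hZ zf
  have hμ0 : ∀ ω : Fin k → (Fin m → X) × (Fin m → Y) × U × V,
      0 ≤ ∏ i, mu (pw (Fin m) P) κA κB (ω i) := by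
    intro ω
    refine Finset.prod_nonneg fun i _ => ?_
    exact (sum_mu (pw (Fin m) P) (IsP_pw P hP) κA κB hA hB).1 _
  have hPl : IsP (pw (Fin l) P) := IsP_pw P hP
  refine scheme_protocol P zf ε
    (U := (Fin k → U) × (Fin (k / 4) → Fin k → ZMod 2) × (Fin (k / 4) → Fin k → ZMod 2))
    (V := Fin k → V) (M0 := Fin k → FA) (M1 := Fin k → FB)
    (M2 := (Fin (k / 4) → Fin k → ZMod 2) × (Fin (k / 4) → Fin k → ZMod 2) ×
      (Fin (k / 4) → ZMod 2))
    (fun x u => (∏ i, κA ((eX x).1 i) (u.1 i)) * (1 / 2 ^ (k / 4 * k) / 2 ^ (k / 4 * k)))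
    (fun y v => ∏ i, κB ((eY y).1 i) (v i))
    (ASM_kernA κA hA k (fun x => (eX x).1) (k / 4) (k / 4))
    (ASM_kernB κB hB k (fun y => (eY y).1))
    (fun u i => flA (u.1 i)) (fun v i => flB (v i))
    (fun u m1 => (u.2.1, u.2.2, mv u.2.1 (fun i => bA (u.1 i) (m1 i))))
    (fun u m1 => mv u.2.2 (fun i => bA (u.1 i) (m1 i)))
    (fun v m0 m2 => mv m2.2.1 (dec (fun i => bB (v i) (m0 i)) m2.1 m2.2.2)) ?_ ?_
  · -- error
    have ht := transfer P eX eY hPe κA κB (1 / 2 ^ (k / 4 * k) / 2 ^ (k / 4 * k))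
      (fun ω (S T : Fin (k / 4) → Fin k → ZMod 2) _ _ =>
        if mv T (fun i => bA (ω i).2.2.1 (flB (ω i).2.2.2)) ≠
          mv T (dec (fun i => bB (ω i).2.2.2 (flA (ω i).2.2.1)) S
            (mv S (fun i => bA (ω i).2.2.1 (flB (ω i).2.2.2)))) then (1 : ℝ) else 0)
    refine le_trans (le_of_eq ?_) (le_trans (le_of_eq ht) ?_)
    · refine Finset.sum_congr rfl fun x _ => ?_
      refine Finset.sum_congr rfl fun y _ => ?_
      refine Finset.sum_congr rfl fun u _ => ?_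
      refine Finset.sum_congr rfl fun v _ => ?_
      by_cases hq : (mv u.2.2 fun i => bA (u.1 i) (flB (v i))) =
        mv u.2.2 (dec (fun i => bB (v i) (flA (u.1 i))) u.2.1
          (mv u.2.1 fun i => bA (u.1 i) (flB (v i))))
      · exact (if_neg (not_not.mpr hq)).trans
          ((congrArg _ (if_neg (not_not.mpr hq))).trans (mul_zero _)).symm
      · exact (if_pos hq).trans ((congrArg _ (if_pos hq)).trans (mul_one _)).symm
    · refine le_trans (le_abs_self _) (ASM_avg _ hPl _ ε fun xl yl => ?_)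
      rw [abs_of_nonneg]
      · refine le_trans ?_ hdec
        refine Finset.sum_le_sum fun ω _ => ?_
        refine Finset.sum_le_sum fun S _ => ?_
        have hc : (0 : ℝ) < 2 ^ (k / 4 * k) := by positivity
        by_cases hd : dec (fun i => bB (ω i).2.2.2 (flA (ω i).2.2.1)) S
            (mv S (fun i => bA (ω i).2.2.1 (flB (ω i).2.2.2))) =
              (fun i => bA (ω i).2.2.1 (flB (ω i).2.2.2))
        · rw [if_neg (not_not.mpr hd)]
          refine le_of_eq (Finset.sum_eq_zero fun T _ => ?_)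
          rw [hd, if_neg (not_not.mpr rfl), mul_zero]
        · rw [if_pos hd]
          calc _ ≤ ∑ T : Fin (k / 4) → Fin k → ZMod 2,
                (∏ i, mu (pw (Fin m) P) κA κB (ω i)) *
                  (1 / 2 ^ (k / 4 * k) / 2 ^ (k / 4 * k)) := by
                refine Finset.sum_le_sum fun T _ => ?_
                have hq : 0 ≤ (∏ i, mu (pw (Fin m) P) κA κB (ω i)) *
                  (1 / 2 ^ (k / 4 * k) / 2 ^ (k / 4 * k)) :=
                  mul_nonneg (hμ0 ω) (by positivity)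
                split_ifs <;> linarith
            _ = _ := by
                rw [Finset.sum_const, Finset.card_univ, nsmul_eq_mul, ASM_card]
                field_simp
      · refine Finset.sum_nonneg fun ω _ => Finset.sum_nonneg fun S _ =>
          Finset.sum_nonneg fun T _ => ?_
        refine mul_nonneg (mul_nonneg (hμ0 ω) (by positivity)) ?_
        split_ifs <;> norm_num
  · -- secrecy
    intro D hD
    have ht := transfer P eX eY hPe κA κB (1 / 2 ^ (k / 4 * k) / 2 ^ (k / 4 * k))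
      (fun ω (S T : Fin (k / 4) → Fin k → ZMod 2) xl yl =>
        D (mv T (fun i => bA (ω i).2.2.1 (flB (ω i).2.2.2)))
            (fun i => flA (ω i).2.2.1) (fun i => flB (ω i).2.2.2)
            (S, T, mv S (fun i => bA (ω i).2.2.1 (flB (ω i).2.2.2)))
            (eZ.symm (fun i => zw (Fin m) zf (ω i).1 (ω i).2.1, zw (Fin l) zf xl yl)) -
          (∑ q, D q (fun i => flA (ω i).2.2.1) (fun i => flB (ω i).2.2.2)
            (S, T, mv S (fun i => bA (ω i).2.2.1 (flB (ω i).2.2.2)))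
            (eZ.symm (fun i => zw (Fin m) zf (ω i).1 (ω i).2.1, zw (Fin l) zf xl yl))) /
            Fintype.card (Fin (k / 4) → ZMod 2))
    refine le_trans (le_of_eq ?_) (le_trans (le_of_eq (congrArg abs ht)) ?_)
    · congr 1
      refine Finset.sum_congr rfl fun x _ => ?_
      refine Finset.sum_congr rfl fun y _ => ?_
      refine Finset.sum_congr rfl fun u _ => ?_
      refine Finset.sum_congr rfl fun v _ => ?_
      rw [← heZ x y, Equiv.symm_apply_apply]
    · refine ASM_avg _ hPl _ ε fun xl yl => ?_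
      refine le_trans (le_of_eq ?_) (hlhl (fun u S T σ o =>
        D u (fun i => (o i).2.1) (fun i => (o i).2.2) (S, T, σ)
          (eZ.symm (fun i => (o i).1, zw (Fin l) zf xl yl))) (fun u S T σ o => hD _ _ _ _ _))
      congr 1
      refine Finset.sum_congr rfl fun ω _ => ?_
      refine Finset.sum_congr rfl fun S _ => ?_
      refine Finset.sum_congr rfl fun T _ => ?_
      rw [ASM_card1]
      ring

theorem ASM_size (m N : ℕ) (hN : 10 * (m + 1) ≤ N) :
    (2 : ℝ) ^ (1 / (8 * ((m : ℝ) + 1)) * N) ≤ 2 ^ (N / (m + 1) / 4) := by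
  rw [← Real.rpow_natCast 2 (N / (m + 1) / 4)]
  refine Real.rpow_le_rpow_of_exponent_le (by norm_num) ?_
  set k := N / (m + 1) with hk
  have h1 : N < (k + 1) * (m + 1) := by
    rw [hk, mul_comm]
    exact Nat.lt_mul_div_succ N (Nat.succ_pos m)
  have h2 : k < 4 * (k / 4) + 4 := by omega
  have h3 : (N : ℝ) < ((k : ℝ) + 1) * ((m : ℝ) + 1) := by exact_mod_cast h1
  have h4 : (k : ℝ) < 4 * ((k / 4 : ℕ) : ℝ) + 4 := by exact_mod_cast h2
  have h5 : 10 * ((m : ℝ) + 1) ≤ N := by exact_mod_cast hN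
  have hm : (0 : ℝ) < (m : ℝ) + 1 := by positivity
  rw [one_div, inv_mul_le_iff₀ (by positivity)]
  have h2' : k + 1 ≤ 4 * (k / 4) + 4 := by omega
  have h4' : (k : ℝ) + 1 ≤ 4 * ((k / 4 : ℕ) : ℝ) + 4 := by exact_mod_cast h2'
  have h6 : (N : ℝ) < (4 * ((k / 4 : ℕ) : ℝ) + 4) * ((m : ℝ) + 1) :=
    lt_of_lt_of_le h3 (mul_le_mul_of_nonneg_right h4' hm.le)
  nlinarith

theorem achievable_of_NP2 {X Y Z : Type} [Fintype X] [Fintype Y] [Fintype Z]
    (P : X → Y → ℝ) (hP : IsP P) (zf : X → Y → Z) (m : ℕ)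
    (h : NP2 (pw (Fin m) P) (zw (Fin m) zf) (1 / 1000) (1 / 1000)) :
    ∃ R : ℝ, 0 < R ∧ Achievable P zf R := by
  obtain ⟨U, V, FA, FB, iU, iV, iFA, iFB, κA, κB, flA, flB, bA, bB, hA, hB, herr, hbias⟩ := h
  refine ⟨1 / (8 * ((m : ℝ) + 1)), by positivity, ?_⟩
  intro ε hε
  have hPm : IsP (pw (Fin m) P) := IsP_pw P hP
  obtain ⟨hμ0, hμ1⟩ := sum_mu (pw (Fin m) P) hPm κA κB hA hB
  obtain ⟨k1, hk1⟩ := code_dec (mu (pw (Fin m) P) κA κB) hμ0 hμ1
     (fun ω => bA ω.2.2.1 (flB ω.2.2.2)) (fun ω => bB ω.2.2.2 (flA ω.2.2.1)) herr ε hε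
  obtain ⟨k2, hk2⟩ := code_lhl (mu (pw (Fin m) P) κA κB) hμ0 hμ1
     (fun ω => bA ω.2.2.1 (flB ω.2.2.2))
     (fun ω => (zw (Fin m) zf ω.1 ω.2.1, flA ω.2.2.1, flB ω.2.2.2)) (by convert hbias) ε hε
  refine ⟨max (10 * (m + 1)) (max k1 k2 * (m + 1)), fun N hN => ?_⟩
  have hN1 : 10 * (m + 1) ≤ N := le_trans (le_max_left _ _) hN
  have hN2 : max k1 k2 * (m + 1) ≤ N := le_trans (le_max_right _ _) hN
  have hk : max k1 k2 ≤ N / (m + 1) := (Nat.le_div_iff_mul_le (Nat.succ_pos m)).mpr hN2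
  obtain ⟨dec, hdec⟩ := hk1 (N / (m + 1)) (le_trans (le_max_left _ _) hk)
  have hlhl := hk2 (N / (m + 1)) (le_trans (le_max_right _ _) hk)
  have hkN : N / (m + 1) * m ≤ N :=
    le_trans (Nat.mul_le_mul_left _ (Nat.le_succ m)) (Nat.div_mul_le_self N (m + 1))
  obtain ⟨π, h1, h2⟩ := ASM_step P hP zf m κA κB flA flB bA bB hA hB ε (N / (m + 1)) N hkN
    dec hdec hlhl
  refine ⟨Fin (N / (m + 1) / 4) → ZMod 2, inferInstance, π, ?_, h1, h2⟩
  rw [ASM_card1]
  exact ASM_size m N hN1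

end

end Pool.Agent.SK
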