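import Pool.Agent.Lib_helper40.SK.Defs

namespace Pool.Agent.SK

noncomputable section

open scoped Classical

/-- number of occurrences of `a` in the word `z` -/
def typ {Z : Type} {n : ℕ} (z : Fin n → Z) : Z → ℕ :=
  fun a => (Finset.univ.filter fun i => z i = a).card

/-- matrix times vector -/
def mv {s k : ℕ} (S : Fin s → Fin k → ZMod 2) (a : Fin k → ZMod 2) : Fin s → ZMod 2 :=
  fun i => ∑ j, S i j * a j

/-- number of positions in which two words differ -/
def dH {k : ℕ} (a b : Fin k → ZMod 2) : ℕ := (Finset.univ.filter fun j => a j ≠ b j).card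

end

end Pool.Agent.SK
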