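import Pool.Agent.Lib_helper40.SK.P.PROD1
/-! SK block ERAS -/

namespace Pool.Agent.SK

noncomputable section

open scoped Classical

theorem eras_Bz_nonneg {X Y Z : Type} [Fintype X] [Fintype Y] (P : X → Y → ℝ)
    (hP : ∀ x y, 0 ≤ P x y) (zf : X → Y → Z) {f : X → ℝ} {g : Y → ℝ} (hf : ∀ x, 0 ≤ f x)
    (hg : ∀ y, 0 ≤ g y) (z : Z) : 0 ≤ Bz P zf f g z := by
  unfold Bz
  refine Finset.sum_nonneg fun x _ => Finset.sum_nonneg fun y _ => ?_
  split_ifs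
  · exact mul_nonneg (mul_nonneg (hP x y) (hf x)) (hg y)
  · exact le_rfl

theorem eras_Bt_nonneg {X Y : Type} [Fintype X] [Fintype Y] (P : X → Y → ℝ)
    (hP : ∀ x y, 0 ≤ P x y) {f : X → ℝ} {g : Y → ℝ} (hf : ∀ x, 0 ≤ f x)
    (hg : ∀ y, 0 ≤ g y) : 0 ≤ Bt P f g := by
  unfold Bt
  exact Finset.sum_nonneg fun x _ => Finset.sum_nonneg fun y _ =>
    mul_nonneg (mul_nonneg (hP x y) (hf x)) (hg y)

/-- Cauchy-Schwarz for square roots -/
theorem eras_cs {ι : Type} (s : Finset ι) (a b : ι → ℝ) (ha : ∀ i, 0 ≤ a i) (hb : ∀ i, 0 ≤ b i) :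
    ∑ i ∈ s, Real.sqrt (a i * b i) ≤ Real.sqrt ((∑ i ∈ s, a i) * ∑ i ∈ s, b i) := by
  apply Real.le_sqrt_of_sq_le
  have h := Finset.sum_mul_sq_le_sq_mul_sq s (fun i => Real.sqrt (a i)) (fun i => Real.sqrt (b i))
  simp only [Real.sq_sqrt (ha _), Real.sq_sqrt (hb _)] at h
  have e : ∀ i, Real.sqrt (a i * b i) = Real.sqrt (a i) * Real.sqrt (b i) := fun i =>
    Real.sqrt_mul (ha i) _
  simp only [e]
  exact h

theorem eras_core {Z ι : Type} [Fintype Z] (B00 B01 B10 B11 : Z → ℝ) (h00 : ∀ z, 0 ≤ B00 z)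
    (h01 : ∀ z, 0 ≤ B01 z) (h10 : ∀ z, 0 ≤ B10 z) (h11 : ∀ z, 0 ≤ B11 z) (W : Z → ι → ℝ)
    (hW0 : ∀ z o, 0 ≤ W z o) (hW : ∀ z, HasSum (W z) 1)
    (hM : ∀ o, (∑ z, W z o * B00 z) * (∑ z, W z o * B11 z) =
      (∑ z, W z o * B01 z) * (∑ z, W z o * B10 z)) :
    ∑ z, Real.sqrt (B00 z * B11 z) ≤ Real.sqrt ((∑ z, B01 z) * ∑ z, B10 z) := by
  have hs : HasSum (fun o => ∑ z, W z o * Real.sqrt (B00 z * B11 z))
      (∑ z, Real.sqrt (B00 z * B11 z)) := by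
    have h := hasSum_sum (s := (Finset.univ : Finset Z)) fun z _ =>
      (hW z).mul_right (Real.sqrt (B00 z * B11 z))
    simpa using h
  refine hasSum_le_of_sum_le hs fun S => ?_
  have e1 : ∀ o, ∑ z, W z o * Real.sqrt (B00 z * B11 z) ≤
      Real.sqrt ((∑ z, W z o * B01 z) * (∑ z, W z o * B10 z)) := by
    intro o
    rw [← hM o]
    refine le_trans (le_of_eq ?_) (eras_cs Finset.univ (fun z => W z o * B00 z)
      (fun z => W z o * B11 z) (fun z => mul_nonneg (hW0 z o) (h00 z))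
      (fun z => mul_nonneg (hW0 z o) (h11 z)))
    refine Finset.sum_congr rfl fun z _ => ?_
    rw [show W z o * B00 z * (W z o * B11 z) = (W z o) ^ 2 * (B00 z * B11 z) by ring,
      Real.sqrt_mul (sq_nonneg _), Real.sqrt_sq (hW0 z o)]
  calc ∑ o ∈ S, ∑ z, W z o * Real.sqrt (B00 z * B11 z)
      ≤ ∑ o ∈ S, Real.sqrt ((∑ z, W z o * B01 z) * (∑ z, W z o * B10 z)) :=
        Finset.sum_le_sum fun o _ => e1 o
    _ ≤ Real.sqrt ((∑ o ∈ S, ∑ z, W z o * B01 z) * ∑ o ∈ S, ∑ z, W z o * B10 z) :=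
        eras_cs S _ _ (fun o => Finset.sum_nonneg fun z _ => mul_nonneg (hW0 z o) (h01 z))
          (fun o => Finset.sum_nonneg fun z _ => mul_nonneg (hW0 z o) (h10 z))
    _ ≤ Real.sqrt ((∑ z, B01 z) * ∑ z, B10 z) := by
        apply Real.sqrt_le_sqrt
        have key : ∀ B : Z → ℝ, (∀ z, 0 ≤ B z) → ∑ o ∈ S, ∑ z, W z o * B z ≤ ∑ z, B z := by
          intro B hB
          rw [Finset.sum_comm]
          refine Finset.sum_le_sum fun z _ => ?_
          rw [← Finset.sum_mul]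
          have : ∑ o ∈ S, W z o ≤ 1 := sum_le_hasSum S (fun o _ => hW0 z o) (hW z)
          nlinarith [hB z]
        refine mul_le_mul (key B01 h01) (key B10 h10) ?_ (Finset.sum_nonneg fun z _ => h01 z)
        exact Finset.sum_nonneg fun o _ => Finset.sum_nonneg fun z _ =>
          mul_nonneg (hW0 z o) (h10 z)

/-- conditional independence in the `2 × 2` case -/
theorem eras_two (M : Fin 2 → Fin 2 → ℝ) (h0 : ∀ i j, 0 ≤ M i j)
    (h : ∀ i j, M i j * (∑ i', ∑ j', M i' j') = (∑ j', M i j') * ∑ i', M i' j) :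
    M 0 0 * M 1 1 = M 0 1 * M 1 0 := by
  have e00 := h 0 0
  simp only [Fin.sum_univ_two] at e00
  linear_combination e00

theorem eras {X Y Z : Type} [Fintype X] [Fintype Y] [Fintype Z] (P : X → Y → ℝ) (hP : IsP P)
    (zf : X → Y → Z) (h : TV P zf) :
    ∃ (f : Fin 2 → X → ℝ) (g : Fin 2 → Y → ℝ), Tern (f 0) (f 1) ∧ Tern (g 0) (g 1) ∧
      0 < (∑ i, ∑ j, Bt P (f i) (g j)) ∧
      ∀ (ι : Type) (W : Z → ι → ℝ), (∀ z o, 0 ≤ W z o) → (∀ z, HasSum (W z) 1) →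
        ¬ ∀ (o : ι) (i j : Fin 2),
          (∑ z, W z o * Bz P zf (f i) (g j) z) *
              (∑ i', ∑ j', ∑ z, W z o * Bz P zf (f i') (g j') z) =
            (∑ j', ∑ z, W z o * Bz P zf (f i) (g j') z) *
              (∑ i', ∑ z, W z o * Bz P zf (f i') (g j) z) := by
  obtain ⟨f0, f1, g0, g1, hf, hg, hlt⟩ := h
  set f : Fin 2 → X → ℝ := ![f0, f1] with hfd
  set g : Fin 2 → Y → ℝ := ![g0, g1] with hgd
  have hf0 : f 0 = f0 := rfl
  have hf1 : f 1 = f1 := rfl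
  have hg0 : g 0 = g0 := rfl
  have hg1 : g 1 = g1 := rfl
  have hfn : ∀ i x, 0 ≤ f i x := by
    intro i x
    fin_cases i
    · exact (hf x).1
    · exact (hf x).2.1
  have hgn : ∀ i x, 0 ≤ g i x := by
    intro i x
    fin_cases i
    · exact (hg x).1
    · exact (hg x).2.1
  have hBz : ∀ i j z, 0 ≤ Bz P zf (f i) (g j) z := fun i j z =>
    eras_Bz_nonneg P hP.1 zf (hfn i) (hgn j) z
  have hBt : ∀ i j, 0 ≤ Bt P (f i) (g j) := fun i j => eras_Bt_nonneg P hP.1 (hfn i) (hgn j)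
  refine ⟨f, g, hf, hg, ?_, ?_⟩
  · have h1 : 0 < ∑ z, Real.sqrt (Bz P zf f0 g0 z * Bz P zf f1 g1 z) :=
      (Real.sqrt_nonneg _).trans_lt hlt
    obtain ⟨z, -, hz⟩ := Finset.exists_lt_of_sum_lt (s := (Finset.univ : Finset Z))
      (f := fun _ => (0 : ℝ)) (by simpa using h1)
    have h2 : 0 < Bz P zf (f 0) (g 0) z := by
      rcases (hBz 0 0 z).eq_or_lt with h3 | h3
      · exfalso
        rw [hf0, hg0] at h3
        rw [← h3, zero_mul, Real.sqrt_zero] at hz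
        exact lt_irrefl _ hz
      · exact h3
    have h3 : 0 < Bt P (f 0) (g 0) := by
      rw [← sum_Bz P zf (f 0) (g 0)]
      exact Finset.sum_pos' (fun z _ => hBz 0 0 z) ⟨z, Finset.mem_univ z, h2⟩
    simp only [Fin.sum_univ_two]
    linarith [hBt 0 1, hBt 1 0, hBt 1 1]
  · intro ι W hW0 hW hall
    have hM : ∀ o, (∑ z, W z o * Bz P zf (f 0) (g 0) z) * (∑ z, W z o * Bz P zf (f 1) (g 1) z) =
        (∑ z, W z o * Bz P zf (f 0) (g 1) z) * (∑ z, W z o * Bz P zf (f 1) (g 0) z) := fun o =>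
      eras_two (fun i j => ∑ z, W z o * Bz P zf (f i) (g j) z)
        (fun i j => Finset.sum_nonneg fun z _ => mul_nonneg (hW0 z o) (hBz i j z))
        (fun i j => hall o i j)
    have h1 := eras_core _ _ _ _ (hBz 0 0) (hBz 0 1) (hBz 1 0) (hBz 1 1) W hW0 hW hM
    rw [sum_Bz, sum_Bz] at h1
    exact absurd hlt (not_lt.mpr h1)

end

end Pool.Agent.SK
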