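import Pool.Agent.Lib_helper40.SK.P.B0
/-! SK block FLAT -/

namespace Pool.Agent.SK

noncomputable section

open scoped Classical

theorem NP2_mono {X Y Z : Type} [Fintype X] [Fintype Y] [Fintype Z] (P : X → Y → ℝ)
    (zf : X → Y → Z) (η β η' β' : ℝ) (h : NP2 P zf η β) (h1 : η ≤ η') (h2 : β ≤ β') :
    NP2 P zf η' β' := by
  obtain ⟨U, V, FA, FB, i1, i2, i3, i4, κA, κB, flA, flB, bA, bB, hA, hB, e1, e2⟩ := h
  exact ⟨U, V, FA, FB, i1, i2, i3, i4, κA, κB, flA, flB, bA, bB, hA, hB, e1.trans h1,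
    e2.trans h2⟩

theorem NP2_congr {X Y Z X' Y' Z' : Type} [Fintype X] [Fintype Y] [Fintype Z] [Fintype X']
    [Fintype Y'] [Fintype Z'] (eX : X ≃ X') (eY : Y ≃ Y') (eZ : Z ≃ Z') (P : X → Y → ℝ)
    (zf : X → Y → Z) (P' : X' → Y' → ℝ) (zf' : X' → Y' → Z')
    (hP : ∀ x y, P' (eX x) (eY y) = P x y) (hz : ∀ x y, zf' (eX x) (eY y) = eZ (zf x y))
    (η β : ℝ) (h : NP2 P zf η β) : NP2 P' zf' η β := by
  obtain ⟨U, V, FA, FB, i1, i2, i3, i4, κA, κB, flA, flB, bA, bB, hA, hB, e1, e2⟩ := h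
  set κA' : X' → U → ℝ := fun x u => κA (eX.symm x) u with hκA
  set κB' : Y' → V → ℝ := fun y v => κB (eY.symm y) v with hκB
  have hmu : ∀ ω : X × Y × U × V, mu P' κA' κB' (eX ω.1, eY ω.2.1, ω.2.2.1, ω.2.2.2) =
      mu P κA κB ω := by
    intro ω
    simp only [mu, hκA, hκB, hP, Equiv.symm_apply_apply]
  set E : X × Y × U × V ≃ X' × Y' × U × V :=
    Equiv.prodCongr eX (Equiv.prodCongr eY (Equiv.refl _)) with hE
  set EO : Z × FA × FB ≃ Z' × FA × FB := Equiv.prodCongr eZ (Equiv.refl _) with hEO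
  refine ⟨U, V, FA, FB, i1, i2, i3, i4, κA', κB', flA, flB, bA, bB,
    ⟨fun x u => hA.1 _ _, fun x => hA.2 _⟩, ⟨fun x u => hB.1 _ _, fun x => hB.2 _⟩, ?_, ?_⟩
  · refine le_trans (le_of_eq ?_) e1
    rw [← Equiv.sum_comp E]
    refine Finset.sum_congr rfl fun ω _ => ?_
    have := hmu ω
    simp only [hE, Equiv.prodCongr_apply, Prod.map, Equiv.refl_apply]
    split_ifs
    · exact this
    · rfl
  · refine le_trans (le_of_eq ?_) e2
    rw [← Equiv.sum_comp EO]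
    refine Finset.sum_congr rfl fun o _ => ?_
    congr 1
    rw [← Equiv.sum_comp E]
    refine Finset.sum_congr rfl fun ω _ => ?_
    have h1 := hmu ω
    have h2 : ((zf' (E ω).1 (E ω).2.1, flA (E ω).2.2.1, flB (E ω).2.2.2) = EO o) ↔
        ((zf ω.1 ω.2.1, flA ω.2.2.1, flB ω.2.2.2) = o) := by
      have h3 : (zf' (E ω).1 (E ω).2.1, flA (E ω).2.2.1, flB (E ω).2.2.2) =
          EO (zf ω.1 ω.2.1, flA ω.2.2.1, flB ω.2.2.2) := by
        simp only [hE, hEO, Equiv.prodCongr_apply, Prod.map, Equiv.refl_apply, hz]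
      rw [h3]
      exact EO.injective.eq_iff
    by_cases h4 : (zf ω.1 ω.2.1, flA ω.2.2.1, flB ω.2.2.2) = o
    · rw [if_pos (h2.mpr h4), if_pos h4]
      congr 1
    · rw [if_neg (fun h => h4 (h2.mp h)), if_neg h4]

theorem NP2_pw_pw {X Y Z κ ι : Type} [Fintype X] [Fintype Y] [Fintype Z] [Fintype κ]
    [Fintype ι] [DecidableEq κ] [DecidableEq ι]
    (P : X → Y → ℝ) (zf : X → Y → Z) (η β : ℝ)
    (h : NP2 (pw κ (pw ι P)) (zw κ (zw ι zf)) η β) :
    NP2 (pw (κ × ι) P) (zw (κ × ι) zf) η β := by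
  refine NP2_congr (Equiv.curry κ ι X).symm (Equiv.curry κ ι Y).symm (Equiv.curry κ ι Z).symm
    _ _ _ _ ?_ ?_ η β h
  · intro x y
    simp only [pw]
    rw [Fintype.prod_prod_type]
    rfl
  · intro x y
    rfl

theorem NP2_reindex {X Y Z κ : Type} [Fintype X] [Fintype Y] [Fintype Z] [Fintype κ]
    [DecidableEq κ] (P : X → Y → ℝ) (zf : X → Y → Z) (η β : ℝ)
    (h : NP2 (pw κ P) (zw κ zf) η β) :
    ∃ m : ℕ, NP2 (pw (Fin m) P) (zw (Fin m) zf) η β := by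
  refine ⟨Fintype.card κ, ?_⟩
  set e := Fintype.equivFin κ with he
  refine NP2_congr (Equiv.arrowCongr e (Equiv.refl X)) (Equiv.arrowCongr e (Equiv.refl Y))
    (Equiv.arrowCongr e (Equiv.refl Z)) _ _ _ _ ?_ ?_ η β h
  · intro x y
    simp only [pw]
    exact Equiv.prod_comp e.symm (fun i => P (x i) (y i))
  · intro x y
    rfl

end

end Pool.Agent.SK
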