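import Pool.Agent.Lib_helper40.SK.P.PROD1
import Pool.Agent.Lib_helper40.SK.P.PROD2

namespace Pool.Agent.SK

noncomputable section

open scoped Classical

/-- the kernel of a ternary output -/
def one_K {X : Type} (f0 f1 : X → ℝ) (x : X) (u : Fin 3) : ℝ :=
  if u = 0 then f0 x else if u = 1 then f1 x else 1 - f0 x - f1 x

/-- the flag: not erased -/
def one_fl (u : Fin 3) : Bool := decide (u ≠ 2)

/-- the bit -/
def one_b (u : Fin 3) (fb : Bool) : ZMod 2 := if u = 1 ∧ fb = true then 1 else 0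

theorem one_K_kern {X : Type} {f0 f1 : X → ℝ} (h : Tern f0 f1) : Kern (one_K f0 f1) := by
  constructor
  · intro x u
    obtain ⟨h1, h2, h3⟩ := h x
    unfold one_K
    split_ifs
    · exact h1
    · exact h2
    · linarith
  · intro x
    rw [Fin.sum_univ_three]
    unfold one_K
    simp

theorem one_sum4 {X Y U V : Type} [Fintype X] [Fintype Y] [Fintype U] [Fintype V]
    (F : X → Y → U → V → ℝ) :
    ∑ ω : X × Y × U × V, F ω.1 ω.2.1 ω.2.2.1 ω.2.2.2 = ∑ u, ∑ v, ∑ x, ∑ y, F x y u v := by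
  rw [Fintype.sum_prod_type]
  have h1 : ∀ x, ∑ w : Y × U × V, F x w.1 w.2.1 w.2.2 = ∑ u, ∑ v, ∑ y, F x y u v := by
    intro x
    rw [Fintype.sum_prod_type, Finset.sum_comm, Fintype.sum_prod_type]
  simp only [h1]
  rw [Finset.sum_comm]
  refine Finset.sum_congr rfl fun u _ => ?_
  rw [Finset.sum_comm]

theorem one_bt {X Y : Type} [Fintype X] [Fintype Y] (P : X → Y → ℝ)
    (κA : X → Fin 3 → ℝ) (κB : Y → Fin 3 → ℝ) (s : Fin 3 → Fin 3 → ℝ) :
    ∑ ω : X × Y × Fin 3 × Fin 3, s ω.2.2.1 ω.2.2.2 * mu P κA κB ω =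
      ∑ u, ∑ v, s u v * Bt P (fun x => κA x u) (fun y => κB y v) := by
  have := one_sum4 (fun (x : X) (y : Y) (u v : Fin 3) => s u v * (P x y * κA x u * κB y v))
  unfold mu Bt
  rw [this]
  refine Finset.sum_congr rfl fun u _ => Finset.sum_congr rfl fun v _ => ?_
  rw [Finset.mul_sum]
  refine Finset.sum_congr rfl fun x _ => ?_
  rw [Finset.mul_sum]

theorem one_bz {X Y Z : Type} [Fintype X] [Fintype Y] (P : X → Y → ℝ) (zf : X → Y → Z)
    (κA : X → Fin 3 → ℝ) (κB : Y → Fin 3 → ℝ) (s : Fin 3 → Fin 3 → ℝ) (z : Z) :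
    ∑ ω : X × Y × Fin 3 × Fin 3, (if zf ω.1 ω.2.1 = z then
      s ω.2.2.1 ω.2.2.2 * mu P κA κB ω else 0) =
      ∑ u, ∑ v, s u v * Bz P zf (fun x => κA x u) (fun y => κB y v) z := by
  have := one_sum4 (fun (x : X) (y : Y) (u v : Fin 3) =>
    if zf x y = z then s u v * (P x y * κA x u * κB y v) else 0)
  unfold mu Bz
  rw [this]
  refine Finset.sum_congr rfl fun u _ => Finset.sum_congr rfl fun v _ => ?_
  rw [Finset.mul_sum]
  refine Finset.sum_congr rfl fun x _ => ?_
  rw [Finset.mul_sum]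
  refine Finset.sum_congr rfl fun y _ => ?_
  split_ifs
  · rfl
  · simp

theorem one_Bz_nonneg {X Y Z : Type} [Fintype X] [Fintype Y] {P : X → Y → ℝ} (hP : IsP P)
    (zf : X → Y → Z) {f : X → ℝ} {g : Y → ℝ} (hf : ∀ x, 0 ≤ f x) (hg : ∀ y, 0 ≤ g y) (z : Z) :
    0 ≤ Bz P zf f g z := by
  unfold Bz
  refine Finset.sum_nonneg fun x _ => Finset.sum_nonneg fun y _ => ?_
  split_ifs
  · exact mul_nonneg (mul_nonneg (hP.1 x y) (hf x)) (hg y)
  · exact le_rfl

theorem one_total {X Y Z : Type} [Fintype X] [Fintype Y] [Fintype Z] {P : X → Y → ℝ}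
    (hP : IsP P) (zf : X → Y → Z) {κA : X → Fin 3 → ℝ} {κB : Y → Fin 3 → ℝ} (hA : Kern κA)
    (hB : Kern κB) :
    ∑ z, ∑ u, ∑ v, Bz P zf (fun x => κA x u) (fun y => κB y v) z = 1 := by
  have h1 := (sum_mu P hP κA κB hA hB).2
  have h2 := one_bt P κA κB (fun _ _ => 1)
  simp only [one_mul] at h2
  rw [h1] at h2
  rw [Finset.sum_comm, h2]
  refine Finset.sum_congr rfl fun u _ => ?_
  rw [Finset.sum_comm]
  refine Finset.sum_congr rfl fun v _ => ?_
  exact sum_Bz P zf _ _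

theorem one_diff : ∀ u v : Fin 3, (one_b u (one_fl v) ≠ one_b v (one_fl u)) ↔
    ((u = 0 ∧ v = 1) ∨ (u = 1 ∧ v = 0)) := by
  decide

theorem one_abs (p q r t : ℝ) (hq : 0 ≤ q) (hr : 0 ≤ r) :
    |p + q - r - t| ≤ p + q + r + t - 2 * min p t := by
  rw [abs_le]
  constructor
  · linarith [min_le_left p t]
  · linarith [min_le_right p t]

theorem NP2_of_Hid {X Y Z : Type} [Fintype X] [Fintype Y] [Fintype Z] (P : X → Y → ℝ)
    (hP : IsP P) (zf : X → Y → Z) (ρ : ℝ) (h : Hid P zf ρ) :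
    ∃ H : ℝ, 0 < H ∧ H ≤ 1 / 2 ∧ NP2 P zf (ρ * H) (1 - 2 * H) := by
  obtain ⟨f0, f1, g0, g1, hf, hg, hpos, hle⟩ := h
  set H := ∑ z, min (Bz P zf f0 g0 z) (Bz P zf f1 g1 z) with hH
  have kA := one_K_kern hf
  have kB := one_K_kern hg
  set b : Fin 3 → Fin 3 → Z → ℝ := fun u v z =>
    Bz P zf (fun x => one_K f0 f1 x u) (fun y => one_K g0 g1 y v) z with hb
  have hb0 : ∀ u v z, 0 ≤ b u v z := fun u v z =>
    one_Bz_nonneg hP zf (fun x => kA.1 x u) (fun y => kB.1 y v) z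
  have hK0 : (fun x => one_K f0 f1 x 0) = f0 := by
    funext x
    simp [one_K]
  have hK1 : (fun x => one_K f0 f1 x 1) = f1 := by
    funext x
    simp [one_K]
  have hL0 : (fun y => one_K g0 g1 y 0) = g0 := by
    funext x
    simp [one_K]
  have hL1 : (fun y => one_K g0 g1 y 1) = g1 := by
    funext x
    simp [one_K]
  have b00 : ∀ z, b 0 0 z = Bz P zf f0 g0 z := by
    intro z
    simp only [hb, hK0, hL0]
  have b11 : ∀ z, b 1 1 z = Bz P zf f1 g1 z := by
    intro z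
    simp only [hb, hK1, hL1]
  have htot := one_total hP zf kA kB
  have htot' : ∑ z, (b 0 0 z + b 0 1 z + b 0 2 z + (b 1 0 z + b 1 1 z + b 1 2 z) +
      (b 2 0 z + b 2 1 z + b 2 2 z)) = 1 := by
    rw [← htot]
    refine Finset.sum_congr rfl fun z _ => ?_
    simp only [Fin.sum_univ_three, hb]
  have hbound : ∑ z, (b 0 0 z + b 0 1 z + b 0 2 z + (b 1 0 z + b 1 1 z + b 1 2 z) +
      (b 2 0 z + b 2 1 z + b 2 2 z) - 2 * min (b 0 0 z) (b 1 1 z)) = 1 - 2 * H := by
    rw [Finset.sum_sub_distrib, htot', ← Finset.mul_sum]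
    simp only [b00, b11]
    rfl
  refine ⟨H, hpos, ?_, ?_⟩
  · have : 0 ≤ 1 - 2 * H := by
      rw [← hbound]
      refine Finset.sum_nonneg fun z _ => ?_
      have := min_le_left (b 0 0 z) (b 1 1 z)
      have := min_le_right (b 0 0 z) (b 1 1 z)
      linarith [hb0 0 1 z, hb0 0 2 z, hb0 1 0 z, hb0 1 2 z, hb0 2 0 z, hb0 2 1 z, hb0 2 2 z]
    linarith
  · refine ⟨Fin 3, Fin 3, Bool, Bool, inferInstance, inferInstance, inferInstance, inferInstance,
      one_K f0 f1, one_K g0 g1, one_fl, one_fl, one_b, one_b, kA, kB, ?_, ?_⟩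
    · have e1 : (∑ ω : X × Y × Fin 3 × Fin 3,
          if one_b ω.2.2.1 (one_fl ω.2.2.2) ≠ one_b ω.2.2.2 (one_fl ω.2.2.1) then
            mu P (one_K f0 f1) (one_K g0 g1) ω else 0) = Bt P f0 g1 + Bt P f1 g0 := by
        have := one_bt P (one_K f0 f1) (one_K g0 g1)
          (fun u v => if (u = 0 ∧ v = 1) ∨ (u = 1 ∧ v = 0) then 1 else 0)
        have e2 : (∑ ω : X × Y × Fin 3 × Fin 3,
          if one_b ω.2.2.1 (one_fl ω.2.2.2) ≠ one_b ω.2.2.2 (one_fl ω.2.2.1) then
            mu P (one_K f0 f1) (one_K g0 g1) ω else 0) = ∑ ω : X × Y × Fin 3 × Fin 3,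
            (if (ω.2.2.1 = 0 ∧ ω.2.2.2 = 1) ∨ (ω.2.2.1 = 1 ∧ ω.2.2.2 = 0) then (1 : ℝ) else 0) *
              mu P (one_K f0 f1) (one_K g0 g1) ω := by
          refine Finset.sum_congr rfl fun ω _ => ?_
          rw [ite_mul, one_mul, zero_mul]
          exact if_congr (one_diff _ _) rfl rfl
        rw [e2, this]
        simp [Fin.sum_univ_three, hK0, hK1, hL0, hL1]
      rw [e1]
      exact hle
    · rw [← hbound, Fintype.sum_prod_type]
      refine Finset.sum_le_sum fun z _ => ?_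
      rw [Fintype.sum_prod_type]
      have e3 : ∀ (fa fb : Bool) (dec : ∀ ω : X × Y × Fin 3 × Fin 3, Decidable
          ((zf ω.1 ω.2.1, one_fl ω.2.2.1, one_fl ω.2.2.2) = (z, fa, fb))), (∑ ω : X × Y × Fin 3 × Fin 3,
          if (zf ω.1 ω.2.1, one_fl ω.2.2.1, one_fl ω.2.2.2) = (z, fa, fb) then
            (if one_b ω.2.2.1 (one_fl ω.2.2.2) = 0 then (1 : ℝ) else -1) *
              mu P (one_K f0 f1) (one_K g0 g1) ω else 0) =
          ∑ u, ∑ v, (if one_fl u = fa ∧ one_fl v = fb then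
            (if one_b u (one_fl v) = 0 then (1 : ℝ) else -1) else 0) * b u v z := by
        intro fa fb dec
        rw [hb]
        simp only
        rw [← one_bz P zf (one_K f0 f1) (one_K g0 g1)
          (fun u v => if one_fl u = fa ∧ one_fl v = fb then
            (if one_b u (one_fl v) = 0 then (1 : ℝ) else -1) else 0) z]
        refine Finset.sum_congr rfl fun ω _ => ?_
        by_cases h1 : zf ω.1 ω.2.1 = z
        · by_cases h2 : one_fl ω.2.2.1 = fa ∧ one_fl ω.2.2.2 = fb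
          · rw [if_pos (by rw [h1, h2.1, h2.2]), if_pos h1, if_pos h2]
          · rw [if_neg, if_pos h1, if_neg h2, zero_mul]
            intro h3
            rw [Prod.mk.injEq, Prod.mk.injEq] at h3
            exact h2 h3.2
        · rw [if_neg, if_neg h1]
          intro h3
          rw [Prod.mk.injEq] at h3
          exact h1 h3.1
      refine (le_of_eq (Finset.sum_congr rfl fun fa _ => Finset.sum_congr rfl fun fb _ =>
        congrArg abs (?_ : _ = ∑ u, ∑ v, (if one_fl u = fa ∧ one_fl v = fb then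
            (if one_b u (one_fl v) = 0 then (1 : ℝ) else -1) else 0) * b u v z))).trans ?_
      · exact e3 fa fb _
      simp only [Fintype.sum_bool, Fin.sum_univ_three]
      have d0 : one_fl 0 = true := by decide
      have d1 : one_fl 1 = true := by decide
      have d2 : one_fl 2 = false := by decide
      have c1 : one_b 0 true = 0 := by decide
      have c2 : one_b 1 true ≠ 0 := by decide
      have c3 : one_b 0 false = 0 := by decide
      have c4 : one_b 1 false = 0 := by decide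
      have c5 : one_b 2 true = 0 := by decide
      have c6 : one_b 2 false = 0 := by decide
      simp only [d0, d1, d2, c1, c2, c3, c4, c5, c6]
      simp
      have h1 := one_abs (b 0 0 z) (b 0 1 z) (b 1 0 z) (b 1 1 z) (hb0 _ _ _) (hb0 _ _ _)
      have h2 : b 0 0 z + b 0 1 z + (-b 1 0 z + -b 1 1 z) =
          b 0 0 z + b 0 1 z - b 1 0 z - b 1 1 z := by ring
      rw [h2, abs_of_nonneg (add_nonneg (hb0 0 2 z) (hb0 1 2 z)),
        abs_of_nonneg (add_nonneg (hb0 2 0 z) (hb0 2 1 z)), abs_of_nonneg (hb0 2 2 z)]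
      linarith

end

end Pool.Agent.SK
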