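import Pool.Agent.Lib_helper40.SK.P.B0
/-! SK block PAR -/

namespace Pool.Agent.SK

noncomputable section

open scoped Classical

theorem NP2_param (ε : ℝ) (hε : 0 < ε) : ∃ ρ : ℝ, 0 < ρ ∧ ∀ H : ℝ, 0 < H → H ≤ 1 / 2 →
    ∃ G : ℕ, (G : ℝ) * (ρ * H) ≤ ε ∧ (1 - 2 * H) ^ G ≤ ε := by
  set c : ℝ := max 0 (-Real.log ε) with hc
  have hc0 : 0 ≤ c := le_max_left _ _
  have hce : Real.exp (-c) ≤ ε := by
    have h1 : -c ≤ Real.log ε := by
      have := le_max_right 0 (-Real.log ε)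
      linarith
    calc Real.exp (-c) ≤ Real.exp (Real.log ε) := Real.exp_le_exp.mpr h1
      _ = ε := Real.exp_log hε
  refine ⟨2 * ε / (c + 1), by positivity, fun H hH hH2 => ⟨⌈c / (2 * H)⌉₊, ?_, ?_⟩⟩
  · have h1 : (⌈c / (2 * H)⌉₊ : ℝ) ≤ c / (2 * H) + 1 := (Nat.ceil_lt_add_one (by positivity)).le
    have h2 : 0 ≤ 2 * ε / (c + 1) * H := by positivity
    calc (⌈c / (2 * H)⌉₊ : ℝ) * (2 * ε / (c + 1) * H)
        ≤ (c / (2 * H) + 1) * (2 * ε / (c + 1) * H) := mul_le_mul_of_nonneg_right h1 h2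
      _ = ε * ((c + 2 * H) / (c + 1)) := by field_simp
      _ ≤ ε * 1 := by
          refine mul_le_mul_of_nonneg_left ?_ hε.le
          rw [div_le_one (by positivity)]
          linarith
      _ = ε := mul_one ε
  · have h1 : c ≤ 2 * H * (⌈c / (2 * H)⌉₊ : ℝ) := by
      have := Nat.le_ceil (c / (2 * H))
      rw [div_le_iff₀ (by positivity)] at this
      linarith
    have h2 : 1 - 2 * H ≤ Real.exp (-(2 * H)) := by
      have := Real.add_one_le_exp (-(2 * H))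
      linarith
    calc (1 - 2 * H) ^ ⌈c / (2 * H)⌉₊ ≤ Real.exp (-(2 * H)) ^ ⌈c / (2 * H)⌉₊ :=
          pow_le_pow_left₀ (by linarith) h2 _
      _ = Real.exp (-(2 * H * (⌈c / (2 * H)⌉₊ : ℝ))) := by
          rw [← Real.exp_nat_mul]; congr 1; ring
      _ ≤ Real.exp (-c) := Real.exp_le_exp.mpr (by linarith)
      _ ≤ ε := hce

end

end Pool.Agent.SK
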