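import Pool.Agent.Lib_helper40.SK.P.PROD1
import Pool.Agent.Lib_helper40.SK.P.PROD2

namespace Pool.Agent.SK

noncomputable section

open scoped Classical

theorem XORG_prod_sum {ι U : Type} [Fintype ι] [DecidableEq ι] [Fintype U] (f : ι → U → ℝ) :
    ∑ u : ι → U, ∏ i, f i (u i) = ∏ i, ∑ a, f i a := by
  rw [Finset.prod_univ_sum, Fintype.piFinset_univ]

theorem XORG_sum {X Y U V : Type} [Fintype X] [Fintype Y] [Fintype U] [Fintype V] {G : ℕ}
    (F : (Fin G → X) → (Fin G → Y) → (Fin G → U) → (Fin G → V) → ℝ) :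
    ∑ ω : (Fin G → X) × (Fin G → Y) × (Fin G → U) × (Fin G → V), F ω.1 ω.2.1 ω.2.2.1 ω.2.2.2 =
      ∑ ω : Fin G → X × Y × U × V, F (fun i => (ω i).1) (fun i => (ω i).2.1)
        (fun i => (ω i).2.2.1) (fun i => (ω i).2.2.2) := by
  rw [sum_words]
  simp only [Fintype.sum_prod_type]

theorem XORG_sign_add (a b : ZMod 2) : (if a + b = 0 then (1 : ℝ) else -1) =
    (if a = 0 then (1 : ℝ) else -1) * (if b = 0 then (1 : ℝ) else -1) := by
  have h : ∀ c : ZMod 2, c = 0 ∨ c = 1 := by decide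
  have h11 : (1 : ZMod 2) + 1 = 0 := by decide
  have h10 : (1 : ZMod 2) ≠ 0 := by decide
  rcases h a with rfl | rfl <;> rcases h b with rfl | rfl <;> simp [h11, h10]

theorem XORG_sign_sum {ι : Type} (s : Finset ι) (a : ι → ZMod 2) :
    (if ∑ i ∈ s, a i = 0 then (1 : ℝ) else -1) = ∏ i ∈ s, (if a i = 0 then (1 : ℝ) else -1) := by
  induction s using Finset.induction_on with
  | empty => simp
  | insert x s hx ih =>
    rw [Finset.sum_insert hx, Finset.prod_insert hx, XORG_sign_add, ih]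

/-- the words of triples -/
def XORG_e {Z A B : Type} {G : ℕ} :
    (Fin G → Z × A × B) ≃ (Fin G → Z) × (Fin G → A) × (Fin G → B) where
  toFun w := (fun i => (w i).1, fun i => (w i).2.1, fun i => (w i).2.2)
  invFun t := fun i => (t.1 i, t.2.1 i, t.2.2 i)
  left_inv _ := rfl
  right_inv _ := rfl

theorem XORG_err {Ω : Type} [Fintype Ω] (μ : Ω → ℝ) (h0 : ∀ ω, 0 ≤ μ ω) (h1 : ∑ ω, μ ω = 1)
    (A B : Ω → ZMod 2) (η : ℝ) (h : (∑ ω, if A ω ≠ B ω then μ ω else 0) ≤ η) (G : ℕ) :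
    (∑ ω : Fin G → Ω, if ∑ i, A (ω i) ≠ ∑ i, B (ω i) then ∏ i, μ (ω i) else 0) ≤ G * η := by
  have hpt : ∀ ω : Fin G → Ω, (if ∑ i, A (ω i) ≠ ∑ i, B (ω i) then ∏ i, μ (ω i) else 0) ≤
      ∑ i : Fin G, (if A (ω i) ≠ B (ω i) then ∏ j, μ (ω j) else 0) := by
    intro ω
    have hn : 0 ≤ ∏ i, μ (ω i) := Finset.prod_nonneg fun i _ => h0 _
    split_ifs with hne
    · have : ∃ i, A (ω i) ≠ B (ω i) := by
        by_contra hall
        push Not at hall
        exact hne (Finset.sum_congr rfl fun i _ => hall i)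
      obtain ⟨i, hi⟩ := this
      have h3 : ∀ j ∈ (Finset.univ : Finset (Fin G)),
          0 ≤ (if A (ω j) ≠ B (ω j) then ∏ j, μ (ω j) else 0) := fun j _ => by
        split_ifs
        · exact hn
        · exact le_rfl
      have h2 := Finset.single_le_sum h3 (Finset.mem_univ i)
      rw [if_pos hi] at h2
      exact h2
    · refine Finset.sum_nonneg fun i _ => ?_
      split_ifs
      · exact hn
      · exact le_rfl
  have hone : ∀ i : Fin G, (∑ ω : Fin G → Ω, if A (ω i) ≠ B (ω i) then ∏ j, μ (ω j) else 0) =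
      ∑ ω, if A ω ≠ B ω then μ ω else 0 := by
    intro i
    have e1 : ∀ ω : Fin G → Ω, (if A (ω i) ≠ B (ω i) then ∏ j, μ (ω j) else 0) =
        ∏ j, (if j = i then (if A (ω j) ≠ B (ω j) then μ (ω j) else 0) else μ (ω j)) := by
      intro ω
      by_cases hne : A (ω i) ≠ B (ω i)
      · rw [if_pos hne]
        refine Finset.prod_congr rfl fun j _ => ?_
        by_cases hj : j = i
        · rw [if_pos hj, hj, if_pos hne]
        · rw [if_neg hj]
      · rw [if_neg hne]
        symm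
        apply Finset.prod_eq_zero (Finset.mem_univ i)
        rw [if_pos rfl, if_neg hne]
    simp only [e1]
    rw [XORG_prod_sum (fun j a => if j = i then (if A a ≠ B a then μ a else 0) else μ a)]
    rw [Finset.prod_eq_single i]
    · simp only [if_true]
    · intro j _ hj
      simp only [if_neg hj]
      exact h1
    · intro hi
      exact absurd (Finset.mem_univ i) hi
  calc (∑ ω : Fin G → Ω, if ∑ i, A (ω i) ≠ ∑ i, B (ω i) then ∏ i, μ (ω i) else 0)
      ≤ ∑ ω : Fin G → Ω, ∑ i : Fin G, (if A (ω i) ≠ B (ω i) then ∏ j, μ (ω j) else 0) :=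
        Finset.sum_le_sum fun ω _ => hpt ω
    _ = ∑ i : Fin G, ∑ ω : Fin G → Ω, (if A (ω i) ≠ B (ω i) then ∏ j, μ (ω j) else 0) :=
        Finset.sum_comm
    _ = ∑ _i : Fin G, ∑ ω, (if A ω ≠ B ω then μ ω else 0) :=
        Finset.sum_congr rfl fun i _ => hone i
    _ = G * ∑ ω, (if A ω ≠ B ω then μ ω else 0) := by
        rw [Finset.sum_const, Finset.card_univ, Fintype.card_fin, nsmul_eq_mul]
    _ ≤ G * η := mul_le_mul_of_nonneg_left h (Nat.cast_nonneg _)

theorem XORG_bias {Ω E : Type} [Fintype Ω] [Fintype E] [DecidableEq E] (μ : Ω → ℝ) (A : Ω → ZMod 2) (c : Ω → E)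
    (β : ℝ) (h : (∑ o, |∑ ω, if c ω = o then (if A ω = 0 then (1 : ℝ) else -1) * μ ω else 0|) ≤ β)
    (G : ℕ) :
    (∑ w : Fin G → E, |∑ ω : Fin G → Ω, if (fun i => c (ω i)) = w then
      (if ∑ i, A (ω i) = 0 then (1 : ℝ) else -1) * ∏ i, μ (ω i) else 0|) ≤ β ^ G := by
  have hin : ∀ w : Fin G → E, (∑ ω : Fin G → Ω, if (fun i => c (ω i)) = w then
      (if ∑ i, A (ω i) = 0 then (1 : ℝ) else -1) * ∏ i, μ (ω i) else 0) =
      ∏ i, ∑ ω, (if c ω = w i then (if A ω = 0 then (1 : ℝ) else -1) * μ ω else 0) := by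
    intro w
    rw [← XORG_prod_sum (fun i ω => if c ω = w i then (if A ω = 0 then (1 : ℝ) else -1) * μ ω else 0)]
    refine Finset.sum_congr rfl fun ω _ => ?_
    by_cases hw : (fun i => c (ω i)) = w
    · rw [if_pos hw, XORG_sign_sum, ← Finset.prod_mul_distrib]
      refine Finset.prod_congr rfl fun i _ => ?_
      rw [if_pos (congrFun hw i)]
    · rw [if_neg hw]
      have : ∃ i, c (ω i) ≠ w i := by
        by_contra hall
        push Not at hall
        exact hw (funext hall)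
      obtain ⟨i, hi⟩ := this
      symm
      apply Finset.prod_eq_zero (Finset.mem_univ i)
      rw [if_neg hi]
  simp only [hin, Finset.abs_prod]
  rw [XORG_prod_sum (fun (_ : Fin G) (o : E) =>
    |∑ ω, (if c ω = o then (if A ω = 0 then (1 : ℝ) else -1) * μ ω else 0)|)]
  rw [Finset.prod_const, Finset.card_univ, Fintype.card_fin]
  exact pow_le_pow_left₀ (Finset.sum_nonneg fun o _ => abs_nonneg _) h G

theorem XORG_kern {X U : Type} [Fintype U] {κ : X → U → ℝ} (h : Kern κ) (G : ℕ) :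
    Kern (fun (x : Fin G → X) (u : Fin G → U) => ∏ i, κ (x i) (u i)) := by
  refine ⟨fun x u => Finset.prod_nonneg fun i _ => h.1 _ _, fun x => ?_⟩
  change ∑ u : Fin G → U, ∏ i, κ (x i) (u i) = 1
  rw [XORG_prod_sum (fun i a => κ (x i) a)]
  exact Finset.prod_eq_one fun i _ => h.2 _

theorem XORG_mu {X Y U V : Type} {G : ℕ} (P : X → Y → ℝ) (κA : X → U → ℝ) (κB : Y → V → ℝ)
    (ω : Fin G → X × Y × U × V) :
    mu (pw (Fin G) P) (fun (x : Fin G → X) (u : Fin G → U) => ∏ i, κA (x i) (u i))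
      (fun (y : Fin G → Y) (v : Fin G → V) => ∏ i, κB (y i) (v i))
      (fun i => (ω i).1, fun i => (ω i).2.1, fun i => (ω i).2.2.1, fun i => (ω i).2.2.2) =
      ∏ i, mu P κA κB (ω i) := by
  simp only [mu, pw]
  rw [← Finset.prod_mul_distrib, ← Finset.prod_mul_distrib]

theorem NP2_pw {X Y Z : Type} [Fintype X] [Fintype Y] [Fintype Z] (P : X → Y → ℝ)
    (hP : IsP P) (zf : X → Y → Z) (η β : ℝ) (h : NP2 P zf η β) (G : ℕ) :
    NP2 (pw (Fin G) P) (zw (Fin G) zf) (G * η) (β ^ G) := by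
  obtain ⟨U, V, FA, FB, iU, iV, iFA, iFB, κA, κB, flA, flB, bA, bB, hA, hB, herr, hbias⟩ := h
  obtain ⟨hμ0, hμ1⟩ := sum_mu P hP κA κB hA hB
  refine ⟨Fin G → U, Fin G → V, Fin G → FA, Fin G → FB, inferInstance, inferInstance,
    inferInstance, inferInstance, fun x u => ∏ i, κA (x i) (u i), fun y v => ∏ i, κB (y i) (v i),
    fun u i => flA (u i), fun v i => flB (v i), fun u fb => ∑ i, bA (u i) (fb i),
    fun v fa => ∑ i, bB (v i) (fa i), XORG_kern hA G, XORG_kern hB G, ?_, ?_⟩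
  · have e1 := XORG_sum (X := X) (Y := Y) (U := U) (V := V) (G := G) (fun x y u v =>
      if (∑ i, bA (u i) (flB (v i))) ≠ ∑ i, bB (v i) (flA (u i)) then
        mu (pw (Fin G) P) (fun (x : Fin G → X) (u : Fin G → U) => ∏ i, κA (x i) (u i))
      (fun (y : Fin G → Y) (v : Fin G → V) => ∏ i, κB (y i) (v i)) (x, y, u, v) else 0)
    refine le_trans (le_of_eq e1) ?_
    have e2 := XORG_err (mu P κA κB) hμ0 hμ1 (fun ω => bA ω.2.2.1 (flB ω.2.2.2))
      (fun ω => bB ω.2.2.2 (flA ω.2.2.1)) η herr G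
    refine le_trans (le_of_eq ?_) e2
    refine Finset.sum_congr rfl fun ω _ => ?_
    simp only
    rw [XORG_mu]
  · have e2 := XORG_bias (mu P κA κB) (fun ω => bA ω.2.2.1 (flB ω.2.2.2))
      (fun ω => (zf ω.1 ω.2.1, flA ω.2.2.1, flB ω.2.2.2)) β hbias G
    refine le_trans (le_of_eq ?_) e2
    rw [← (XORG_e (Z := Z) (A := FA) (B := FB) (G := G)).sum_comp]
    refine Finset.sum_congr rfl fun w _ => ?_
    congr 1
    have e1 := XORG_sum (X := X) (Y := Y) (U := U) (V := V) (G := G) (fun x y u v =>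
      if (zw (Fin G) zf x y, (fun i => flA (u i)), (fun i => flB (v i))) = XORG_e w then
        (if (∑ i, bA (u i) (flB (v i))) = 0 then (1 : ℝ) else -1) *
        mu (pw (Fin G) P) (fun (x : Fin G → X) (u : Fin G → U) => ∏ i, κA (x i) (u i))
      (fun (y : Fin G → Y) (v : Fin G → V) => ∏ i, κB (y i) (v i)) (x, y, u, v) else 0)
    refine Eq.trans ?_ (e1.trans ?_)
    · refine Finset.sum_congr rfl fun ω _ => ?_
      by_cases hc : (zw (Fin G) zf ω.1 ω.2.1, (fun i => flA (ω.2.2.1 i)),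
          (fun i => flB (ω.2.2.2 i))) = XORG_e w
      · exact (if_pos hc).trans (if_pos hc).symm
      · exact (if_neg hc).trans (if_neg hc).symm
    refine Finset.sum_congr rfl fun ω _ => ?_
    simp only
    rw [XORG_mu]
    have hiff : ((zw (Fin G) zf (fun i => (ω i).1) (fun i => (ω i).2.1),
        (fun i => flA (ω i).2.2.1), (fun i => flB (ω i).2.2.2)) = XORG_e w) ↔
        (fun i => (zf (ω i).1 (ω i).2.1, flA (ω i).2.2.1, flB (ω i).2.2.2)) = w := by
      constructor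
      · intro h
        exact XORG_e.injective h
      · intro h
        rw [← h]
        rfl
    by_cases hc : (fun i => (zf (ω i).1 (ω i).2.1, flA (ω i).2.2.1, flB (ω i).2.2.2)) = w
    · rw [if_pos hc, if_pos (hiff.2 hc)]
    · rw [if_neg hc, if_neg (fun h => hc (hiff.1 h))]

end

end Pool.Agent.SK
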