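import Pool.Agent.Lib_helper40.SK.P.T2
import Pool.Agent.Lib_helper40.SK.P.AD2
import Pool.Agent.Lib_helper40.SK.P.ONE
import Pool.Agent.Lib_helper40.SK.P.XORG
import Pool.Agent.Lib_helper40.SK.P.PAR
import Pool.Agent.Lib_helper40.SK.P.FLAT
import Pool.Agent.Lib_helper40.SK.P.ASM
import Pool.Agent.Lib_helper40.SK.P.PROD1

namespace Pool.Agent.SK

noncomputable section

open scoped Classical

theorem achievable_of_TV {X Y Z : Type} [Fintype X] [Fintype Y] [Fintype Z] (P : X → Y → ℝ)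
    (hP : IsP P) (zf : X → Y → Z) (n : ℕ) (h : TV (pw (Fin n) P) (zw (Fin n) zf)) :
    ∃ R : ℝ, 0 < R ∧ Achievable P zf R := by
  obtain ⟨ρ, hρ, hpar⟩ := NP2_param (1 / 1000) (by norm_num)
  have hP1 : IsP (pw (Fin n) P) := IsP_pw P hP
  obtain ⟨n1, h1⟩ := Hid_of_TV (pw (Fin n) P) hP1 (zw (Fin n) zf) h ρ hρ
  have hP2 : IsP (pw (Fin n1 × Bool) (pw (Fin n) P)) := IsP_pw _ hP1
  obtain ⟨H, hH0, hH1, h2⟩ := NP2_of_Hid _ hP2 _ ρ h1
  obtain ⟨G, hG1, hG2⟩ := hpar H hH0 hH1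
  have h3 := NP2_pw _ hP2 _ _ _ h2 G
  have h4 := NP2_mono _ _ _ _ (1 / 1000) (1 / 1000) h3 hG1 hG2
  have h5 := NP2_pw_pw (pw (Fin n) P) (zw (Fin n) zf) _ _ h4
  have h6 := NP2_pw_pw P zf _ _ h5
  obtain ⟨m, h7⟩ := NP2_reindex P zf _ _ h6
  exact achievable_of_NP2 P hP zf m h7

theorem rate_pos (a : ℝ) (ha : 0 < a) : 0 < secretKeyRate (PE a) zE := by
  obtain ⟨R, hR, hA⟩ := achievable_of_TV (PE a) (IsP_PE a ha) zE 2 (TV_PE a ha)
  unfold secretKeyRate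
  refine lt_of_lt_of_le (EReal.coe_pos.mpr hR) ?_
  exact le_iSup₂ (f := fun (R : ℝ) (_ : Achievable (PE a) zE R) => (R : EReal)) R hA

end

end Pool.Agent.SK
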