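import Pool.Agent.Lib_helper40.SK.P.B0
/-! SK block HASH -/

namespace Pool.Agent.SK

noncomputable section

open scoped Classical

theorem hash_row {k : ℕ} (a b : Fin k → ZMod 2) (hab : a ≠ b) :
    (∑ r : Fin k → ZMod 2, if ∑ j, r j * a j = ∑ j, r j * b j then (1 : ℝ) else 0) =
      2 ^ k / 2 := by
  obtain ⟨j0, hj0⟩ := Function.ne_iff.mp hab
  set h : (Fin k → ZMod 2) → ℝ := fun r =>
    if ∑ j, r j * a j = ∑ j, r j * b j then (1 : ℝ) else 0 with hh
  set e : Fin k → ZMod 2 := Pi.single j0 1 with he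
  have h1 : ∀ r : Fin k → ZMod 2, h (r + e) = 1 - h r := by
    intro r
    have ea : ∀ c : Fin k → ZMod 2, ∑ j, (r + e) j * c j = ∑ j, r j * c j + c j0 := by
      intro c
      simp only [Pi.add_apply, add_mul, Finset.sum_add_distrib]
      congr 1
      rw [Finset.sum_eq_single j0]
      · simp [he]
      · intro j _ hj
        simp [he, Pi.single_eq_of_ne hj]
      · simp
    rw [hh]
    simp only [ea]
    generalize ∑ j, r j * a j = x
    generalize ∑ j, r j * b j = y
    generalize a j0 = u at hj0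
    generalize b j0 = v at hj0
    have key : ∀ x y u v : ZMod 2, u ≠ v → (x + u = y + v ↔ ¬ x = y) := by decide
    by_cases hxy : x = y
    · rw [if_pos hxy, if_neg (fun h => (key x y u v hj0).mp h hxy)]
      norm_num
    · rw [if_neg hxy, if_pos ((key x y u v hj0).mpr hxy)]
      norm_num
  have h2 : ∑ r, h (r + e) = ∑ r, h r := Equiv.sum_comp (Equiv.addRight e) h
  simp only [h1] at h2
  rw [Finset.sum_sub_distrib] at h2
  have h3 : (∑ _r : Fin k → ZMod 2, (1 : ℝ)) = 2 ^ k := by
    simp [ZMod.card]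
  rw [h3] at h2
  show ∑ r, h r = _
  linarith

theorem hash_count {s k : ℕ} (a b : Fin k → ZMod 2) (hab : a ≠ b) :
    (∑ S : Fin s → Fin k → ZMod 2, if mv S a = mv S b then (1 : ℝ) else 0) =
      (2 : ℝ) ^ (s * k) / 2 ^ s := by
  have h1 : ∀ S : Fin s → Fin k → ZMod 2, (if mv S a = mv S b then (1 : ℝ) else 0) =
      ∏ i, (if ∑ j, S i j * a j = ∑ j, S i j * b j then (1 : ℝ) else 0) := by
    intro S
    by_cases h : mv S a = mv S b
    · rw [if_pos h]
      symm
      refine Finset.prod_eq_one fun i _ => ?_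
      rw [if_pos (show ∑ j, S i j * a j = ∑ j, S i j * b j from congrFun h i)]
    · rw [if_neg h]
      obtain ⟨i, hi⟩ := Function.ne_iff.mp h
      symm
      refine Finset.prod_eq_zero (Finset.mem_univ i) ?_
      rw [if_neg (show ¬ ∑ j, S i j * a j = ∑ j, S i j * b j from hi)]
  rw [Finset.sum_congr rfl fun S _ => h1 S]
  have h2 := Finset.prod_univ_sum (fun _ : Fin s => (Finset.univ : Finset (Fin k → ZMod 2)))
    (fun _ r => if ∑ j, r j * a j = ∑ j, r j * b j then (1 : ℝ) else 0)
  rw [Fintype.piFinset_univ] at h2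
  rw [← h2, Finset.prod_const, hash_row a b hab, Finset.card_univ, Fintype.card_fin, div_pow,
    ← pow_mul, mul_comm k s]

end

end Pool.Agent.SK
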