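import Pool.Agent.Lib_helper40.SK.P.HASH

namespace Pool.Agent.SK

noncomputable section

open scoped Classical

/-- indicator -/
def LHL1_i {A : Type} (a b : A) : ℝ := if a = b then 1 else 0

theorem LHL1_i_self {A : Type} (a : A) : LHL1_i a a = 1 := if_pos rfl

theorem LHL1_i_ne {A : Type} {a b : A} (h : a ≠ b) : LHL1_i a b = 0 := if_neg h

theorem LHL1_i_sum {A : Type} [Fintype A] (a : A) (f : A → ℝ) : ∑ b, LHL1_i a b * f b = f a := by
  rw [Finset.sum_eq_single a]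
  · rw [LHL1_i_self, one_mul]
  · intro b _ hb
    rw [LHL1_i_ne hb.symm, zero_mul]
  · intro h
    exact absurd (Finset.mem_univ a) h

/-- the signed mass of `(σ, u)` -/
def LHL1_x {s r k : ℕ} (p : (Fin k → ZMod 2) → ℝ) (S : Fin s → Fin k → ZMod 2)
    (T : Fin r → Fin k → ZMod 2) (σ : Fin s → ZMod 2) (u : Fin r → ZMod 2) : ℝ :=
  ∑ a, p a * (LHL1_i (mv S a) σ * (LHL1_i (mv T a) u - 1 / 2 ^ r))

theorem LHL1_card (r : ℕ) : (Fintype.card (Fin r → ZMod 2) : ℝ) = 2 ^ r := by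
  rw [Fintype.card_fun, ZMod.card, Fintype.card_fin]
  push_cast
  rfl

theorem LHL1_card2 (s k : ℕ) : (Fintype.card (Fin s → Fin k → ZMod 2) : ℝ) = 2 ^ (s * k) := by
  rw [Fintype.card_fun, Fintype.card_fun, ZMod.card, Fintype.card_fin, Fintype.card_fin, ← pow_mul,
    mul_comm]
  push_cast
  rfl

theorem LHL1_step1 {s r k : ℕ} (p : (Fin k → ZMod 2) → ℝ) (S : Fin s → Fin k → ZMod 2)
    (T : Fin r → Fin k → ZMod 2) (E : (Fin r → ZMod 2) → (Fin s → ZMod 2) → ℝ) :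
    ∑ a, p a * (E (mv T a) (mv S a) - (∑ u, E u (mv S a)) / 2 ^ r) =
      ∑ σ, ∑ u, E u σ * LHL1_x p S T σ u := by
  have h1 : ∀ σ, ∑ u, E u σ * LHL1_x p S T σ u = ∑ a, p a * (LHL1_i (mv S a) σ *
      (E (mv T a) σ - (∑ u, E u σ) / 2 ^ r)) := by
    intro σ
    simp only [LHL1_x, Finset.mul_sum]
    rw [Finset.sum_comm]
    refine Finset.sum_congr rfl fun a _ => ?_
    have h2 : ∀ u, E u σ * (p a * (LHL1_i (mv S a) σ * (LHL1_i (mv T a) u - 1 / 2 ^ r))) =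
        p a * LHL1_i (mv S a) σ * (LHL1_i (mv T a) u * E u σ) -
          p a * LHL1_i (mv S a) σ / 2 ^ r * E u σ := fun u => by ring
    simp only [h2, Finset.sum_sub_distrib, ← Finset.mul_sum, LHL1_i_sum]
    ring
  simp only [h1]
  rw [Finset.sum_comm]
  refine Finset.sum_congr rfl fun a _ => ?_
  rw [← Finset.mul_sum, LHL1_i_sum (mv S a) (fun σ => E (mv T a) σ - (∑ u, E u σ) / 2 ^ r)]

/-- the squares for fixed `S`, `T` -/
theorem LHL1_step2 {s r k : ℕ} (p : (Fin k → ZMod 2) → ℝ) (S : Fin s → Fin k → ZMod 2)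
    (T : Fin r → Fin k → ZMod 2) :
    ∑ σ, ∑ u, LHL1_x p S T σ u ^ 2 =
      ∑ a, ∑ b, p a * p b * (LHL1_i (mv S a) (mv S b) * (LHL1_i (mv T a) (mv T b) - 1 / 2 ^ r)) := by
  -- use step 1 with `E = x`
  have h1 := LHL1_step1 p S T (fun u σ => LHL1_x p S T σ u)
  have h2 : ∀ σ u, LHL1_x p S T σ u ^ 2 = LHL1_x p S T σ u * LHL1_x p S T σ u := fun σ u => sq _
  simp only [h2]
  rw [← h1]
  refine Finset.sum_congr rfl fun a _ => ?_
  have hpow : (2 : ℝ) ^ r ≠ 0 := by positivity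
  have h3 : ∑ u, LHL1_x p S T (mv S a) u = 0 := by
    simp only [LHL1_x]
    rw [Finset.sum_comm]
    refine Finset.sum_eq_zero fun b _ => ?_
    rw [← Finset.mul_sum, ← Finset.mul_sum, Finset.sum_sub_distrib]
    have h4 : ∑ u : Fin r → ZMod 2, LHL1_i (mv T b) u = 1 := by
      have := LHL1_i_sum (mv T b) (fun _ => (1 : ℝ))
      simpa using this
    rw [h4, Finset.sum_const, Finset.card_univ, nsmul_eq_mul, LHL1_card]
    field_simp
    ring
  rw [h3, zero_div, sub_zero, LHL1_x, Finset.mul_sum]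
  refine Finset.sum_congr rfl fun b _ => ?_
  have h5 : LHL1_i (mv S b) (mv S a) = LHL1_i (mv S a) (mv S b) := by
    by_cases h : mv S a = mv S b
    · rw [h]
    · rw [LHL1_i_ne h, LHL1_i_ne (Ne.symm h)]
  have h6 : LHL1_i (mv T b) (mv T a) = LHL1_i (mv T a) (mv T b) := by
    by_cases h : mv T a = mv T b
    · rw [h]
    · rw [LHL1_i_ne h, LHL1_i_ne (Ne.symm h)]
  rw [h5, h6]
  ring

theorem LHL1_count {s k : ℕ} (a b : Fin k → ZMod 2) (hab : a ≠ b) :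
    ∑ S : Fin s → Fin k → ZMod 2, LHL1_i (mv S a) (mv S b) = (2 : ℝ) ^ (s * k) / 2 ^ s := by
  rw [← hash_count a b hab]
  refine Finset.sum_congr rfl fun S _ => ?_
  by_cases h : mv S a = mv S b
  · rw [if_pos h, h, LHL1_i_self]
  · rw [if_neg h, LHL1_i_ne h]

/-- the average of the squares -/
theorem LHL1_step3 {s r k : ℕ} (p : (Fin k → ZMod 2) → ℝ) :
    ∑ S : Fin s → Fin k → ZMod 2, ∑ T : Fin r → Fin k → ZMod 2, ∑ σ, ∑ u,
      LHL1_x p S T σ u ^ 2 ≤ 2 ^ (s * k) * 2 ^ (r * k) * ∑ a, p a ^ 2 := by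
  simp only [LHL1_step2]
  have h1 : ∑ S : Fin s → Fin k → ZMod 2, ∑ T : Fin r → Fin k → ZMod 2, ∑ a, ∑ b,
      p a * p b * (LHL1_i (mv S a) (mv S b) * (LHL1_i (mv T a) (mv T b) - 1 / 2 ^ r)) =
      ∑ a, ∑ b, p a * p b * ((∑ S : Fin s → Fin k → ZMod 2, LHL1_i (mv S a) (mv S b)) *
        ∑ T : Fin r → Fin k → ZMod 2, (LHL1_i (mv T a) (mv T b) - 1 / 2 ^ r)) := by
    have e1 : ∀ S : Fin s → Fin k → ZMod 2, ∑ T : Fin r → Fin k → ZMod 2, ∑ a, ∑ b,
        p a * p b * (LHL1_i (mv S a) (mv S b) * (LHL1_i (mv T a) (mv T b) - 1 / 2 ^ r)) =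
        ∑ a, ∑ b, p a * p b * (LHL1_i (mv S a) (mv S b) *
          ∑ T : Fin r → Fin k → ZMod 2, (LHL1_i (mv T a) (mv T b) - 1 / 2 ^ r)) := by
      intro S
      rw [Finset.sum_comm]
      refine Finset.sum_congr rfl fun a _ => ?_
      rw [Finset.sum_comm]
      refine Finset.sum_congr rfl fun b _ => ?_
      rw [← Finset.mul_sum, ← Finset.mul_sum]
    simp only [e1]
    rw [Finset.sum_comm]
    refine Finset.sum_congr rfl fun a _ => ?_
    rw [Finset.sum_comm]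
    refine Finset.sum_congr rfl fun b _ => ?_
    rw [← Finset.mul_sum, ← Finset.sum_mul]
  rw [h1, Finset.mul_sum]
  refine Finset.sum_le_sum fun a _ => ?_
  have hpow : (2 : ℝ) ^ r ≠ 0 := by positivity
  rw [Finset.sum_eq_single a]
  · have e1 : ∑ S : Fin s → Fin k → ZMod 2, LHL1_i (mv S a) (mv S a) = (2 : ℝ) ^ (s * k) := by
      simp only [LHL1_i_self]
      rw [Finset.sum_const, Finset.card_univ, nsmul_eq_mul, LHL1_card2, mul_one]
    have e2 : ∑ T : Fin r → Fin k → ZMod 2, (LHL1_i (mv T a) (mv T a) - 1 / 2 ^ r) =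
        (2 : ℝ) ^ (r * k) * (1 - 1 / 2 ^ r) := by
      simp only [LHL1_i_self]
      rw [Finset.sum_const, Finset.card_univ, nsmul_eq_mul, LHL1_card2]
    rw [e1, e2]
    have h2 : (0 : ℝ) ≤ 1 / 2 ^ r := by positivity
    have h3 : (0 : ℝ) ≤ 2 ^ (s * k) * 2 ^ (r * k) * p a ^ 2 := by positivity
    have h4 : p a * p a * (2 ^ (s * k) * (2 ^ (r * k) * (1 - 1 / 2 ^ r))) =
        2 ^ (s * k) * 2 ^ (r * k) * p a ^ 2 -
          (2 ^ (s * k) * 2 ^ (r * k) * p a ^ 2) * (1 / 2 ^ r) := by ring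
    rw [h4]
    have h5 := mul_nonneg h3 h2
    linarith
  · intro b _ hb
    have e2 : ∑ T : Fin r → Fin k → ZMod 2, (LHL1_i (mv T a) (mv T b) - 1 / 2 ^ r) = (0 : ℝ) := by
      rw [Finset.sum_sub_distrib, LHL1_count a b hb.symm, Finset.sum_const, Finset.card_univ,
        nsmul_eq_mul, LHL1_card2]
      ring
    rw [e2]
    ring
  · intro h
    exact absurd (Finset.mem_univ a) h

/-- leftover hash lemma for a fixed sub-distribution `p` on `(ZMod 2)^k` -/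
theorem lhl_one {s r k : ℕ} (p : (Fin k → ZMod 2) → ℝ) (hp : ∀ a, 0 ≤ p a)
    (D : (Fin r → ZMod 2) → (Fin s → Fin k → ZMod 2) → (Fin r → Fin k → ZMod 2) →
      (Fin s → ZMod 2) → ℝ) (hD : ∀ u S T σ, 0 ≤ D u S T σ ∧ D u S T σ ≤ 1) :
    |∑ a, ∑ S : Fin s → Fin k → ZMod 2, ∑ T : Fin r → Fin k → ZMod 2,
        p a / 2 ^ (s * k) / 2 ^ (r * k) *
          (D (mv T a) S T (mv S a) - (∑ u, D u S T (mv S a)) / 2 ^ r)| ≤
      2 * Real.sqrt (2 ^ (s + r) * ∑ a, p a ^ 2) := by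
  set W : ℝ := 2 ^ (s * k) * 2 ^ (r * k) with hW
  have hWpos : 0 < W := by positivity
  -- rewriting
  have h1 : ∑ a, ∑ S : Fin s → Fin k → ZMod 2, ∑ T : Fin r → Fin k → ZMod 2,
        p a / 2 ^ (s * k) / 2 ^ (r * k) *
          (D (mv T a) S T (mv S a) - (∑ u, D u S T (mv S a)) / 2 ^ r) =
      (∑ S : Fin s → Fin k → ZMod 2, ∑ T : Fin r → Fin k → ZMod 2, ∑ σ, ∑ u,
        D u S T σ * LHL1_x p S T σ u) / W := by
    rw [Finset.sum_comm, Finset.sum_div]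
    refine Finset.sum_congr rfl fun S _ => ?_
    rw [Finset.sum_comm, Finset.sum_div]
    refine Finset.sum_congr rfl fun T _ => ?_
    rw [← LHL1_step1 p S T (fun u σ => D u S T σ), Finset.sum_div]
    refine Finset.sum_congr rfl fun a _ => ?_
    rw [hW]
    field_simp
  -- absolute values
  have h2 : |∑ S : Fin s → Fin k → ZMod 2, ∑ T : Fin r → Fin k → ZMod 2, ∑ σ, ∑ u,
        D u S T σ * LHL1_x p S T σ u| ≤
      ∑ S : Fin s → Fin k → ZMod 2, ∑ T : Fin r → Fin k → ZMod 2, ∑ σ, ∑ u,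
        |LHL1_x p S T σ u| := by
    refine (Finset.abs_sum_le_sum_abs _ _).trans (Finset.sum_le_sum fun S _ => ?_)
    refine (Finset.abs_sum_le_sum_abs _ _).trans (Finset.sum_le_sum fun T _ => ?_)
    refine (Finset.abs_sum_le_sum_abs _ _).trans (Finset.sum_le_sum fun σ _ => ?_)
    refine (Finset.abs_sum_le_sum_abs _ _).trans (Finset.sum_le_sum fun u _ => ?_)
    rw [abs_mul, abs_of_nonneg (hD u S T σ).1]
    calc D u S T σ * |LHL1_x p S T σ u| ≤ 1 * |LHL1_x p S T σ u| :=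
          mul_le_mul_of_nonneg_right (hD u S T σ).2 (abs_nonneg _)
      _ = |LHL1_x p S T σ u| := one_mul _
  -- Cauchy-Schwarz
  have h3 : (∑ S : Fin s → Fin k → ZMod 2, ∑ T : Fin r → Fin k → ZMod 2, ∑ σ, ∑ u,
        |LHL1_x p S T σ u|) ^ 2 ≤ (W * (2 ^ s * 2 ^ r)) *
      ∑ S : Fin s → Fin k → ZMod 2, ∑ T : Fin r → Fin k → ZMod 2, ∑ σ, ∑ u,
        LHL1_x p S T σ u ^ 2 := by
    have h4 := sq_sum_le_card_mul_sum_sq (s := (Finset.univ : Finset
      ((Fin s → Fin k → ZMod 2) × (Fin r → Fin k → ZMod 2) × (Fin s → ZMod 2) × (Fin r → ZMod 2))))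
      (f := fun t => |LHL1_x p t.1 t.2.1 t.2.2.1 t.2.2.2|)
    simp only [Fintype.sum_prod_type, sq_abs] at h4
    have hc : ((Finset.univ : Finset ((Fin s → Fin k → ZMod 2) × (Fin r → Fin k → ZMod 2) ×
        (Fin s → ZMod 2) × (Fin r → ZMod 2))).card : ℝ) = W * (2 ^ s * 2 ^ r) := by
      rw [Finset.card_univ, Fintype.card_prod, Fintype.card_prod, Fintype.card_prod]
      push_cast
      rw [hW, LHL1_card2, LHL1_card2, LHL1_card, LHL1_card]
      ring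
    rw [hc] at h4
    exact h4
  have h5 := LHL1_step3 (s := s) (r := r) p
  have h6 : (∑ S : Fin s → Fin k → ZMod 2, ∑ T : Fin r → Fin k → ZMod 2, ∑ σ, ∑ u,
        |LHL1_x p S T σ u|) ^ 2 ≤ W ^ 2 * (2 ^ (s + r) * ∑ a, p a ^ 2) := by
    refine h3.trans ?_
    have h7 : (0 : ℝ) ≤ W * (2 ^ s * 2 ^ r) := by positivity
    refine (mul_le_mul_of_nonneg_left h5 h7).trans (le_of_eq ?_)
    rw [← hW, pow_add]
    ring
  have h8 : ∑ S : Fin s → Fin k → ZMod 2, ∑ T : Fin r → Fin k → ZMod 2, ∑ σ, ∑ u,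
        |LHL1_x p S T σ u| ≤ W * Real.sqrt (2 ^ (s + r) * ∑ a, p a ^ 2) := by
    have h9 := Real.le_sqrt_of_sq_le h6
    rwa [Real.sqrt_mul (by positivity), Real.sqrt_sq hWpos.le] at h9
  rw [h1, abs_div, abs_of_pos hWpos, div_le_iff₀ hWpos]
  have h10 : 0 ≤ Real.sqrt (2 ^ (s + r) * ∑ a, p a ^ 2) := Real.sqrt_nonneg _
  have h11 : 0 ≤ W * Real.sqrt (2 ^ (s + r) * ∑ a, p a ^ 2) := mul_nonneg hWpos.le h10
  linarith [h2.trans h8]

end

end Pool.Agent.SK
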