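import Pool.Agent.Lib_helper40.SK.P.B0

namespace Pool.Agent.SK

noncomputable section

open scoped Classical

/-- the index equivalence -/
def regIdx {m k N : ℕ} (h : k * m ≤ N) : Fin N ≃ (Fin k × Fin m) ⊕ Fin (N - k * m) :=
  ((finCongr (by omega : N = k * m + (N - k * m))).trans finSumFinEquiv.symm).trans
    (Equiv.sumCongr finProdFinEquiv.symm (Equiv.refl _))

/-- the equivalence of words -/
def regWord {m k N : ℕ} (h : k * m ≤ N) (X : Type) :
    (Fin N → X) ≃ (Fin k → Fin m → X) × (Fin (N - k * m) → X) :=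
  ((Equiv.arrowCongr (regIdx h) (Equiv.refl X)).trans
    (Equiv.sumArrowEquivProdArrow _ _ _)).trans
    (Equiv.prodCongr (Equiv.curry _ _ _) (Equiv.refl _))

theorem regWord_fst {m k N : ℕ} (h : k * m ≤ N) {X : Type} (x : Fin N → X) (i : Fin k)
    (j : Fin m) : (regWord h X x).1 i j = x ((regIdx h).symm (Sum.inl (i, j))) := rfl

theorem regWord_snd {m k N : ℕ} (h : k * m ≤ N) {X : Type} (x : Fin N → X)
    (j : Fin (N - k * m)) : (regWord h X x).2 j = x ((regIdx h).symm (Sum.inr j)) := rfl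

theorem regroup {X Y : Type} [Fintype X] [Fintype Y] (P : X → Y → ℝ)
    {m k N : ℕ} (h : k * m ≤ N) :
    ∃ (l : ℕ) (eX : (Fin N → X) ≃ (Fin k → Fin m → X) × (Fin l → X))
      (eY : (Fin N → Y) ≃ (Fin k → Fin m → Y) × (Fin l → Y)),
      (∀ x y, (∏ i, P (x i) (y i)) = (∏ i, pw (Fin m) P ((eX x).1 i) ((eY y).1 i)) *
        pw (Fin l) P (eX x).2 (eY y).2) ∧
      ∀ {Z : Type} (zf : X → Y → Z),
        ∃ eZ : (Fin N → Z) ≃ (Fin k → Fin m → Z) × (Fin l → Z), ∀ x y,
          eZ (fun i => zf (x i) (y i)) =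
            (fun i => zw (Fin m) zf ((eX x).1 i) ((eY y).1 i),
              zw (Fin l) zf (eX x).2 (eY y).2) := by
  refine ⟨N - k * m, regWord h X, regWord h Y, ?_, ?_⟩
  · intro x y
    rw [← Equiv.prod_comp (regIdx h).symm, Fintype.prod_sum_type, Fintype.prod_prod_type]
    rfl
  · intro Z zf
    exact ⟨regWord h Z, fun x y => rfl⟩

end

end Pool.Agent.SK
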