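import Pool.Agent.Lib_helper40.SK.P.B0

namespace Pool.Agent.SK

noncomputable section

open scoped Classical

theorem T2_w_nonneg (a : ℝ) (ha : 0 < a) (x y : Fin 4) : 0 ≤ w a x y := by
  unfold w
  split_ifs <;> first | positivity | exact le_of_lt ha

theorem IsP_PE (a : ℝ) (ha : 0 < a) : IsP (PE a) := by
  have h8 : (1 + 8 * a) ≠ 0 := by positivity
  constructor
  · intro x y
    exact div_nonneg (T2_w_nonneg a ha x y) (by positivity)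
  · simp only [PE, Fin.sum_univ_four]
    have e0 : (0 : Fin 4).val = 0 := rfl
    have e1 : (1 : Fin 4).val = 1 := rfl
    have e2 : (2 : Fin 4).val = 2 := rfl
    have e3 : (3 : Fin 4).val = 3 := rfl
    simp [w, e0, e1, e2, e3]
    field_simp
    ring

theorem T2_Bt_smul {X Y : Type} [Fintype X] [Fintype Y] (P : X → Y → ℝ) (f : X → ℝ) (g : Y → ℝ)
    (s r : ℝ) : Bt P (fun x => s * f x) (fun y => r * g y) = s * r * Bt P f g := by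
  unfold Bt
  rw [Finset.mul_sum]
  refine Finset.sum_congr rfl fun x _ => ?_
  rw [Finset.mul_sum]
  refine Finset.sum_congr rfl fun y _ => ?_
  ring

theorem T2_Bz_smul {X Y Z : Type} [Fintype X] [Fintype Y] (P : X → Y → ℝ) (zf : X → Y → Z)
    (f : X → ℝ) (g : Y → ℝ) (z : Z) (s r : ℝ) :
    Bz P zf (fun x => s * f x) (fun y => r * g y) z = s * r * Bz P zf f g z := by
  unfold Bz
  rw [Finset.mul_sum]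
  refine Finset.sum_congr rfl fun x _ => ?_
  rw [Finset.mul_sum]
  refine Finset.sum_congr rfl fun y _ => ?_
  split_ifs <;> ring

theorem T2_scale {X : Type} [Fintype X] (f0 f1 : X → ℝ) (h0 : ∀ x, 0 ≤ f0 x)
    (h1 : ∀ x, 0 ≤ f1 x) : ∃ s : ℝ, 0 < s ∧ Tern (fun x => s * f0 x) (fun x => s * f1 x) := by
  have hS : 0 ≤ ∑ x, (f0 x + f1 x) := Finset.sum_nonneg fun x _ => add_nonneg (h0 x) (h1 x)
  refine ⟨1 / (1 + ∑ x, (f0 x + f1 x)), by positivity, fun x => ⟨?_, ?_, ?_⟩⟩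
  · exact mul_nonneg (by positivity) (h0 x)
  · exact mul_nonneg (by positivity) (h1 x)
  · have hx : f0 x + f1 x ≤ ∑ x, (f0 x + f1 x) :=
      Finset.single_le_sum (f := fun x => f0 x + f1 x)
        (fun x _ => add_nonneg (h0 x) (h1 x)) (Finset.mem_univ x)
    show 1 / (1 + ∑ x, (f0 x + f1 x)) * f0 x + 1 / (1 + ∑ x, (f0 x + f1 x)) * f1 x ≤ 1
    rw [← mul_add, one_div, inv_mul_le_iff₀ (by positivity)]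
    linarith

/-- scaling: only nonnegativity is needed -/
theorem T2_TV_of_nonneg {X Y Z : Type} [Fintype X] [Fintype Y] [Fintype Z] (P : X → Y → ℝ)
    (zf : X → Y → Z) (f0 f1 : X → ℝ) (g0 g1 : Y → ℝ) (hf0 : ∀ x, 0 ≤ f0 x)
    (hf1 : ∀ x, 0 ≤ f1 x) (hg0 : ∀ x, 0 ≤ g0 x) (hg1 : ∀ x, 0 ≤ g1 x)
    (h : Real.sqrt (Bt P f0 g1 * Bt P f1 g0) <
      ∑ z, Real.sqrt (Bz P zf f0 g0 z * Bz P zf f1 g1 z)) : TV P zf := by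
  obtain ⟨s, hs, hT⟩ := T2_scale f0 f1 hf0 hf1
  obtain ⟨r, hr, hT'⟩ := T2_scale g0 g1 hg0 hg1
  refine ⟨_, _, _, _, hT, hT', ?_⟩
  have hsr : 0 < s * r := mul_pos hs hr
  rw [T2_Bt_smul, T2_Bt_smul]
  have e1 : s * r * Bt P f0 g1 * (s * r * Bt P f1 g0) =
      (s * r) ^ 2 * (Bt P f0 g1 * Bt P f1 g0) := by ring
  rw [e1, Real.sqrt_mul (by positivity), Real.sqrt_sq hsr.le]
  have e2 : ∀ z, Real.sqrt (Bz P zf (fun x => s * f0 x) (fun x => r * g0 x) z *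
      Bz P zf (fun x => s * f1 x) (fun x => r * g1 x) z) =
      s * r * Real.sqrt (Bz P zf f0 g0 z * Bz P zf f1 g1 z) := by
    intro z
    rw [T2_Bz_smul, T2_Bz_smul]
    have e1 : s * r * Bz P zf f0 g0 z * (s * r * Bz P zf f1 g1 z) =
        (s * r) ^ 2 * (Bz P zf f0 g0 z * Bz P zf f1 g1 z) := by ring
    rw [e1, Real.sqrt_mul (by positivity), Real.sqrt_sq hsr.le]
  rw [Finset.sum_congr rfl fun z _ => e2 z, ← Finset.mul_sum]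
  exact mul_lt_mul_of_pos_left h hsr

section lower

variable {X Y Z : Type} [Fintype X] [Fintype Y] (P : X → Y → ℝ) (zf : X → Y → Z)
  (f : X → ℝ) (g : Y → ℝ) (hP : ∀ x y, 0 ≤ P x y) (hf : ∀ x, 0 ≤ f x) (hg : ∀ x, 0 ≤ g x)

include hP hf hg

theorem T2_Bz_eq (z : Z) : Bz P zf f g z = ∑ p : X × Y,
    if zf p.1 p.2 = z then P p.1 p.2 * f p.1 * g p.2 else 0 := by
  unfold Bz
  rw [Fintype.sum_prod_type]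

theorem T2_term_nonneg (z : Z) (p : X × Y) :
    0 ≤ if zf p.1 p.2 = z then P p.1 p.2 * f p.1 * g p.2 else 0 := by
  split_ifs
  · exact mul_nonneg (mul_nonneg (hP _ _) (hf _)) (hg _)
  · exact le_refl 0

theorem T2_Bz_nonneg (z : Z) : 0 ≤ Bz P zf f g z := by
  rw [T2_Bz_eq P zf f g hP hf hg]
  exact Finset.sum_nonneg fun p _ => T2_term_nonneg P zf f g hP hf hg z p

theorem T2_ge_one (z : Z) (x : X) (y : Y) (h : zf x y = z) :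
    P x y * f x * g y ≤ Bz P zf f g z := by
  rw [T2_Bz_eq P zf f g hP hf hg]
  have := Finset.single_le_sum (f := fun p : X × Y =>
    if zf p.1 p.2 = z then P p.1 p.2 * f p.1 * g p.2 else 0)
    (fun p _ => T2_term_nonneg P zf f g hP hf hg z p) (Finset.mem_univ (x, y))
  simpa [h] using this

theorem T2_ge_two (z : Z) (x x' : X) (y y' : Y) (h : zf x y = z) (h' : zf x' y' = z)
    (hne : (x, y) ≠ (x', y')) :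
    P x y * f x * g y + P x' y' * f x' * g y' ≤ Bz P zf f g z := by
  rw [T2_Bz_eq P zf f g hP hf hg]
  have := Finset.sum_le_sum_of_subset_of_nonneg (f := fun p : X × Y =>
    if zf p.1 p.2 = z then P p.1 p.2 * f p.1 * g p.2 else 0)
    (Finset.subset_univ ({(x, y), (x', y')} : Finset (X × Y)))
    (fun p _ _ => T2_term_nonneg P zf f g hP hf hg z p)
  rw [Finset.sum_pair hne] at this
  simpa [h, h'] using this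

end lower


/-! ### the words and the weight functions -/

/-- Alice's and Bob's functions of two letters -/
def T2_F0 (q τ k : ℝ) : Fin 4 → Fin 4 → ℝ :=
  ![![0, 1, 1, 0], ![1, 0, 0, 0], ![1, 0, q, 0], ![0, 0, 0, k / τ]]

def T2_F1 (q k : ℝ) : Fin 4 → Fin 4 → ℝ :=
  ![![1, 0, 1, 0], ![0, 1, 0, 0], ![1, 0, q, 0], ![0, 0, 0, k]]

def T2_G0 (t k : ℝ) : Fin 4 → Fin 4 → ℝ :=
  ![![t, 0, 1, 0], ![0, 0, 1, 0], ![1, 1, 0, 0], ![0, 0, 0, t / (4 * k)]]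

def T2_G1 (t τ : ℝ) : Fin 4 → Fin 4 → ℝ :=
  ![![τ * t, 0, 1, 0], ![0, 0, 1, 0], ![1, 1, 0, 0], ![0, 0, 0, 0]]

/-- function of two letters as a function of the word -/
def T2_wd (F : Fin 4 → Fin 4 → ℝ) : (Fin 2 → Fin 4) → ℝ := fun x => F (x 0) (x 1)

/-- `8 w` -/
def T2_W (c : ℝ) : Fin 4 → Fin 4 → ℝ :=
  ![![1, 1, c, c], ![1, 1, c, c], ![c, c, 2, 0], ![c, c, 0, 2]]

theorem T2_PE_eq (a : ℝ) (ha : 0 < a) (x y : Fin 4) :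
    PE a x y = T2_W (8 * a) x y / (8 * (1 + 8 * a)) := by
  have h8 : (1 + 8 * a) ≠ 0 := by positivity
  unfold PE
  rw [div_eq_div_iff h8 (by positivity)]
  fin_cases x <;> fin_cases y <;> simp [w, T2_W] <;> ring

/-- unnormalised law -/
def T2_Q (c : ℝ) : (Fin 2 → Fin 4) → (Fin 2 → Fin 4) → ℝ :=
  fun x y => T2_W c (x 0) (y 0) * T2_W c (x 1) (y 1)

theorem T2_pw_eq (a : ℝ) (ha : 0 < a) (x y : Fin 2 → Fin 4) :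
    pw (Fin 2) (PE a) x y = (1 / (8 * (1 + 8 * a))) ^ 2 * T2_Q (8 * a) x y := by
  unfold pw T2_Q
  rw [Fin.prod_univ_two, T2_PE_eq a ha, T2_PE_eq a ha]
  ring

theorem T2_W_nonneg (c : ℝ) (hc : 0 < c) (x y : Fin 4) : 0 ≤ T2_W c x y := by
  fin_cases x <;> fin_cases y <;> simp [T2_W, hc.le]

theorem T2_Q_nonneg (c : ℝ) (hc : 0 < c) (x y : Fin 2 → Fin 4) : 0 ≤ T2_Q c x y :=
  mul_nonneg (T2_W_nonneg c hc _ _) (T2_W_nonneg c hc _ _)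

theorem T2_sum_wd (h : (Fin 2 → Fin 4) → ℝ) : ∑ x, h x = ∑ i, ∑ j, h ![i, j] := by
  rw [← Fintype.sum_prod_type']
  exact Fintype.sum_equiv (finTwoArrowEquiv (Fin 4)) _ _ (fun x => by
    congr 1
    ext i
    fin_cases i <;> rfl)

theorem T2_Bt (c : ℝ) (F G : Fin 4 → Fin 4 → ℝ) :
    Bt (T2_Q c) (T2_wd F) (T2_wd G) =
      ∑ i, ∑ j, ∑ i', ∑ j', T2_W c i i' * T2_W c j j' * F i j * G i' j' := by
  unfold Bt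
  rw [T2_sum_wd]
  refine Finset.sum_congr rfl fun i _ => Finset.sum_congr rfl fun j _ => ?_
  rw [T2_sum_wd]
  rfl

theorem T2_B01 (c q k τ t : ℝ) (hτ : τ ≠ 0) :
    Bt (T2_Q c) (T2_wd (T2_F0 q τ k)) (T2_wd (T2_G1 t τ)) =
      8 * c + 8 + 4 * c ^ 2 + 8 * c * q + 2 * τ * t + 2 * c * τ * t + q * c ^ 2 * τ * t +
        k * c ^ 2 * t := by
  rw [T2_Bt]
  simp only [Fin.sum_univ_four, T2_F0, T2_G1, T2_W]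
  simp
  field_simp
  ring

theorem T2_B10 (c q k τ t : ℝ) (hk : k ≠ 0) :
    Bt (T2_Q c) (T2_wd (T2_F1 q k)) (T2_wd (T2_G0 t k)) =
      8 * c + 8 + 4 * c ^ 2 + 8 * c * q + 2 * t + 2 * c * t + q * c ^ 2 * t +
        k * c ^ 2 * t + 2 * c ^ 2 * (t / (4 * k)) + t := by
  rw [T2_Bt]
  simp only [Fin.sum_univ_four, T2_F1, T2_G0, T2_W]
  simp
  field_simp
  ring

def T2_zz : Fin 21 → (Fin 2 → Fin 2 ⊕ (Fin 4 × Fin 4)) :=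
  ![![Sum.inl 0, Sum.inr (1, 2)],
    ![Sum.inl 1, Sum.inr (1, 2)],
    ![Sum.inr (0, 2), Sum.inl 1],
    ![Sum.inr (0, 2), Sum.inl 0],
    ![Sum.inl 1, Sum.inr (0, 2)],
    ![Sum.inl 0, Sum.inr (0, 2)],
    ![Sum.inr (1, 2), Sum.inl 0],
    ![Sum.inr (1, 2), Sum.inl 1],
    ![Sum.inr (0, 2), Sum.inr (2, 0)],
    ![Sum.inr (0, 2), Sum.inr (2, 1)],
    ![Sum.inr (2, 0), Sum.inr (0, 2)],
    ![Sum.inr (2, 1), Sum.inr (0, 2)],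
    ![Sum.inl 0, Sum.inl 0],
    ![Sum.inl 1, Sum.inl 0],
    ![Sum.inl 0, Sum.inl 1],
    ![Sum.inl 1, Sum.inl 1],
    ![Sum.inl 0, Sum.inr (2, 0)],
    ![Sum.inr (2, 0), Sum.inl 0],
    ![Sum.inr (2, 1), Sum.inl 0],
    ![Sum.inl 0, Sum.inr (2, 1)],
    ![Sum.inr (3, 0), Sum.inr (3, 0)]]

def T2_v (c q k t : ℝ) : Fin 21 → ℝ :=
  ![c,
    c,
    c,
    c,
    c,
    c,
    c,
    c,
    c * c,
    c * c,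
    c * c,
    c * c,
    4,
    2 + t / 2 - t ^ 2 / 16,
    2 + t / 2 - t ^ 2 / 16,
    t,
    2 * c * q + c * t / 2 - (c * t) ^ 2 / (16 * c * q),
    2 * c * q + c * t / 2 - (c * t) ^ 2 / (16 * c * q),
    2 * c * q,
    2 * c * q,
    k * c ^ 2 * t]

theorem T2_b0_0 (c q k τ t : ℝ) (hQ : ∀ x y, 0 ≤ T2_Q c x y)
    (hF : ∀ x, 0 ≤ T2_wd (T2_F0 q τ k) x) (hG : ∀ x, 0 ≤ T2_wd (T2_G0 t k) x) :
    c ≤ Bz (T2_Q c) (zw (Fin 2) zE) (T2_wd (T2_F0 q τ k)) (T2_wd (T2_G0 t k))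
      (![Sum.inl 0, Sum.inr (1, 2)] : Fin 2 → Fin 2 ⊕ (Fin 4 × Fin 4)) := by
  have h := T2_ge_one (T2_Q c) (zw (Fin 2) zE) (T2_wd (T2_F0 q τ k)) (T2_wd (T2_G0 t k)) hQ hF hG
        (![Sum.inl 0, Sum.inr (1, 2)] : Fin 2 → Fin 2 ⊕ (Fin 4 × Fin 4)) ![0, 1] ![0, 2] (by funext i; fin_cases i <;> rfl)
  simpa [T2_Q, T2_wd, T2_F0, T2_G0, T2_W] using h

theorem T2_b0_1 (c q k τ t : ℝ) (hQ : ∀ x y, 0 ≤ T2_Q c x y)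
    (hF : ∀ x, 0 ≤ T2_wd (T2_F1 q k) x) (hG : ∀ x, 0 ≤ T2_wd (T2_G1 t τ) x) :
    c ≤ Bz (T2_Q c) (zw (Fin 2) zE) (T2_wd (T2_F1 q k)) (T2_wd (T2_G1 t τ))
      (![Sum.inl 0, Sum.inr (1, 2)] : Fin 2 → Fin 2 ⊕ (Fin 4 × Fin 4)) := by
  have h := T2_ge_one (T2_Q c) (zw (Fin 2) zE) (T2_wd (T2_F1 q k)) (T2_wd (T2_G1 t τ)) hQ hF hG
        (![Sum.inl 0, Sum.inr (1, 2)] : Fin 2 → Fin 2 ⊕ (Fin 4 × Fin 4)) ![1, 1] ![1, 2] (by funext i; fin_cases i <;> rfl)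
  simpa [T2_Q, T2_wd, T2_F1, T2_G1, T2_W] using h

theorem T2_b1_0 (c q k τ t : ℝ) (hQ : ∀ x y, 0 ≤ T2_Q c x y)
    (hF : ∀ x, 0 ≤ T2_wd (T2_F0 q τ k) x) (hG : ∀ x, 0 ≤ T2_wd (T2_G0 t k) x) :
    c ≤ Bz (T2_Q c) (zw (Fin 2) zE) (T2_wd (T2_F0 q τ k)) (T2_wd (T2_G0 t k))
      (![Sum.inl 1, Sum.inr (1, 2)] : Fin 2 → Fin 2 ⊕ (Fin 4 × Fin 4)) := by
  have h := T2_ge_one (T2_Q c) (zw (Fin 2) zE) (T2_wd (T2_F0 q τ k)) (T2_wd (T2_G0 t k)) hQ hF hG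
        (![Sum.inl 1, Sum.inr (1, 2)] : Fin 2 → Fin 2 ⊕ (Fin 4 × Fin 4)) ![0, 1] ![1, 2] (by funext i; fin_cases i <;> rfl)
  simpa [T2_Q, T2_wd, T2_F0, T2_G0, T2_W] using h

theorem T2_b1_1 (c q k τ t : ℝ) (hQ : ∀ x y, 0 ≤ T2_Q c x y)
    (hF : ∀ x, 0 ≤ T2_wd (T2_F1 q k) x) (hG : ∀ x, 0 ≤ T2_wd (T2_G1 t τ) x) :
    c ≤ Bz (T2_Q c) (zw (Fin 2) zE) (T2_wd (T2_F1 q k)) (T2_wd (T2_G1 t τ))
      (![Sum.inl 1, Sum.inr (1, 2)] : Fin 2 → Fin 2 ⊕ (Fin 4 × Fin 4)) := by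
  have h := T2_ge_one (T2_Q c) (zw (Fin 2) zE) (T2_wd (T2_F1 q k)) (T2_wd (T2_G1 t τ)) hQ hF hG
        (![Sum.inl 1, Sum.inr (1, 2)] : Fin 2 → Fin 2 ⊕ (Fin 4 × Fin 4)) ![1, 1] ![0, 2] (by funext i; fin_cases i <;> rfl)
  simpa [T2_Q, T2_wd, T2_F1, T2_G1, T2_W] using h

theorem T2_b2_0 (c q k τ t : ℝ) (hQ : ∀ x y, 0 ≤ T2_Q c x y)
    (hF : ∀ x, 0 ≤ T2_wd (T2_F0 q τ k) x) (hG : ∀ x, 0 ≤ T2_wd (T2_G0 t k) x) :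
    c ≤ Bz (T2_Q c) (zw (Fin 2) zE) (T2_wd (T2_F0 q τ k)) (T2_wd (T2_G0 t k))
      (![Sum.inr (0, 2), Sum.inl 1] : Fin 2 → Fin 2 ⊕ (Fin 4 × Fin 4)) := by
  have h := T2_ge_one (T2_Q c) (zw (Fin 2) zE) (T2_wd (T2_F0 q τ k)) (T2_wd (T2_G0 t k)) hQ hF hG
        (![Sum.inr (0, 2), Sum.inl 1] : Fin 2 → Fin 2 ⊕ (Fin 4 × Fin 4)) ![0, 1] ![2, 0] (by funext i; fin_cases i <;> rfl)
  simpa [T2_Q, T2_wd, T2_F0, T2_G0, T2_W] using h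

theorem T2_b2_1 (c q k τ t : ℝ) (hQ : ∀ x y, 0 ≤ T2_Q c x y)
    (hF : ∀ x, 0 ≤ T2_wd (T2_F1 q k) x) (hG : ∀ x, 0 ≤ T2_wd (T2_G1 t τ) x) :
    c ≤ Bz (T2_Q c) (zw (Fin 2) zE) (T2_wd (T2_F1 q k)) (T2_wd (T2_G1 t τ))
      (![Sum.inr (0, 2), Sum.inl 1] : Fin 2 → Fin 2 ⊕ (Fin 4 × Fin 4)) := by
  have h := T2_ge_one (T2_Q c) (zw (Fin 2) zE) (T2_wd (T2_F1 q k)) (T2_wd (T2_G1 t τ)) hQ hF hG
        (![Sum.inr (0, 2), Sum.inl 1] : Fin 2 → Fin 2 ⊕ (Fin 4 × Fin 4)) ![0, 0] ![2, 1] (by funext i; fin_cases i <;> rfl)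
  simpa [T2_Q, T2_wd, T2_F1, T2_G1, T2_W] using h

theorem T2_b3_0 (c q k τ t : ℝ) (hQ : ∀ x y, 0 ≤ T2_Q c x y)
    (hF : ∀ x, 0 ≤ T2_wd (T2_F0 q τ k) x) (hG : ∀ x, 0 ≤ T2_wd (T2_G0 t k) x) :
    c ≤ Bz (T2_Q c) (zw (Fin 2) zE) (T2_wd (T2_F0 q τ k)) (T2_wd (T2_G0 t k))
      (![Sum.inr (0, 2), Sum.inl 0] : Fin 2 → Fin 2 ⊕ (Fin 4 × Fin 4)) := by
  have h := T2_ge_one (T2_Q c) (zw (Fin 2) zE) (T2_wd (T2_F0 q τ k)) (T2_wd (T2_G0 t k)) hQ hF hG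
        (![Sum.inr (0, 2), Sum.inl 0] : Fin 2 → Fin 2 ⊕ (Fin 4 × Fin 4)) ![0, 1] ![2, 1] (by funext i; fin_cases i <;> rfl)
  simpa [T2_Q, T2_wd, T2_F0, T2_G0, T2_W] using h

theorem T2_b3_1 (c q k τ t : ℝ) (hQ : ∀ x y, 0 ≤ T2_Q c x y)
    (hF : ∀ x, 0 ≤ T2_wd (T2_F1 q k) x) (hG : ∀ x, 0 ≤ T2_wd (T2_G1 t τ) x) :
    c ≤ Bz (T2_Q c) (zw (Fin 2) zE) (T2_wd (T2_F1 q k)) (T2_wd (T2_G1 t τ))
      (![Sum.inr (0, 2), Sum.inl 0] : Fin 2 → Fin 2 ⊕ (Fin 4 × Fin 4)) := by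
  have h := T2_ge_one (T2_Q c) (zw (Fin 2) zE) (T2_wd (T2_F1 q k)) (T2_wd (T2_G1 t τ)) hQ hF hG
        (![Sum.inr (0, 2), Sum.inl 0] : Fin 2 → Fin 2 ⊕ (Fin 4 × Fin 4)) ![0, 0] ![2, 0] (by funext i; fin_cases i <;> rfl)
  simpa [T2_Q, T2_wd, T2_F1, T2_G1, T2_W] using h

theorem T2_b4_0 (c q k τ t : ℝ) (hQ : ∀ x y, 0 ≤ T2_Q c x y)
    (hF : ∀ x, 0 ≤ T2_wd (T2_F0 q τ k) x) (hG : ∀ x, 0 ≤ T2_wd (T2_G0 t k) x) :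
    c ≤ Bz (T2_Q c) (zw (Fin 2) zE) (T2_wd (T2_F0 q τ k)) (T2_wd (T2_G0 t k))
      (![Sum.inl 1, Sum.inr (0, 2)] : Fin 2 → Fin 2 ⊕ (Fin 4 × Fin 4)) := by
  have h := T2_ge_one (T2_Q c) (zw (Fin 2) zE) (T2_wd (T2_F0 q τ k)) (T2_wd (T2_G0 t k)) hQ hF hG
        (![Sum.inl 1, Sum.inr (0, 2)] : Fin 2 → Fin 2 ⊕ (Fin 4 × Fin 4)) ![1, 0] ![0, 2] (by funext i; fin_cases i <;> rfl)
  simpa [T2_Q, T2_wd, T2_F0, T2_G0, T2_W] using h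

theorem T2_b4_1 (c q k τ t : ℝ) (hQ : ∀ x y, 0 ≤ T2_Q c x y)
    (hF : ∀ x, 0 ≤ T2_wd (T2_F1 q k) x) (hG : ∀ x, 0 ≤ T2_wd (T2_G1 t τ) x) :
    c ≤ Bz (T2_Q c) (zw (Fin 2) zE) (T2_wd (T2_F1 q k)) (T2_wd (T2_G1 t τ))
      (![Sum.inl 1, Sum.inr (0, 2)] : Fin 2 → Fin 2 ⊕ (Fin 4 × Fin 4)) := by
  have h := T2_ge_one (T2_Q c) (zw (Fin 2) zE) (T2_wd (T2_F1 q k)) (T2_wd (T2_G1 t τ)) hQ hF hG
        (![Sum.inl 1, Sum.inr (0, 2)] : Fin 2 → Fin 2 ⊕ (Fin 4 × Fin 4)) ![0, 0] ![1, 2] (by funext i; fin_cases i <;> rfl)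
  simpa [T2_Q, T2_wd, T2_F1, T2_G1, T2_W] using h

theorem T2_b5_0 (c q k τ t : ℝ) (hQ : ∀ x y, 0 ≤ T2_Q c x y)
    (hF : ∀ x, 0 ≤ T2_wd (T2_F0 q τ k) x) (hG : ∀ x, 0 ≤ T2_wd (T2_G0 t k) x) :
    c ≤ Bz (T2_Q c) (zw (Fin 2) zE) (T2_wd (T2_F0 q τ k)) (T2_wd (T2_G0 t k))
      (![Sum.inl 0, Sum.inr (0, 2)] : Fin 2 → Fin 2 ⊕ (Fin 4 × Fin 4)) := by
  have h := T2_ge_one (T2_Q c) (zw (Fin 2) zE) (T2_wd (T2_F0 q τ k)) (T2_wd (T2_G0 t k)) hQ hF hG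
        (![Sum.inl 0, Sum.inr (0, 2)] : Fin 2 → Fin 2 ⊕ (Fin 4 × Fin 4)) ![1, 0] ![1, 2] (by funext i; fin_cases i <;> rfl)
  simpa [T2_Q, T2_wd, T2_F0, T2_G0, T2_W] using h

theorem T2_b5_1 (c q k τ t : ℝ) (hQ : ∀ x y, 0 ≤ T2_Q c x y)
    (hF : ∀ x, 0 ≤ T2_wd (T2_F1 q k) x) (hG : ∀ x, 0 ≤ T2_wd (T2_G1 t τ) x) :
    c ≤ Bz (T2_Q c) (zw (Fin 2) zE) (T2_wd (T2_F1 q k)) (T2_wd (T2_G1 t τ))
      (![Sum.inl 0, Sum.inr (0, 2)] : Fin 2 → Fin 2 ⊕ (Fin 4 × Fin 4)) := by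
  have h := T2_ge_one (T2_Q c) (zw (Fin 2) zE) (T2_wd (T2_F1 q k)) (T2_wd (T2_G1 t τ)) hQ hF hG
        (![Sum.inl 0, Sum.inr (0, 2)] : Fin 2 → Fin 2 ⊕ (Fin 4 × Fin 4)) ![0, 0] ![0, 2] (by funext i; fin_cases i <;> rfl)
  simpa [T2_Q, T2_wd, T2_F1, T2_G1, T2_W] using h

theorem T2_b6_0 (c q k τ t : ℝ) (hQ : ∀ x y, 0 ≤ T2_Q c x y)
    (hF : ∀ x, 0 ≤ T2_wd (T2_F0 q τ k) x) (hG : ∀ x, 0 ≤ T2_wd (T2_G0 t k) x) :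
    c ≤ Bz (T2_Q c) (zw (Fin 2) zE) (T2_wd (T2_F0 q τ k)) (T2_wd (T2_G0 t k))
      (![Sum.inr (1, 2), Sum.inl 0] : Fin 2 → Fin 2 ⊕ (Fin 4 × Fin 4)) := by
  have h := T2_ge_one (T2_Q c) (zw (Fin 2) zE) (T2_wd (T2_F0 q τ k)) (T2_wd (T2_G0 t k)) hQ hF hG
        (![Sum.inr (1, 2), Sum.inl 0] : Fin 2 → Fin 2 ⊕ (Fin 4 × Fin 4)) ![1, 0] ![2, 0] (by funext i; fin_cases i <;> rfl)
  simpa [T2_Q, T2_wd, T2_F0, T2_G0, T2_W] using h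

theorem T2_b6_1 (c q k τ t : ℝ) (hQ : ∀ x y, 0 ≤ T2_Q c x y)
    (hF : ∀ x, 0 ≤ T2_wd (T2_F1 q k) x) (hG : ∀ x, 0 ≤ T2_wd (T2_G1 t τ) x) :
    c ≤ Bz (T2_Q c) (zw (Fin 2) zE) (T2_wd (T2_F1 q k)) (T2_wd (T2_G1 t τ))
      (![Sum.inr (1, 2), Sum.inl 0] : Fin 2 → Fin 2 ⊕ (Fin 4 × Fin 4)) := by
  have h := T2_ge_one (T2_Q c) (zw (Fin 2) zE) (T2_wd (T2_F1 q k)) (T2_wd (T2_G1 t τ)) hQ hF hG
        (![Sum.inr (1, 2), Sum.inl 0] : Fin 2 → Fin 2 ⊕ (Fin 4 × Fin 4)) ![1, 1] ![2, 1] (by funext i; fin_cases i <;> rfl)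
  simpa [T2_Q, T2_wd, T2_F1, T2_G1, T2_W] using h

theorem T2_b7_0 (c q k τ t : ℝ) (hQ : ∀ x y, 0 ≤ T2_Q c x y)
    (hF : ∀ x, 0 ≤ T2_wd (T2_F0 q τ k) x) (hG : ∀ x, 0 ≤ T2_wd (T2_G0 t k) x) :
    c ≤ Bz (T2_Q c) (zw (Fin 2) zE) (T2_wd (T2_F0 q τ k)) (T2_wd (T2_G0 t k))
      (![Sum.inr (1, 2), Sum.inl 1] : Fin 2 → Fin 2 ⊕ (Fin 4 × Fin 4)) := by
  have h := T2_ge_one (T2_Q c) (zw (Fin 2) zE) (T2_wd (T2_F0 q τ k)) (T2_wd (T2_G0 t k)) hQ hF hG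
        (![Sum.inr (1, 2), Sum.inl 1] : Fin 2 → Fin 2 ⊕ (Fin 4 × Fin 4)) ![1, 0] ![2, 1] (by funext i; fin_cases i <;> rfl)
  simpa [T2_Q, T2_wd, T2_F0, T2_G0, T2_W] using h

theorem T2_b7_1 (c q k τ t : ℝ) (hQ : ∀ x y, 0 ≤ T2_Q c x y)
    (hF : ∀ x, 0 ≤ T2_wd (T2_F1 q k) x) (hG : ∀ x, 0 ≤ T2_wd (T2_G1 t τ) x) :
    c ≤ Bz (T2_Q c) (zw (Fin 2) zE) (T2_wd (T2_F1 q k)) (T2_wd (T2_G1 t τ))
      (![Sum.inr (1, 2), Sum.inl 1] : Fin 2 → Fin 2 ⊕ (Fin 4 × Fin 4)) := by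
  have h := T2_ge_one (T2_Q c) (zw (Fin 2) zE) (T2_wd (T2_F1 q k)) (T2_wd (T2_G1 t τ)) hQ hF hG
        (![Sum.inr (1, 2), Sum.inl 1] : Fin 2 → Fin 2 ⊕ (Fin 4 × Fin 4)) ![1, 1] ![2, 0] (by funext i; fin_cases i <;> rfl)
  simpa [T2_Q, T2_wd, T2_F1, T2_G1, T2_W] using h

theorem T2_b8_0 (c q k τ t : ℝ) (hQ : ∀ x y, 0 ≤ T2_Q c x y)
    (hF : ∀ x, 0 ≤ T2_wd (T2_F0 q τ k) x) (hG : ∀ x, 0 ≤ T2_wd (T2_G0 t k) x) :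
    c * c ≤ Bz (T2_Q c) (zw (Fin 2) zE) (T2_wd (T2_F0 q τ k)) (T2_wd (T2_G0 t k))
      (![Sum.inr (0, 2), Sum.inr (2, 0)] : Fin 2 → Fin 2 ⊕ (Fin 4 × Fin 4)) := by
  have h := T2_ge_one (T2_Q c) (zw (Fin 2) zE) (T2_wd (T2_F0 q τ k)) (T2_wd (T2_G0 t k)) hQ hF hG
        (![Sum.inr (0, 2), Sum.inr (2, 0)] : Fin 2 → Fin 2 ⊕ (Fin 4 × Fin 4)) ![0, 2] ![2, 0] (by funext i; fin_cases i <;> rfl)
  simpa [T2_Q, T2_wd, T2_F0, T2_G0, T2_W] using h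

theorem T2_b8_1 (c q k τ t : ℝ) (hQ : ∀ x y, 0 ≤ T2_Q c x y)
    (hF : ∀ x, 0 ≤ T2_wd (T2_F1 q k) x) (hG : ∀ x, 0 ≤ T2_wd (T2_G1 t τ) x) :
    c * c ≤ Bz (T2_Q c) (zw (Fin 2) zE) (T2_wd (T2_F1 q k)) (T2_wd (T2_G1 t τ))
      (![Sum.inr (0, 2), Sum.inr (2, 0)] : Fin 2 → Fin 2 ⊕ (Fin 4 × Fin 4)) := by
  have h := T2_ge_one (T2_Q c) (zw (Fin 2) zE) (T2_wd (T2_F1 q k)) (T2_wd (T2_G1 t τ)) hQ hF hG
        (![Sum.inr (0, 2), Sum.inr (2, 0)] : Fin 2 → Fin 2 ⊕ (Fin 4 × Fin 4)) ![0, 2] ![2, 0] (by funext i; fin_cases i <;> rfl)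
  simpa [T2_Q, T2_wd, T2_F1, T2_G1, T2_W] using h

theorem T2_b9_0 (c q k τ t : ℝ) (hQ : ∀ x y, 0 ≤ T2_Q c x y)
    (hF : ∀ x, 0 ≤ T2_wd (T2_F0 q τ k) x) (hG : ∀ x, 0 ≤ T2_wd (T2_G0 t k) x) :
    c * c ≤ Bz (T2_Q c) (zw (Fin 2) zE) (T2_wd (T2_F0 q τ k)) (T2_wd (T2_G0 t k))
      (![Sum.inr (0, 2), Sum.inr (2, 1)] : Fin 2 → Fin 2 ⊕ (Fin 4 × Fin 4)) := by
  have h := T2_ge_one (T2_Q c) (zw (Fin 2) zE) (T2_wd (T2_F0 q τ k)) (T2_wd (T2_G0 t k)) hQ hF hG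
        (![Sum.inr (0, 2), Sum.inr (2, 1)] : Fin 2 → Fin 2 ⊕ (Fin 4 × Fin 4)) ![0, 2] ![2, 1] (by funext i; fin_cases i <;> rfl)
  simpa [T2_Q, T2_wd, T2_F0, T2_G0, T2_W] using h

theorem T2_b9_1 (c q k τ t : ℝ) (hQ : ∀ x y, 0 ≤ T2_Q c x y)
    (hF : ∀ x, 0 ≤ T2_wd (T2_F1 q k) x) (hG : ∀ x, 0 ≤ T2_wd (T2_G1 t τ) x) :
    c * c ≤ Bz (T2_Q c) (zw (Fin 2) zE) (T2_wd (T2_F1 q k)) (T2_wd (T2_G1 t τ))
      (![Sum.inr (0, 2), Sum.inr (2, 1)] : Fin 2 → Fin 2 ⊕ (Fin 4 × Fin 4)) := by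
  have h := T2_ge_one (T2_Q c) (zw (Fin 2) zE) (T2_wd (T2_F1 q k)) (T2_wd (T2_G1 t τ)) hQ hF hG
        (![Sum.inr (0, 2), Sum.inr (2, 1)] : Fin 2 → Fin 2 ⊕ (Fin 4 × Fin 4)) ![0, 2] ![2, 1] (by funext i; fin_cases i <;> rfl)
  simpa [T2_Q, T2_wd, T2_F1, T2_G1, T2_W] using h

theorem T2_b10_0 (c q k τ t : ℝ) (hQ : ∀ x y, 0 ≤ T2_Q c x y)
    (hF : ∀ x, 0 ≤ T2_wd (T2_F0 q τ k) x) (hG : ∀ x, 0 ≤ T2_wd (T2_G0 t k) x) :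
    c * c ≤ Bz (T2_Q c) (zw (Fin 2) zE) (T2_wd (T2_F0 q τ k)) (T2_wd (T2_G0 t k))
      (![Sum.inr (2, 0), Sum.inr (0, 2)] : Fin 2 → Fin 2 ⊕ (Fin 4 × Fin 4)) := by
  have h := T2_ge_one (T2_Q c) (zw (Fin 2) zE) (T2_wd (T2_F0 q τ k)) (T2_wd (T2_G0 t k)) hQ hF hG
        (![Sum.inr (2, 0), Sum.inr (0, 2)] : Fin 2 → Fin 2 ⊕ (Fin 4 × Fin 4)) ![2, 0] ![0, 2] (by funext i; fin_cases i <;> rfl)
  simpa [T2_Q, T2_wd, T2_F0, T2_G0, T2_W] using h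

theorem T2_b10_1 (c q k τ t : ℝ) (hQ : ∀ x y, 0 ≤ T2_Q c x y)
    (hF : ∀ x, 0 ≤ T2_wd (T2_F1 q k) x) (hG : ∀ x, 0 ≤ T2_wd (T2_G1 t τ) x) :
    c * c ≤ Bz (T2_Q c) (zw (Fin 2) zE) (T2_wd (T2_F1 q k)) (T2_wd (T2_G1 t τ))
      (![Sum.inr (2, 0), Sum.inr (0, 2)] : Fin 2 → Fin 2 ⊕ (Fin 4 × Fin 4)) := by
  have h := T2_ge_one (T2_Q c) (zw (Fin 2) zE) (T2_wd (T2_F1 q k)) (T2_wd (T2_G1 t τ)) hQ hF hG
        (![Sum.inr (2, 0), Sum.inr (0, 2)] : Fin 2 → Fin 2 ⊕ (Fin 4 × Fin 4)) ![2, 0] ![0, 2] (by funext i; fin_cases i <;> rfl)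
  simpa [T2_Q, T2_wd, T2_F1, T2_G1, T2_W] using h

theorem T2_b11_0 (c q k τ t : ℝ) (hQ : ∀ x y, 0 ≤ T2_Q c x y)
    (hF : ∀ x, 0 ≤ T2_wd (T2_F0 q τ k) x) (hG : ∀ x, 0 ≤ T2_wd (T2_G0 t k) x) :
    c * c ≤ Bz (T2_Q c) (zw (Fin 2) zE) (T2_wd (T2_F0 q τ k)) (T2_wd (T2_G0 t k))
      (![Sum.inr (2, 1), Sum.inr (0, 2)] : Fin 2 → Fin 2 ⊕ (Fin 4 × Fin 4)) := by
  have h := T2_ge_one (T2_Q c) (zw (Fin 2) zE) (T2_wd (T2_F0 q τ k)) (T2_wd (T2_G0 t k)) hQ hF hG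
        (![Sum.inr (2, 1), Sum.inr (0, 2)] : Fin 2 → Fin 2 ⊕ (Fin 4 × Fin 4)) ![2, 0] ![1, 2] (by funext i; fin_cases i <;> rfl)
  simpa [T2_Q, T2_wd, T2_F0, T2_G0, T2_W] using h

theorem T2_b11_1 (c q k τ t : ℝ) (hQ : ∀ x y, 0 ≤ T2_Q c x y)
    (hF : ∀ x, 0 ≤ T2_wd (T2_F1 q k) x) (hG : ∀ x, 0 ≤ T2_wd (T2_G1 t τ) x) :
    c * c ≤ Bz (T2_Q c) (zw (Fin 2) zE) (T2_wd (T2_F1 q k)) (T2_wd (T2_G1 t τ))
      (![Sum.inr (2, 1), Sum.inr (0, 2)] : Fin 2 → Fin 2 ⊕ (Fin 4 × Fin 4)) := by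
  have h := T2_ge_one (T2_Q c) (zw (Fin 2) zE) (T2_wd (T2_F1 q k)) (T2_wd (T2_G1 t τ)) hQ hF hG
        (![Sum.inr (2, 1), Sum.inr (0, 2)] : Fin 2 → Fin 2 ⊕ (Fin 4 × Fin 4)) ![2, 0] ![1, 2] (by funext i; fin_cases i <;> rfl)
  simpa [T2_Q, T2_wd, T2_F1, T2_G1, T2_W] using h

theorem T2_b12_0 (c q k τ t : ℝ) (hQ : ∀ x y, 0 ≤ T2_Q c x y)
    (hF : ∀ x, 0 ≤ T2_wd (T2_F0 q τ k) x) (hG : ∀ x, 0 ≤ T2_wd (T2_G0 t k) x) :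
    2 + 2 ≤ Bz (T2_Q c) (zw (Fin 2) zE) (T2_wd (T2_F0 q τ k)) (T2_wd (T2_G0 t k))
      (![Sum.inl 0, Sum.inl 0] : Fin 2 → Fin 2 ⊕ (Fin 4 × Fin 4)) := by
  have h := T2_ge_two (T2_Q c) (zw (Fin 2) zE) (T2_wd (T2_F0 q τ k)) (T2_wd (T2_G0 t k)) hQ hF hG
        (![Sum.inl 0, Sum.inl 0] : Fin 2 → Fin 2 ⊕ (Fin 4 × Fin 4)) ![0, 2] ![2, 0] ![0, 2] ![2, 0]
        (by funext i; fin_cases i <;> rfl) (by funext i; fin_cases i <;> rfl) (by decide)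
  simpa [T2_Q, T2_wd, T2_F0, T2_G0, T2_W] using h

theorem T2_b12_1 (c q k τ t : ℝ) (hQ : ∀ x y, 0 ≤ T2_Q c x y)
    (hF : ∀ x, 0 ≤ T2_wd (T2_F1 q k) x) (hG : ∀ x, 0 ≤ T2_wd (T2_G1 t τ) x) :
    2 + 2 ≤ Bz (T2_Q c) (zw (Fin 2) zE) (T2_wd (T2_F1 q k)) (T2_wd (T2_G1 t τ))
      (![Sum.inl 0, Sum.inl 0] : Fin 2 → Fin 2 ⊕ (Fin 4 × Fin 4)) := by
  have h := T2_ge_two (T2_Q c) (zw (Fin 2) zE) (T2_wd (T2_F1 q k)) (T2_wd (T2_G1 t τ)) hQ hF hG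
        (![Sum.inl 0, Sum.inl 0] : Fin 2 → Fin 2 ⊕ (Fin 4 × Fin 4)) ![0, 2] ![2, 0] ![0, 2] ![2, 0]
        (by funext i; fin_cases i <;> rfl) (by funext i; fin_cases i <;> rfl) (by decide)
  simpa [T2_Q, T2_wd, T2_F1, T2_G1, T2_W] using h

theorem T2_b13_0 (c q k τ t : ℝ) (hQ : ∀ x y, 0 ≤ T2_Q c x y)
    (hF : ∀ x, 0 ≤ T2_wd (T2_F0 q τ k) x) (hG : ∀ x, 0 ≤ T2_wd (T2_G0 t k) x) :
    2 + t ≤ Bz (T2_Q c) (zw (Fin 2) zE) (T2_wd (T2_F0 q τ k)) (T2_wd (T2_G0 t k))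
      (![Sum.inl 1, Sum.inl 0] : Fin 2 → Fin 2 ⊕ (Fin 4 × Fin 4)) := by
  have h := T2_ge_two (T2_Q c) (zw (Fin 2) zE) (T2_wd (T2_F0 q τ k)) (T2_wd (T2_G0 t k)) hQ hF hG
        (![Sum.inl 1, Sum.inl 0] : Fin 2 → Fin 2 ⊕ (Fin 4 × Fin 4)) ![0, 2] ![1, 0] ![1, 2] ![0, 0]
        (by funext i; fin_cases i <;> rfl) (by funext i; fin_cases i <;> rfl) (by decide)
  simpa [T2_Q, T2_wd, T2_F0, T2_G0, T2_W] using h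

theorem T2_b13_1 (c q k τ t : ℝ) (hQ : ∀ x y, 0 ≤ T2_Q c x y)
    (hF : ∀ x, 0 ≤ T2_wd (T2_F1 q k) x) (hG : ∀ x, 0 ≤ T2_wd (T2_G1 t τ) x) :
    2 ≤ Bz (T2_Q c) (zw (Fin 2) zE) (T2_wd (T2_F1 q k)) (T2_wd (T2_G1 t τ))
      (![Sum.inl 1, Sum.inl 0] : Fin 2 → Fin 2 ⊕ (Fin 4 × Fin 4)) := by
  have h := T2_ge_one (T2_Q c) (zw (Fin 2) zE) (T2_wd (T2_F1 q k)) (T2_wd (T2_G1 t τ)) hQ hF hG
        (![Sum.inl 1, Sum.inl 0] : Fin 2 → Fin 2 ⊕ (Fin 4 × Fin 4)) ![0, 2] ![1, 2] (by funext i; fin_cases i <;> rfl)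
  simpa [T2_Q, T2_wd, T2_F1, T2_G1, T2_W] using h

theorem T2_b14_0 (c q k τ t : ℝ) (hQ : ∀ x y, 0 ≤ T2_Q c x y)
    (hF : ∀ x, 0 ≤ T2_wd (T2_F0 q τ k) x) (hG : ∀ x, 0 ≤ T2_wd (T2_G0 t k) x) :
    2 + t ≤ Bz (T2_Q c) (zw (Fin 2) zE) (T2_wd (T2_F0 q τ k)) (T2_wd (T2_G0 t k))
      (![Sum.inl 0, Sum.inl 1] : Fin 2 → Fin 2 ⊕ (Fin 4 × Fin 4)) := by
  have h := T2_ge_two (T2_Q c) (zw (Fin 2) zE) (T2_wd (T2_F0 q τ k)) (T2_wd (T2_G0 t k)) hQ hF hG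
        (![Sum.inl 0, Sum.inl 1] : Fin 2 → Fin 2 ⊕ (Fin 4 × Fin 4)) ![2, 0] ![0, 1] ![2, 1] ![0, 0]
        (by funext i; fin_cases i <;> rfl) (by funext i; fin_cases i <;> rfl) (by decide)
  simpa [T2_Q, T2_wd, T2_F0, T2_G0, T2_W] using h

theorem T2_b14_1 (c q k τ t : ℝ) (hQ : ∀ x y, 0 ≤ T2_Q c x y)
    (hF : ∀ x, 0 ≤ T2_wd (T2_F1 q k) x) (hG : ∀ x, 0 ≤ T2_wd (T2_G1 t τ) x) :
    2 ≤ Bz (T2_Q c) (zw (Fin 2) zE) (T2_wd (T2_F1 q k)) (T2_wd (T2_G1 t τ))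
      (![Sum.inl 0, Sum.inl 1] : Fin 2 → Fin 2 ⊕ (Fin 4 × Fin 4)) := by
  have h := T2_ge_one (T2_Q c) (zw (Fin 2) zE) (T2_wd (T2_F1 q k)) (T2_wd (T2_G1 t τ)) hQ hF hG
        (![Sum.inl 0, Sum.inl 1] : Fin 2 → Fin 2 ⊕ (Fin 4 × Fin 4)) ![2, 0] ![2, 1] (by funext i; fin_cases i <;> rfl)
  simpa [T2_Q, T2_wd, T2_F1, T2_G1, T2_W] using h

theorem T2_b15_0 (c q k τ t : ℝ) (hQ : ∀ x y, 0 ≤ T2_Q c x y)
    (hF : ∀ x, 0 ≤ T2_wd (T2_F0 q τ k) x) (hG : ∀ x, 0 ≤ T2_wd (T2_G0 t k) x) :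
    2 * 2 * (k / τ) * (t / (4 * k)) ≤ Bz (T2_Q c) (zw (Fin 2) zE) (T2_wd (T2_F0 q τ k)) (T2_wd (T2_G0 t k))
      (![Sum.inl 1, Sum.inl 1] : Fin 2 → Fin 2 ⊕ (Fin 4 × Fin 4)) := by
  have h := T2_ge_one (T2_Q c) (zw (Fin 2) zE) (T2_wd (T2_F0 q τ k)) (T2_wd (T2_G0 t k)) hQ hF hG
        (![Sum.inl 1, Sum.inl 1] : Fin 2 → Fin 2 ⊕ (Fin 4 × Fin 4)) ![3, 3] ![3, 3] (by funext i; fin_cases i <;> rfl)
  simpa [T2_Q, T2_wd, T2_F0, T2_G0, T2_W] using h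

theorem T2_b15_1 (c q k τ t : ℝ) (hQ : ∀ x y, 0 ≤ T2_Q c x y)
    (hF : ∀ x, 0 ≤ T2_wd (T2_F1 q k) x) (hG : ∀ x, 0 ≤ T2_wd (T2_G1 t τ) x) :
    τ * t ≤ Bz (T2_Q c) (zw (Fin 2) zE) (T2_wd (T2_F1 q k)) (T2_wd (T2_G1 t τ))
      (![Sum.inl 1, Sum.inl 1] : Fin 2 → Fin 2 ⊕ (Fin 4 × Fin 4)) := by
  have h := T2_ge_one (T2_Q c) (zw (Fin 2) zE) (T2_wd (T2_F1 q k)) (T2_wd (T2_G1 t τ)) hQ hF hG
        (![Sum.inl 1, Sum.inl 1] : Fin 2 → Fin 2 ⊕ (Fin 4 × Fin 4)) ![1, 1] ![0, 0] (by funext i; fin_cases i <;> rfl)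
  simpa [T2_Q, T2_wd, T2_F1, T2_G1, T2_W] using h

theorem T2_b16_0 (c q k τ t : ℝ) (hQ : ∀ x y, 0 ≤ T2_Q c x y)
    (hF : ∀ x, 0 ≤ T2_wd (T2_F0 q τ k) x) (hG : ∀ x, 0 ≤ T2_wd (T2_G0 t k) x) :
    2 * c * q + c * t ≤ Bz (T2_Q c) (zw (Fin 2) zE) (T2_wd (T2_F0 q τ k)) (T2_wd (T2_G0 t k))
      (![Sum.inl 0, Sum.inr (2, 0)] : Fin 2 → Fin 2 ⊕ (Fin 4 × Fin 4)) := by
  have h := T2_ge_two (T2_Q c) (zw (Fin 2) zE) (T2_wd (T2_F0 q τ k)) (T2_wd (T2_G0 t k)) hQ hF hG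
        (![Sum.inl 0, Sum.inr (2, 0)] : Fin 2 → Fin 2 ⊕ (Fin 4 × Fin 4)) ![2, 2] ![0, 2] ![2, 0] ![0, 0]
        (by funext i; fin_cases i <;> rfl) (by funext i; fin_cases i <;> rfl) (by decide)
  simpa [T2_Q, T2_wd, T2_F0, T2_G0, T2_W] using h

theorem T2_b16_1 (c q k τ t : ℝ) (hQ : ∀ x y, 0 ≤ T2_Q c x y)
    (hF : ∀ x, 0 ≤ T2_wd (T2_F1 q k) x) (hG : ∀ x, 0 ≤ T2_wd (T2_G1 t τ) x) :
    2 * c * q ≤ Bz (T2_Q c) (zw (Fin 2) zE) (T2_wd (T2_F1 q k)) (T2_wd (T2_G1 t τ))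
      (![Sum.inl 0, Sum.inr (2, 0)] : Fin 2 → Fin 2 ⊕ (Fin 4 × Fin 4)) := by
  have h := T2_ge_one (T2_Q c) (zw (Fin 2) zE) (T2_wd (T2_F1 q k)) (T2_wd (T2_G1 t τ)) hQ hF hG
        (![Sum.inl 0, Sum.inr (2, 0)] : Fin 2 → Fin 2 ⊕ (Fin 4 × Fin 4)) ![2, 2] ![2, 0] (by funext i; fin_cases i <;> rfl)
  simpa [T2_Q, T2_wd, T2_F1, T2_G1, T2_W] using h

theorem T2_b17_0 (c q k τ t : ℝ) (hQ : ∀ x y, 0 ≤ T2_Q c x y)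
    (hF : ∀ x, 0 ≤ T2_wd (T2_F0 q τ k) x) (hG : ∀ x, 0 ≤ T2_wd (T2_G0 t k) x) :
    c * 2 * q + c * t ≤ Bz (T2_Q c) (zw (Fin 2) zE) (T2_wd (T2_F0 q τ k)) (T2_wd (T2_G0 t k))
      (![Sum.inr (2, 0), Sum.inl 0] : Fin 2 → Fin 2 ⊕ (Fin 4 × Fin 4)) := by
  have h := T2_ge_two (T2_Q c) (zw (Fin 2) zE) (T2_wd (T2_F0 q τ k)) (T2_wd (T2_G0 t k)) hQ hF hG
        (![Sum.inr (2, 0), Sum.inl 0] : Fin 2 → Fin 2 ⊕ (Fin 4 × Fin 4)) ![2, 2] ![2, 0] ![0, 2] ![0, 0]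
        (by funext i; fin_cases i <;> rfl) (by funext i; fin_cases i <;> rfl) (by decide)
  simpa [T2_Q, T2_wd, T2_F0, T2_G0, T2_W] using h

theorem T2_b17_1 (c q k τ t : ℝ) (hQ : ∀ x y, 0 ≤ T2_Q c x y)
    (hF : ∀ x, 0 ≤ T2_wd (T2_F1 q k) x) (hG : ∀ x, 0 ≤ T2_wd (T2_G1 t τ) x) :
    c * 2 * q ≤ Bz (T2_Q c) (zw (Fin 2) zE) (T2_wd (T2_F1 q k)) (T2_wd (T2_G1 t τ))
      (![Sum.inr (2, 0), Sum.inl 0] : Fin 2 → Fin 2 ⊕ (Fin 4 × Fin 4)) := by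
  have h := T2_ge_one (T2_Q c) (zw (Fin 2) zE) (T2_wd (T2_F1 q k)) (T2_wd (T2_G1 t τ)) hQ hF hG
        (![Sum.inr (2, 0), Sum.inl 0] : Fin 2 → Fin 2 ⊕ (Fin 4 × Fin 4)) ![2, 2] ![0, 2] (by funext i; fin_cases i <;> rfl)
  simpa [T2_Q, T2_wd, T2_F1, T2_G1, T2_W] using h

theorem T2_b18_0 (c q k τ t : ℝ) (hQ : ∀ x y, 0 ≤ T2_Q c x y)
    (hF : ∀ x, 0 ≤ T2_wd (T2_F0 q τ k) x) (hG : ∀ x, 0 ≤ T2_wd (T2_G0 t k) x) :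
    c * 2 * q ≤ Bz (T2_Q c) (zw (Fin 2) zE) (T2_wd (T2_F0 q τ k)) (T2_wd (T2_G0 t k))
      (![Sum.inr (2, 1), Sum.inl 0] : Fin 2 → Fin 2 ⊕ (Fin 4 × Fin 4)) := by
  have h := T2_ge_one (T2_Q c) (zw (Fin 2) zE) (T2_wd (T2_F0 q τ k)) (T2_wd (T2_G0 t k)) hQ hF hG
        (![Sum.inr (2, 1), Sum.inl 0] : Fin 2 → Fin 2 ⊕ (Fin 4 × Fin 4)) ![2, 2] ![1, 2] (by funext i; fin_cases i <;> rfl)
  simpa [T2_Q, T2_wd, T2_F0, T2_G0, T2_W] using h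

theorem T2_b18_1 (c q k τ t : ℝ) (hQ : ∀ x y, 0 ≤ T2_Q c x y)
    (hF : ∀ x, 0 ≤ T2_wd (T2_F1 q k) x) (hG : ∀ x, 0 ≤ T2_wd (T2_G1 t τ) x) :
    c * 2 * q ≤ Bz (T2_Q c) (zw (Fin 2) zE) (T2_wd (T2_F1 q k)) (T2_wd (T2_G1 t τ))
      (![Sum.inr (2, 1), Sum.inl 0] : Fin 2 → Fin 2 ⊕ (Fin 4 × Fin 4)) := by
  have h := T2_ge_one (T2_Q c) (zw (Fin 2) zE) (T2_wd (T2_F1 q k)) (T2_wd (T2_G1 t τ)) hQ hF hG
        (![Sum.inr (2, 1), Sum.inl 0] : Fin 2 → Fin 2 ⊕ (Fin 4 × Fin 4)) ![2, 2] ![1, 2] (by funext i; fin_cases i <;> rfl)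
  simpa [T2_Q, T2_wd, T2_F1, T2_G1, T2_W] using h

theorem T2_b19_0 (c q k τ t : ℝ) (hQ : ∀ x y, 0 ≤ T2_Q c x y)
    (hF : ∀ x, 0 ≤ T2_wd (T2_F0 q τ k) x) (hG : ∀ x, 0 ≤ T2_wd (T2_G0 t k) x) :
    2 * c * q ≤ Bz (T2_Q c) (zw (Fin 2) zE) (T2_wd (T2_F0 q τ k)) (T2_wd (T2_G0 t k))
      (![Sum.inl 0, Sum.inr (2, 1)] : Fin 2 → Fin 2 ⊕ (Fin 4 × Fin 4)) := by
  have h := T2_ge_one (T2_Q c) (zw (Fin 2) zE) (T2_wd (T2_F0 q τ k)) (T2_wd (T2_G0 t k)) hQ hF hG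
        (![Sum.inl 0, Sum.inr (2, 1)] : Fin 2 → Fin 2 ⊕ (Fin 4 × Fin 4)) ![2, 2] ![2, 1] (by funext i; fin_cases i <;> rfl)
  simpa [T2_Q, T2_wd, T2_F0, T2_G0, T2_W] using h

theorem T2_b19_1 (c q k τ t : ℝ) (hQ : ∀ x y, 0 ≤ T2_Q c x y)
    (hF : ∀ x, 0 ≤ T2_wd (T2_F1 q k) x) (hG : ∀ x, 0 ≤ T2_wd (T2_G1 t τ) x) :
    2 * c * q ≤ Bz (T2_Q c) (zw (Fin 2) zE) (T2_wd (T2_F1 q k)) (T2_wd (T2_G1 t τ))
      (![Sum.inl 0, Sum.inr (2, 1)] : Fin 2 → Fin 2 ⊕ (Fin 4 × Fin 4)) := by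
  have h := T2_ge_one (T2_Q c) (zw (Fin 2) zE) (T2_wd (T2_F1 q k)) (T2_wd (T2_G1 t τ)) hQ hF hG
        (![Sum.inl 0, Sum.inr (2, 1)] : Fin 2 → Fin 2 ⊕ (Fin 4 × Fin 4)) ![2, 2] ![2, 1] (by funext i; fin_cases i <;> rfl)
  simpa [T2_Q, T2_wd, T2_F1, T2_G1, T2_W] using h

theorem T2_b20_0 (c q k τ t : ℝ) (hQ : ∀ x y, 0 ≤ T2_Q c x y)
    (hF : ∀ x, 0 ≤ T2_wd (T2_F0 q τ k) x) (hG : ∀ x, 0 ≤ T2_wd (T2_G0 t k) x) :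
    c * c * (k / τ) * t ≤ Bz (T2_Q c) (zw (Fin 2) zE) (T2_wd (T2_F0 q τ k)) (T2_wd (T2_G0 t k))
      (![Sum.inr (3, 0), Sum.inr (3, 0)] : Fin 2 → Fin 2 ⊕ (Fin 4 × Fin 4)) := by
  have h := T2_ge_one (T2_Q c) (zw (Fin 2) zE) (T2_wd (T2_F0 q τ k)) (T2_wd (T2_G0 t k)) hQ hF hG
        (![Sum.inr (3, 0), Sum.inr (3, 0)] : Fin 2 → Fin 2 ⊕ (Fin 4 × Fin 4)) ![3, 3] ![0, 0] (by funext i; fin_cases i <;> rfl)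
  simpa [T2_Q, T2_wd, T2_F0, T2_G0, T2_W] using h

theorem T2_b20_1 (c q k τ t : ℝ) (hQ : ∀ x y, 0 ≤ T2_Q c x y)
    (hF : ∀ x, 0 ≤ T2_wd (T2_F1 q k) x) (hG : ∀ x, 0 ≤ T2_wd (T2_G1 t τ) x) :
    c * c * k * (τ * t) ≤ Bz (T2_Q c) (zw (Fin 2) zE) (T2_wd (T2_F1 q k)) (T2_wd (T2_G1 t τ))
      (![Sum.inr (3, 0), Sum.inr (3, 0)] : Fin 2 → Fin 2 ⊕ (Fin 4 × Fin 4)) := by
  have h := T2_ge_one (T2_Q c) (zw (Fin 2) zE) (T2_wd (T2_F1 q k)) (T2_wd (T2_G1 t τ)) hQ hF hG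
        (![Sum.inr (3, 0), Sum.inr (3, 0)] : Fin 2 → Fin 2 ⊕ (Fin 4 × Fin 4)) ![3, 3] ![0, 0] (by funext i; fin_cases i <;> rfl)
  simpa [T2_Q, T2_wd, T2_F1, T2_G1, T2_W] using h


theorem T2_le_sqrt (v L0 L1 B0 B1 : ℝ) (h0 : L0 ≤ B0) (h1 : L1 ≤ B1) (hL0 : 0 ≤ L0)
    (hL1 : 0 ≤ L1) (hv : v ^ 2 ≤ L0 * L1) : v ≤ Real.sqrt (B0 * B1) :=
  Real.le_sqrt_of_sq_le (hv.trans (mul_le_mul h0 h1 hL1 (hL0.trans h0)))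

/-- `(A + δ/2 - δ²/(8A))² ≤ A (A + δ)` for `0 ≤ δ ≤ 8A` -/
theorem T2_sq (A δ : ℝ) (hA : 0 < A) (hδ : 0 ≤ δ) (h8 : δ ≤ 8 * A) :
    (A + δ / 2 - δ ^ 2 / (8 * A)) ^ 2 ≤ (A + δ) * A := by
  have e : (A + δ / 2 - δ ^ 2 / (8 * A)) ^ 2 =
      (A + δ) * A - δ ^ 3 * (8 * A - δ) / (64 * A ^ 2) := by
    field_simp
    ring
  rw [e]
  have : 0 ≤ δ ^ 3 * (8 * A - δ) / (64 * A ^ 2) :=
    div_nonneg (mul_nonneg (by positivity) (by linarith)) (by positivity)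
  linarith

theorem T2_zz_inj : Function.Injective T2_zz := by
  unfold T2_zz
  decide

theorem T2_lower (c q k τ t : ℝ) (hc : 0 < c) (hq : 0 < q) (hk : 0 < k) (hτ : 0 < τ)
    (ht : 0 < t) (ht1 : t ≤ 1) (htq : t ≤ 8 * q) (j : Fin 21) :
    T2_v c q k t j ≤ Real.sqrt (
      Bz (T2_Q c) (zw (Fin 2) zE) (T2_wd (T2_F0 q τ k)) (T2_wd (T2_G0 t k)) (T2_zz j) *
      Bz (T2_Q c) (zw (Fin 2) zE) (T2_wd (T2_F1 q k)) (T2_wd (T2_G1 t τ)) (T2_zz j)) := by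
  have hQ : ∀ x y, 0 ≤ T2_Q c x y := T2_Q_nonneg c hc
  have hF0 : ∀ x, 0 ≤ T2_wd (T2_F0 q τ k) x := by
    intro x
    unfold T2_wd T2_F0
    generalize x 0 = i
    generalize x 1 = j
    fin_cases i <;> fin_cases j <;> simp <;> positivity
  have hF1 : ∀ x, 0 ≤ T2_wd (T2_F1 q k) x := by
    intro x
    unfold T2_wd T2_F1
    generalize x 0 = i
    generalize x 1 = j
    fin_cases i <;> fin_cases j <;> simp <;> positivity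
  have hG0 : ∀ x, 0 ≤ T2_wd (T2_G0 t k) x := by
    intro x
    unfold T2_wd T2_G0
    generalize x 0 = i
    generalize x 1 = j
    fin_cases i <;> fin_cases j <;> simp <;> positivity
  have hG1 : ∀ x, 0 ≤ T2_wd (T2_G1 t τ) x := by
    intro x
    unfold T2_wd T2_G1
    generalize x 0 = i
    generalize x 1 = j
    fin_cases i <;> fin_cases j <;> simp <;> positivity
  have hct : c * t ≤ 8 * (2 * c * q) := by nlinarith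
  have b0 : c ≤ Real.sqrt (
      Bz (T2_Q c) (zw (Fin 2) zE) (T2_wd (T2_F0 q τ k)) (T2_wd (T2_G0 t k))
        (![Sum.inl 0, Sum.inr (1, 2)] : Fin 2 → Fin 2 ⊕ (Fin 4 × Fin 4)) *
      Bz (T2_Q c) (zw (Fin 2) zE) (T2_wd (T2_F1 q k)) (T2_wd (T2_G1 t τ))
        (![Sum.inl 0, Sum.inr (1, 2)] : Fin 2 → Fin 2 ⊕ (Fin 4 × Fin 4))) := by
    refine T2_le_sqrt _ _ _ _ _ (T2_b0_0 c q k τ t hQ hF0 hG0) (T2_b0_1 c q k τ t hQ hF1 hG1)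
      (by positivity) (by positivity) ?_
    apply le_of_eq
    ring
  have b1 : c ≤ Real.sqrt (
      Bz (T2_Q c) (zw (Fin 2) zE) (T2_wd (T2_F0 q τ k)) (T2_wd (T2_G0 t k))
        (![Sum.inl 1, Sum.inr (1, 2)] : Fin 2 → Fin 2 ⊕ (Fin 4 × Fin 4)) *
      Bz (T2_Q c) (zw (Fin 2) zE) (T2_wd (T2_F1 q k)) (T2_wd (T2_G1 t τ))
        (![Sum.inl 1, Sum.inr (1, 2)] : Fin 2 → Fin 2 ⊕ (Fin 4 × Fin 4))) := by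
    refine T2_le_sqrt _ _ _ _ _ (T2_b1_0 c q k τ t hQ hF0 hG0) (T2_b1_1 c q k τ t hQ hF1 hG1)
      (by positivity) (by positivity) ?_
    apply le_of_eq
    ring
  have b2 : c ≤ Real.sqrt (
      Bz (T2_Q c) (zw (Fin 2) zE) (T2_wd (T2_F0 q τ k)) (T2_wd (T2_G0 t k))
        (![Sum.inr (0, 2), Sum.inl 1] : Fin 2 → Fin 2 ⊕ (Fin 4 × Fin 4)) *
      Bz (T2_Q c) (zw (Fin 2) zE) (T2_wd (T2_F1 q k)) (T2_wd (T2_G1 t τ))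
        (![Sum.inr (0, 2), Sum.inl 1] : Fin 2 → Fin 2 ⊕ (Fin 4 × Fin 4))) := by
    refine T2_le_sqrt _ _ _ _ _ (T2_b2_0 c q k τ t hQ hF0 hG0) (T2_b2_1 c q k τ t hQ hF1 hG1)
      (by positivity) (by positivity) ?_
    apply le_of_eq
    ring
  have b3 : c ≤ Real.sqrt (
      Bz (T2_Q c) (zw (Fin 2) zE) (T2_wd (T2_F0 q τ k)) (T2_wd (T2_G0 t k))
        (![Sum.inr (0, 2), Sum.inl 0] : Fin 2 → Fin 2 ⊕ (Fin 4 × Fin 4)) *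
      Bz (T2_Q c) (zw (Fin 2) zE) (T2_wd (T2_F1 q k)) (T2_wd (T2_G1 t τ))
        (![Sum.inr (0, 2), Sum.inl 0] : Fin 2 → Fin 2 ⊕ (Fin 4 × Fin 4))) := by
    refine T2_le_sqrt _ _ _ _ _ (T2_b3_0 c q k τ t hQ hF0 hG0) (T2_b3_1 c q k τ t hQ hF1 hG1)
      (by positivity) (by positivity) ?_
    apply le_of_eq
    ring
  have b4 : c ≤ Real.sqrt (
      Bz (T2_Q c) (zw (Fin 2) zE) (T2_wd (T2_F0 q τ k)) (T2_wd (T2_G0 t k))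
        (![Sum.inl 1, Sum.inr (0, 2)] : Fin 2 → Fin 2 ⊕ (Fin 4 × Fin 4)) *
      Bz (T2_Q c) (zw (Fin 2) zE) (T2_wd (T2_F1 q k)) (T2_wd (T2_G1 t τ))
        (![Sum.inl 1, Sum.inr (0, 2)] : Fin 2 → Fin 2 ⊕ (Fin 4 × Fin 4))) := by
    refine T2_le_sqrt _ _ _ _ _ (T2_b4_0 c q k τ t hQ hF0 hG0) (T2_b4_1 c q k τ t hQ hF1 hG1)
      (by positivity) (by positivity) ?_
    apply le_of_eq
    ring
  have b5 : c ≤ Real.sqrt (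
      Bz (T2_Q c) (zw (Fin 2) zE) (T2_wd (T2_F0 q τ k)) (T2_wd (T2_G0 t k))
        (![Sum.inl 0, Sum.inr (0, 2)] : Fin 2 → Fin 2 ⊕ (Fin 4 × Fin 4)) *
      Bz (T2_Q c) (zw (Fin 2) zE) (T2_wd (T2_F1 q k)) (T2_wd (T2_G1 t τ))
        (![Sum.inl 0, Sum.inr (0, 2)] : Fin 2 → Fin 2 ⊕ (Fin 4 × Fin 4))) := by
    refine T2_le_sqrt _ _ _ _ _ (T2_b5_0 c q k τ t hQ hF0 hG0) (T2_b5_1 c q k τ t hQ hF1 hG1)
      (by positivity) (by positivity) ?_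
    apply le_of_eq
    ring
  have b6 : c ≤ Real.sqrt (
      Bz (T2_Q c) (zw (Fin 2) zE) (T2_wd (T2_F0 q τ k)) (T2_wd (T2_G0 t k))
        (![Sum.inr (1, 2), Sum.inl 0] : Fin 2 → Fin 2 ⊕ (Fin 4 × Fin 4)) *
      Bz (T2_Q c) (zw (Fin 2) zE) (T2_wd (T2_F1 q k)) (T2_wd (T2_G1 t τ))
        (![Sum.inr (1, 2), Sum.inl 0] : Fin 2 → Fin 2 ⊕ (Fin 4 × Fin 4))) := by
    refine T2_le_sqrt _ _ _ _ _ (T2_b6_0 c q k τ t hQ hF0 hG0) (T2_b6_1 c q k τ t hQ hF1 hG1)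
      (by positivity) (by positivity) ?_
    apply le_of_eq
    ring
  have b7 : c ≤ Real.sqrt (
      Bz (T2_Q c) (zw (Fin 2) zE) (T2_wd (T2_F0 q τ k)) (T2_wd (T2_G0 t k))
        (![Sum.inr (1, 2), Sum.inl 1] : Fin 2 → Fin 2 ⊕ (Fin 4 × Fin 4)) *
      Bz (T2_Q c) (zw (Fin 2) zE) (T2_wd (T2_F1 q k)) (T2_wd (T2_G1 t τ))
        (![Sum.inr (1, 2), Sum.inl 1] : Fin 2 → Fin 2 ⊕ (Fin 4 × Fin 4))) := by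
    refine T2_le_sqrt _ _ _ _ _ (T2_b7_0 c q k τ t hQ hF0 hG0) (T2_b7_1 c q k τ t hQ hF1 hG1)
      (by positivity) (by positivity) ?_
    apply le_of_eq
    ring
  have b8 : c * c ≤ Real.sqrt (
      Bz (T2_Q c) (zw (Fin 2) zE) (T2_wd (T2_F0 q τ k)) (T2_wd (T2_G0 t k))
        (![Sum.inr (0, 2), Sum.inr (2, 0)] : Fin 2 → Fin 2 ⊕ (Fin 4 × Fin 4)) *
      Bz (T2_Q c) (zw (Fin 2) zE) (T2_wd (T2_F1 q k)) (T2_wd (T2_G1 t τ))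
        (![Sum.inr (0, 2), Sum.inr (2, 0)] : Fin 2 → Fin 2 ⊕ (Fin 4 × Fin 4))) := by
    refine T2_le_sqrt _ _ _ _ _ (T2_b8_0 c q k τ t hQ hF0 hG0) (T2_b8_1 c q k τ t hQ hF1 hG1)
      (by positivity) (by positivity) ?_
    apply le_of_eq
    ring
  have b9 : c * c ≤ Real.sqrt (
      Bz (T2_Q c) (zw (Fin 2) zE) (T2_wd (T2_F0 q τ k)) (T2_wd (T2_G0 t k))
        (![Sum.inr (0, 2), Sum.inr (2, 1)] : Fin 2 → Fin 2 ⊕ (Fin 4 × Fin 4)) *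
      Bz (T2_Q c) (zw (Fin 2) zE) (T2_wd (T2_F1 q k)) (T2_wd (T2_G1 t τ))
        (![Sum.inr (0, 2), Sum.inr (2, 1)] : Fin 2 → Fin 2 ⊕ (Fin 4 × Fin 4))) := by
    refine T2_le_sqrt _ _ _ _ _ (T2_b9_0 c q k τ t hQ hF0 hG0) (T2_b9_1 c q k τ t hQ hF1 hG1)
      (by positivity) (by positivity) ?_
    apply le_of_eq
    ring
  have b10 : c * c ≤ Real.sqrt (
      Bz (T2_Q c) (zw (Fin 2) zE) (T2_wd (T2_F0 q τ k)) (T2_wd (T2_G0 t k))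
        (![Sum.inr (2, 0), Sum.inr (0, 2)] : Fin 2 → Fin 2 ⊕ (Fin 4 × Fin 4)) *
      Bz (T2_Q c) (zw (Fin 2) zE) (T2_wd (T2_F1 q k)) (T2_wd (T2_G1 t τ))
        (![Sum.inr (2, 0), Sum.inr (0, 2)] : Fin 2 → Fin 2 ⊕ (Fin 4 × Fin 4))) := by
    refine T2_le_sqrt _ _ _ _ _ (T2_b10_0 c q k τ t hQ hF0 hG0) (T2_b10_1 c q k τ t hQ hF1 hG1)
      (by positivity) (by positivity) ?_
    apply le_of_eq
    ring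
  have b11 : c * c ≤ Real.sqrt (
      Bz (T2_Q c) (zw (Fin 2) zE) (T2_wd (T2_F0 q τ k)) (T2_wd (T2_G0 t k))
        (![Sum.inr (2, 1), Sum.inr (0, 2)] : Fin 2 → Fin 2 ⊕ (Fin 4 × Fin 4)) *
      Bz (T2_Q c) (zw (Fin 2) zE) (T2_wd (T2_F1 q k)) (T2_wd (T2_G1 t τ))
        (![Sum.inr (2, 1), Sum.inr (0, 2)] : Fin 2 → Fin 2 ⊕ (Fin 4 × Fin 4))) := by
    refine T2_le_sqrt _ _ _ _ _ (T2_b11_0 c q k τ t hQ hF0 hG0) (T2_b11_1 c q k τ t hQ hF1 hG1)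
      (by positivity) (by positivity) ?_
    apply le_of_eq
    ring
  have b12 : 4 ≤ Real.sqrt (
      Bz (T2_Q c) (zw (Fin 2) zE) (T2_wd (T2_F0 q τ k)) (T2_wd (T2_G0 t k))
        (![Sum.inl 0, Sum.inl 0] : Fin 2 → Fin 2 ⊕ (Fin 4 × Fin 4)) *
      Bz (T2_Q c) (zw (Fin 2) zE) (T2_wd (T2_F1 q k)) (T2_wd (T2_G1 t τ))
        (![Sum.inl 0, Sum.inl 0] : Fin 2 → Fin 2 ⊕ (Fin 4 × Fin 4))) := by
    refine T2_le_sqrt _ _ _ _ _ (T2_b12_0 c q k τ t hQ hF0 hG0) (T2_b12_1 c q k τ t hQ hF1 hG1)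
      (by positivity) (by positivity) ?_
    apply le_of_eq
    ring
  have b13 : 2 + t / 2 - t ^ 2 / 16 ≤ Real.sqrt (
      Bz (T2_Q c) (zw (Fin 2) zE) (T2_wd (T2_F0 q τ k)) (T2_wd (T2_G0 t k))
        (![Sum.inl 1, Sum.inl 0] : Fin 2 → Fin 2 ⊕ (Fin 4 × Fin 4)) *
      Bz (T2_Q c) (zw (Fin 2) zE) (T2_wd (T2_F1 q k)) (T2_wd (T2_G1 t τ))
        (![Sum.inl 1, Sum.inl 0] : Fin 2 → Fin 2 ⊕ (Fin 4 × Fin 4))) := by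
    refine T2_le_sqrt _ _ _ _ _ (T2_b13_0 c q k τ t hQ hF0 hG0) (T2_b13_1 c q k τ t hQ hF1 hG1)
      (by positivity) (by positivity) ?_
    have h := T2_sq 2 t (by norm_num) ht.le (by linarith)
    have e : (2 + t / 2 - t ^ 2 / 16) = (2 + t / 2 - t ^ 2 / (8 * 2)) := by ring
    rw [e]
    linarith
  have b14 : 2 + t / 2 - t ^ 2 / 16 ≤ Real.sqrt (
      Bz (T2_Q c) (zw (Fin 2) zE) (T2_wd (T2_F0 q τ k)) (T2_wd (T2_G0 t k))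
        (![Sum.inl 0, Sum.inl 1] : Fin 2 → Fin 2 ⊕ (Fin 4 × Fin 4)) *
      Bz (T2_Q c) (zw (Fin 2) zE) (T2_wd (T2_F1 q k)) (T2_wd (T2_G1 t τ))
        (![Sum.inl 0, Sum.inl 1] : Fin 2 → Fin 2 ⊕ (Fin 4 × Fin 4))) := by
    refine T2_le_sqrt _ _ _ _ _ (T2_b14_0 c q k τ t hQ hF0 hG0) (T2_b14_1 c q k τ t hQ hF1 hG1)
      (by positivity) (by positivity) ?_
    have h := T2_sq 2 t (by norm_num) ht.le (by linarith)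
    have e : (2 + t / 2 - t ^ 2 / 16) = (2 + t / 2 - t ^ 2 / (8 * 2)) := by ring
    rw [e]
    linarith
  have b15 : t ≤ Real.sqrt (
      Bz (T2_Q c) (zw (Fin 2) zE) (T2_wd (T2_F0 q τ k)) (T2_wd (T2_G0 t k))
        (![Sum.inl 1, Sum.inl 1] : Fin 2 → Fin 2 ⊕ (Fin 4 × Fin 4)) *
      Bz (T2_Q c) (zw (Fin 2) zE) (T2_wd (T2_F1 q k)) (T2_wd (T2_G1 t τ))
        (![Sum.inl 1, Sum.inl 1] : Fin 2 → Fin 2 ⊕ (Fin 4 × Fin 4))) := by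
    refine T2_le_sqrt _ _ _ _ _ (T2_b15_0 c q k τ t hQ hF0 hG0) (T2_b15_1 c q k τ t hQ hF1 hG1)
      (by positivity) (by positivity) ?_
    apply le_of_eq
    field_simp
    ring
  have b16 : 2 * c * q + c * t / 2 - (c * t) ^ 2 / (16 * c * q) ≤ Real.sqrt (
      Bz (T2_Q c) (zw (Fin 2) zE) (T2_wd (T2_F0 q τ k)) (T2_wd (T2_G0 t k))
        (![Sum.inl 0, Sum.inr (2, 0)] : Fin 2 → Fin 2 ⊕ (Fin 4 × Fin 4)) *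
      Bz (T2_Q c) (zw (Fin 2) zE) (T2_wd (T2_F1 q k)) (T2_wd (T2_G1 t τ))
        (![Sum.inl 0, Sum.inr (2, 0)] : Fin 2 → Fin 2 ⊕ (Fin 4 × Fin 4))) := by
    refine T2_le_sqrt _ _ _ _ _ (T2_b16_0 c q k τ t hQ hF0 hG0) (T2_b16_1 c q k τ t hQ hF1 hG1)
      (by positivity) (by positivity) ?_
    have h := T2_sq (2 * c * q) (c * t) (by positivity) (by positivity) hct
    have e : (2 * c * q + c * t / 2 - (c * t) ^ 2 / (16 * c * q)) =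
        (2 * c * q + c * t / 2 - (c * t) ^ 2 / (8 * (2 * c * q))) := by ring
    rw [e]
    refine h.trans (le_of_eq ?_)
    ring
  have b17 : 2 * c * q + c * t / 2 - (c * t) ^ 2 / (16 * c * q) ≤ Real.sqrt (
      Bz (T2_Q c) (zw (Fin 2) zE) (T2_wd (T2_F0 q τ k)) (T2_wd (T2_G0 t k))
        (![Sum.inr (2, 0), Sum.inl 0] : Fin 2 → Fin 2 ⊕ (Fin 4 × Fin 4)) *
      Bz (T2_Q c) (zw (Fin 2) zE) (T2_wd (T2_F1 q k)) (T2_wd (T2_G1 t τ))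
        (![Sum.inr (2, 0), Sum.inl 0] : Fin 2 → Fin 2 ⊕ (Fin 4 × Fin 4))) := by
    refine T2_le_sqrt _ _ _ _ _ (T2_b17_0 c q k τ t hQ hF0 hG0) (T2_b17_1 c q k τ t hQ hF1 hG1)
      (by positivity) (by positivity) ?_
    have h := T2_sq (2 * c * q) (c * t) (by positivity) (by positivity) hct
    have e : (2 * c * q + c * t / 2 - (c * t) ^ 2 / (16 * c * q)) =
        (2 * c * q + c * t / 2 - (c * t) ^ 2 / (8 * (2 * c * q))) := by ring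
    rw [e]
    refine h.trans (le_of_eq ?_)
    ring
  have b18 : 2 * c * q ≤ Real.sqrt (
      Bz (T2_Q c) (zw (Fin 2) zE) (T2_wd (T2_F0 q τ k)) (T2_wd (T2_G0 t k))
        (![Sum.inr (2, 1), Sum.inl 0] : Fin 2 → Fin 2 ⊕ (Fin 4 × Fin 4)) *
      Bz (T2_Q c) (zw (Fin 2) zE) (T2_wd (T2_F1 q k)) (T2_wd (T2_G1 t τ))
        (![Sum.inr (2, 1), Sum.inl 0] : Fin 2 → Fin 2 ⊕ (Fin 4 × Fin 4))) := by
    refine T2_le_sqrt _ _ _ _ _ (T2_b18_0 c q k τ t hQ hF0 hG0) (T2_b18_1 c q k τ t hQ hF1 hG1)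
      (by positivity) (by positivity) ?_
    apply le_of_eq
    ring
  have b19 : 2 * c * q ≤ Real.sqrt (
      Bz (T2_Q c) (zw (Fin 2) zE) (T2_wd (T2_F0 q τ k)) (T2_wd (T2_G0 t k))
        (![Sum.inl 0, Sum.inr (2, 1)] : Fin 2 → Fin 2 ⊕ (Fin 4 × Fin 4)) *
      Bz (T2_Q c) (zw (Fin 2) zE) (T2_wd (T2_F1 q k)) (T2_wd (T2_G1 t τ))
        (![Sum.inl 0, Sum.inr (2, 1)] : Fin 2 → Fin 2 ⊕ (Fin 4 × Fin 4))) := by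
    refine T2_le_sqrt _ _ _ _ _ (T2_b19_0 c q k τ t hQ hF0 hG0) (T2_b19_1 c q k τ t hQ hF1 hG1)
      (by positivity) (by positivity) ?_
    apply le_of_eq
    ring
  have b20 : k * c ^ 2 * t ≤ Real.sqrt (
      Bz (T2_Q c) (zw (Fin 2) zE) (T2_wd (T2_F0 q τ k)) (T2_wd (T2_G0 t k))
        (![Sum.inr (3, 0), Sum.inr (3, 0)] : Fin 2 → Fin 2 ⊕ (Fin 4 × Fin 4)) *
      Bz (T2_Q c) (zw (Fin 2) zE) (T2_wd (T2_F1 q k)) (T2_wd (T2_G1 t τ))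
        (![Sum.inr (3, 0), Sum.inr (3, 0)] : Fin 2 → Fin 2 ⊕ (Fin 4 × Fin 4))) := by
    refine T2_le_sqrt _ _ _ _ _ (T2_b20_0 c q k τ t hQ hF0 hG0) (T2_b20_1 c q k τ t hQ hF1 hG1)
      (by positivity) (by positivity) ?_
    apply le_of_eq
    field_simp
  fin_cases j
  · exact b0
  · exact b1
  · exact b2
  · exact b3
  · exact b4
  · exact b5
  · exact b6
  · exact b7
  · exact b8
  · exact b9
  · exact b10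
  · exact b11
  · exact b12
  · exact b13
  · exact b14
  · exact b15
  · exact b16
  · exact b17
  · exact b18
  · exact b19
  · exact b20

theorem T2_sum_v (c q k t : ℝ) (hc : 0 < c) (hq : 0 < q) :
    ∑ j, T2_v c q k t j = 8 * c + 4 * c ^ 2 + 8 + 2 * t + c * t + 8 * c * q + k * c ^ 2 * t -
      t ^ 2 / 8 - c * t ^ 2 / (8 * q) := by
  simp only [T2_v, Fin.sum_univ_succ]
  simp
  field_simp
  ring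

theorem T2_main (c : ℝ) (hc : 0 < c) : ∃ q k τ t : ℝ, 0 < q ∧ 0 < k ∧ 0 < τ ∧ 0 < t ∧
    t ≤ 1 ∧ t ≤ 8 * q ∧
    ((8 * c + 8 + 4 * c ^ 2 + 8 * c * q + 2 * τ * t + 2 * c * τ * t + q * c ^ 2 * τ * t +
        k * c ^ 2 * t) +
      (8 * c + 8 + 4 * c ^ 2 + 8 * c * q + 2 * t + 2 * c * t + q * c ^ 2 * t +
        k * c ^ 2 * t + 2 * c ^ 2 * (t / (4 * k)) + t)) / 2 <
      8 * c + 4 * c ^ 2 + 8 + 2 * t + c * t + 8 * c * q + k * c ^ 2 * t -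
      t ^ 2 / 8 - c * t ^ 2 / (8 * q) := by
  obtain ⟨q, hq⟩ : ∃ q, q = 1 / (8 * c ^ 2) := ⟨_, rfl⟩
  obtain ⟨k, hk⟩ : ∃ k, k = 4 * c ^ 2 := ⟨_, rfl⟩
  obtain ⟨τ, hτ⟩ : ∃ τ, τ = 1 / (16 * (1 + c)) := ⟨_, rfl⟩
  obtain ⟨t, ht⟩ : ∃ t, t = 1 / (32 * (1 + c) ^ 3) := ⟨_, rfl⟩
  have hq0 : 0 < q := by rw [hq]; positivity
  have hk0 : 0 < k := by rw [hk]; positivity
  have hτ0 : 0 < τ := by rw [hτ]; positivity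
  have ht0 : 0 < t := by rw [ht]; positivity
  have hc1 : (1:ℝ) ≤ (1 + c) ^ 3 := one_le_pow₀ (by linarith)
  have hc3 : c ^ 3 ≤ (1 + c) ^ 3 := pow_le_pow_left₀ hc.le (by linarith) 3
  have hc2 : c ^ 2 ≤ (1 + c) ^ 3 := by nlinarith [sq_nonneg c, pow_pos hc 3]
  have ht32 : t * (32 * (1 + c) ^ 3) = 1 := by rw [ht]; field_simp
  have ht1 : t ≤ 1 / 32 := by
    have : t * 32 ≤ t * (32 * (1 + c) ^ 3) := by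
      apply mul_le_mul_of_nonneg_left _ ht0.le
      linarith
    linarith
  have htc2 : t * c ^ 2 ≤ 1 / 32 := by
    have : t * c ^ 2 ≤ t * (1 + c) ^ 3 := mul_le_mul_of_nonneg_left hc2 ht0.le
    linarith
  have htc3 : t * c ^ 3 ≤ 1 / 32 := by
    have : t * c ^ 3 ≤ t * (1 + c) ^ 3 := mul_le_mul_of_nonneg_left hc3 ht0.le
    linarith
  have hqc : q * c ^ 2 = 1 / 8 := by rw [hq]; field_simp
  have hkc : c ^ 2 * (t / (4 * k)) = t / 16 := by rw [hk]; field_simp; norm_num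
  have hτc : τ * (1 + c) = 1 / 16 := by rw [hτ]; field_simp
  have hcq : c * t ^ 2 / (8 * q) = t * (t * c ^ 3) := by rw [hq]; field_simp
  have h8q : t ≤ 8 * q := by
    have e : 8 * q * c ^ 2 = 1 := by linarith
    have : t * c ^ 2 ≤ 8 * q * c ^ 2 := by linarith
    exact le_of_mul_le_mul_right this (by positivity)
  refine ⟨q, k, τ, t, hq0, hk0, hτ0, ht0, by linarith, h8q, ?_⟩
  have e1 : q * c ^ 2 * τ * t = 1 / 8 * τ * t := by rw [hqc]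
  have e2 : q * c ^ 2 * t = 1 / 8 * t := by rw [hqc]
  have e3 : 2 * c ^ 2 * (t / (4 * k)) = t / 8 := by linarith
  rw [e1, e2, e3, hcq]
  have e4 : 2 * τ * t + 2 * c * τ * t = 1 / 8 * t := by
    have : 2 * τ * t + 2 * c * τ * t = 2 * (τ * (1 + c)) * t := by ring
    rw [this, hτc]; ring
  have e5 : τ * t ≤ 1 / 16 * t := by
    apply mul_le_mul_of_nonneg_right _ ht0.le
    have : τ ≤ τ * (1 + c) := by nlinarith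
    linarith
  have e6 : t * (t * c ^ 3) ≤ t * (1 / 32) := mul_le_mul_of_nonneg_left htc3 ht0.le
  have e7 : t ^ 2 ≤ t * (1 / 32) := by
    rw [sq]
    exact mul_le_mul_of_nonneg_left ht1 ht0.le
  nlinarith

theorem T2_sqrt_le (A B : ℝ) (hA : 0 ≤ A) (hB : 0 ≤ B) : Real.sqrt (A * B) ≤ (A + B) / 2 := by
  rw [show (A + B) / 2 = Real.sqrt (((A + B) / 2) ^ 2) from (Real.sqrt_sq (by positivity)).symm]
  apply Real.sqrt_le_sqrt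
  nlinarith [sq_nonneg (A - B)]

theorem T2_Q_viol (c : ℝ) (hc : 0 < c) : ∃ f0 f1 g0 g1 : (Fin 2 → Fin 4) → ℝ,
    (∀ x, 0 ≤ f0 x) ∧ (∀ x, 0 ≤ f1 x) ∧ (∀ x, 0 ≤ g0 x) ∧ (∀ x, 0 ≤ g1 x) ∧
    Real.sqrt (Bt (T2_Q c) f0 g1 * Bt (T2_Q c) f1 g0) <
      ∑ z, Real.sqrt (Bz (T2_Q c) (zw (Fin 2) zE) f0 g0 z *
        Bz (T2_Q c) (zw (Fin 2) zE) f1 g1 z) := by
  obtain ⟨q, k, τ, t, hq, hk, hτ, ht, ht1, htq, hlt⟩ := T2_main c hc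
  have hF0 : ∀ x, 0 ≤ T2_wd (T2_F0 q τ k) x := by
    intro x
    unfold T2_wd T2_F0
    generalize x 0 = i
    generalize x 1 = j
    fin_cases i <;> fin_cases j <;> simp <;> positivity
  have hF1 : ∀ x, 0 ≤ T2_wd (T2_F1 q k) x := by
    intro x
    unfold T2_wd T2_F1
    generalize x 0 = i
    generalize x 1 = j
    fin_cases i <;> fin_cases j <;> simp <;> positivity
  have hG0 : ∀ x, 0 ≤ T2_wd (T2_G0 t k) x := by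
    intro x
    unfold T2_wd T2_G0
    generalize x 0 = i
    generalize x 1 = j
    fin_cases i <;> fin_cases j <;> simp <;> positivity
  have hG1 : ∀ x, 0 ≤ T2_wd (T2_G1 t τ) x := by
    intro x
    unfold T2_wd T2_G1
    generalize x 0 = i
    generalize x 1 = j
    fin_cases i <;> fin_cases j <;> simp <;> positivity
  refine ⟨_, _, _, _, hF0, hF1, hG0, hG1, ?_⟩
  have h01 := T2_B01 c q k τ t hτ.ne'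
  have h10 := T2_B10 c q k τ t hk.ne'
  refine lt_of_le_of_lt (T2_sqrt_le _ _ ?_ ?_) ?_
  · rw [h01]; positivity
  · rw [h10]; positivity
  rw [h01, h10]
  refine lt_of_lt_of_le hlt ?_
  rw [← T2_sum_v c q k t hc hq]
  refine le_trans (Finset.sum_le_sum fun j _ =>
    T2_lower c q k τ t hc hq hk hτ ht ht1 htq j) ?_
  have hm := Finset.sum_map Finset.univ ⟨T2_zz, T2_zz_inj⟩ (fun z => Real.sqrt (
      Bz (T2_Q c) (zw (Fin 2) zE) (T2_wd (T2_F0 q τ k)) (T2_wd (T2_G0 t k)) z *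
      Bz (T2_Q c) (zw (Fin 2) zE) (T2_wd (T2_F1 q k)) (T2_wd (T2_G1 t τ)) z))
  refine le_trans (le_of_eq hm.symm) ?_
  exact Finset.sum_le_sum_of_subset_of_nonneg (Finset.subset_univ _)
    (fun z _ _ => Real.sqrt_nonneg _)

theorem T2_scaleP {X Y : Type} [Fintype X] [Fintype Y] (P Q : X → Y → ℝ) (r : ℝ)
    (h : ∀ x y, P x y = r * Q x y) (f : X → ℝ) (g : Y → ℝ) : Bt P f g = r * Bt Q f g := by
  unfold Bt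
  rw [Finset.mul_sum]
  refine Finset.sum_congr rfl fun x _ => ?_
  rw [Finset.mul_sum]
  refine Finset.sum_congr rfl fun y _ => ?_
  rw [h]
  ring

theorem T2_scalePz {X Y Z : Type} [Fintype X] [Fintype Y] (P Q : X → Y → ℝ) (zf : X → Y → Z)
    (r : ℝ) (h : ∀ x y, P x y = r * Q x y) (f : X → ℝ) (g : Y → ℝ) (z : Z) :
    Bz P zf f g z = r * Bz Q zf f g z := by
  unfold Bz
  rw [Finset.mul_sum]
  refine Finset.sum_congr rfl fun x _ => ?_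
  rw [Finset.mul_sum]
  refine Finset.sum_congr rfl fun y _ => ?_
  rw [h]
  split_ifs <;> ring

theorem TV_PE (a : ℝ) (ha : 0 < a) : TV (pw (Fin 2) (PE a)) (zw (Fin 2) zE) := by
  obtain ⟨f0, f1, g0, g1, hf0, hf1, hg0, hg1, hlt⟩ := T2_Q_viol (8 * a) (by positivity)
  refine T2_TV_of_nonneg _ _ f0 f1 g0 g1 hf0 hf1 hg0 hg1 ?_
  have hr : 0 < (1 / (8 * (1 + 8 * a))) ^ 2 := by positivity
  set r : ℝ := (1 / (8 * (1 + 8 * a))) ^ 2 with hrdef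
  have hp : ∀ x y, pw (Fin 2) (PE a) x y = r * T2_Q (8 * a) x y := T2_pw_eq a ha
  rw [T2_scaleP _ _ r hp, T2_scaleP _ _ r hp]
  have e1 : r * Bt (T2_Q (8 * a)) f0 g1 * (r * Bt (T2_Q (8 * a)) f1 g0) =
      r ^ 2 * (Bt (T2_Q (8 * a)) f0 g1 * Bt (T2_Q (8 * a)) f1 g0) := by ring
  rw [e1, Real.sqrt_mul (by positivity), Real.sqrt_sq hr.le]
  have e2 : ∀ z, Real.sqrt (Bz (pw (Fin 2) (PE a)) (zw (Fin 2) zE) f0 g0 z *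
      Bz (pw (Fin 2) (PE a)) (zw (Fin 2) zE) f1 g1 z) =
      r * Real.sqrt (Bz (T2_Q (8 * a)) (zw (Fin 2) zE) f0 g0 z *
        Bz (T2_Q (8 * a)) (zw (Fin 2) zE) f1 g1 z) := by
    intro z
    rw [T2_scalePz _ _ _ r hp, T2_scalePz _ _ _ r hp]
    have e1 : r * Bz (T2_Q (8 * a)) (zw (Fin 2) zE) f0 g0 z *
        (r * Bz (T2_Q (8 * a)) (zw (Fin 2) zE) f1 g1 z) =
      r ^ 2 * (Bz (T2_Q (8 * a)) (zw (Fin 2) zE) f0 g0 z *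
        Bz (T2_Q (8 * a)) (zw (Fin 2) zE) f1 g1 z) := by ring
    rw [e1, Real.sqrt_mul (by positivity), Real.sqrt_sq hr.le]
  rw [Finset.sum_congr rfl fun z _ => e2 z, ← Finset.mul_sum]
  exact mul_lt_mul_of_pos_left hlt hr

end

end Pool.Agent.SK
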